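import Pool.Agent.Lib_helper9.Parab.DriftInt

/-!
# The a priori estimate
-/

open MeasureTheory Set
open scoped ContDiff ENNReal

namespace Pool.Agent.Lib_helper9.Parab

variable {d : ℕ} {T : ℝ} {n₀ : ℕ}

/-- a bump function in the time window of cycle `j` -/
noncomputable def bump (T : ℝ) (n₀ j : ℕ) : ContDiffBump (sA T n₀ j + hh n₀ j / 2) where
  rIn := hh n₀ j / 4
  rOut := hh n₀ j / 2
  rIn_pos := by have := hh_pos n₀ j; positivity
  rIn_lt_rOut := by have := hh_pos n₀ j; linarith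

/-- the time cut-off of cycle `j` -/
noncomputable def chi (T : ℝ) (n₀ j : ℕ) (t : ℝ) : ℝ := bump T n₀ j t

lemma contDiff_chi (T : ℝ) (n₀ j : ℕ) : ContDiff ℝ ∞ (chi T n₀ j) := (bump T n₀ j).contDiff

lemma chi_nonneg (T : ℝ) (n₀ j : ℕ) (t : ℝ) : 0 ≤ chi T n₀ j t := (bump T n₀ j).nonneg

lemma chi_le_one (T : ℝ) (n₀ j : ℕ) (t : ℝ) : chi T n₀ j t ≤ 1 := (bump T n₀ j).le_one

lemma chi_eq_zero {T : ℝ} {n₀ j : ℕ} {t : ℝ}
    (ht : t ∉ Set.Ioo (sA T n₀ j) (sA T n₀ j + hh n₀ j)) : chi T n₀ j t = 0 := by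
  apply (bump T n₀ j).zero_of_le_dist
  show hh n₀ j / 2 ≤ dist t (sA T n₀ j + hh n₀ j / 2)
  rw [Real.dist_eq]
  by_contra h
  push Not at h
  apply ht
  rw [abs_lt] at h
  exact ⟨by linarith [h.1], by linarith [h.2]⟩

lemma chi_eq_one {T : ℝ} {n₀ j : ℕ} {t : ℝ}
    (ht : t ∈ Set.Icc (sA T n₀ j + hh n₀ j / 4) (sA T n₀ j + 3 * hh n₀ j / 4)) :
    chi T n₀ j t = 1 := by
  apply (bump T n₀ j).one_of_mem_closedBall
  rw [Metric.mem_closedBall]
  show dist t (sA T n₀ j + hh n₀ j / 2) ≤ hh n₀ j / 4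
  rw [Real.dist_eq, abs_le]
  exact ⟨by linarith [ht.1], by linarith [ht.2]⟩

/-- the test pairing of cycle `j` -/
noncomputable def psi (T : ℝ) (n₀ : ℕ) (i₀ : Fin d) (j : ℕ) (t : ℝ) (x : Fin d → ℝ) : ℝ :=
  chi T n₀ j t * Real.cos (2 * Real.pi * NN n₀ j * x i₀)

/-- combinations of the test pairings -/
noncomputable def GG (T : ℝ) (n₀ : ℕ) (i₀ : Fin d) (lam : ℕ →₀ ℝ) (t : ℝ) (x : Fin d → ℝ) : ℝ :=
  ∑ i ∈ lam.support, lam i * psi T n₀ i₀ i t x

lemma continuous_psi (T : ℝ) (n₀ : ℕ) (i₀ : Fin d) (j : ℕ) :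
    Continuous (fun z : ℝ × (Fin d → ℝ) => psi T n₀ i₀ j z.1 z.2) := by
  unfold psi
  have := (contDiff_chi T n₀ j).continuous
  fun_prop

lemma continuous_GG (T : ℝ) (n₀ : ℕ) (i₀ : Fin d) (lam : ℕ →₀ ℝ) :
    Continuous (fun z : ℝ × (Fin d → ℝ) => GG T n₀ i₀ lam z.1 z.2) := by
  unfold GG
  exact continuous_finsetSum _ fun i _ => continuous_const.mul (continuous_psi T n₀ i₀ i)

lemma abs_psi_le (T : ℝ) (n₀ : ℕ) (i₀ : Fin d) (j : ℕ) (t : ℝ) (x : Fin d → ℝ) :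
    |psi T n₀ i₀ j t x| ≤ chi T n₀ j t := by
  unfold psi
  rw [abs_mul, abs_of_nonneg (chi_nonneg T n₀ j t)]
  calc _ ≤ chi T n₀ j t * 1 :=
        mul_le_mul_of_nonneg_left (Real.abs_cos_le_one _) (chi_nonneg T n₀ j t)
    _ = _ := mul_one _

lemma chi_active (hn : 4 ≤ T * 2 ^ n₀) {j : ℕ} {t : ℝ} (ht : t ∈ Set.Ioo (sT T j) (sA T n₀ j))
    (i : ℕ) : chi T n₀ i t = 0 := by
  have hT := T_pos_of hn
  apply chi_eq_zero
  intro h
  rcases lt_trichotomy i j with hij | hij | hij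
  · have a1 : sT T (i + 1) ≤ sT T j := (sT_mono hT).monotone hij
    have a2 := sA_add_lt hn i
    linarith [h.2, ht.1]
  · subst hij; linarith [h.1, ht.2]
  · have a1 : sT T (j + 1) ≤ sT T i := (sT_mono hT).monotone hij
    have a2 := sA_add_lt hn j
    have a3 := hh_pos n₀ j
    have a4 := sT_lt_sA (T := T) n₀ i
    linarith [h.1, ht.2]

lemma chi_rest (hn : 4 ≤ T * 2 ^ n₀) {i j : ℕ} (hij : i ≠ j) {t : ℝ}
    (ht : t ∈ Set.Ioo (sA T n₀ j) (sT T (j + 1))) : chi T n₀ i t = 0 := by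
  have hT := T_pos_of hn
  apply chi_eq_zero
  intro h
  rcases lt_or_gt_of_ne hij with hij | hij
  · have a1 : sT T (i + 1) ≤ sT T j := (sT_mono hT).monotone hij
    have a2 := sA_add_lt hn i
    have a4 := sT_lt_sA (T := T) n₀ j
    linarith [h.2, ht.1]
  · have a1 : sT T (j + 1) ≤ sT T i := (sT_mono hT).monotone hij
    have a4 := sT_lt_sA (T := T) n₀ i
    linarith [h.1, ht.2]

lemma GG_active (hn : 4 ≤ T * 2 ^ n₀) {j : ℕ} {t : ℝ} (ht : t ∈ Set.Ioo (sT T j) (sA T n₀ j))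
    (i₀ : Fin d) (lam : ℕ →₀ ℝ) (x : Fin d → ℝ) : GG T n₀ i₀ lam t x = 0 := by
  unfold GG psi
  apply Finset.sum_eq_zero
  intro i _
  rw [chi_active hn ht i]; ring

lemma GG_rest (hn : 4 ≤ T * 2 ^ n₀) {j : ℕ} {t : ℝ}
    (ht : t ∈ Set.Ioo (sA T n₀ j) (sT T (j + 1)))
    (i₀ : Fin d) (lam : ℕ →₀ ℝ) (x : Fin d → ℝ) : GG T n₀ i₀ lam t x =
      lam j * (chi T n₀ j t * Real.cos (2 * Real.pi * NN n₀ j * x i₀)) := by
  unfold GG psi
  rw [Finset.sum_eq_single j]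
  · intro i _ hij
    rw [chi_rest hn hij ht]; ring
  · intro h
    rw [Finsupp.notMem_support_iff.mp h]; ring

lemma integral_chi_le (hn : 4 ≤ T * 2 ^ n₀) (j : ℕ) :
    ∫ t in (0 : ℝ)..T, chi T n₀ j t ≤ hh n₀ j := by
  have hT := T_pos_of hn
  have h0 : 0 ≤ sA T n₀ j := by
    have := sT_nonneg hT j
    have := sT_lt_sA (T := T) n₀ j
    linarith
  have h1 : sA T n₀ j + hh n₀ j ≤ T := by
    have := sA_add_lt hn j
    have := sT_lt hT (j + 1)
    linarith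
  have h2 := hh_pos n₀ j
  have c := (contDiff_chi T n₀ j).continuous
  have e : ∫ t in (0 : ℝ)..T, chi T n₀ j t =
      (∫ t in (0 : ℝ)..(sA T n₀ j), chi T n₀ j t) +
      (∫ t in (sA T n₀ j)..(sA T n₀ j + hh n₀ j), chi T n₀ j t) +
      ∫ t in (sA T n₀ j + hh n₀ j)..T, chi T n₀ j t := by
    rw [intervalIntegral.integral_add_adjacent_intervals (c.intervalIntegrable _ _)
      (c.intervalIntegrable _ _), intervalIntegral.integral_add_adjacent_intervals
      (c.intervalIntegrable _ _) (c.intervalIntegrable _ _)]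
  have e1 : ∫ t in (0 : ℝ)..(sA T n₀ j), chi T n₀ j t = 0 := by
    have : ∫ t in (0 : ℝ)..(sA T n₀ j), chi T n₀ j t = ∫ t in (0 : ℝ)..(sA T n₀ j), (0 : ℝ) := by
      apply intervalIntegral.integral_congr
      intro t ht
      rw [uIcc_of_le h0] at ht
      exact chi_eq_zero fun h => by linarith [h.1, ht.2]
    rw [this]; simp
  have e2 : ∫ t in (sA T n₀ j + hh n₀ j)..T, chi T n₀ j t = 0 := by
    have : ∫ t in (sA T n₀ j + hh n₀ j)..T, chi T n₀ j t =
        ∫ t in (sA T n₀ j + hh n₀ j)..T, (0 : ℝ) := by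
      apply intervalIntegral.integral_congr
      intro t ht
      rw [uIcc_of_le h1] at ht
      exact chi_eq_zero fun h => by linarith [h.2, ht.1]
    rw [this]; simp
  have e3 : ∫ t in (sA T n₀ j)..(sA T n₀ j + hh n₀ j), chi T n₀ j t ≤
      ∫ t in (sA T n₀ j)..(sA T n₀ j + hh n₀ j), (1 : ℝ) := by
    apply intervalIntegral.integral_mono_on (by linarith) (c.intervalIntegrable _ _)
      (by simp)
    intro t _
    exact chi_le_one T n₀ j t
  rw [e, e1, e2]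
  simp at e3
  linarith

lemma mass_le_emass {b : ℝ → (Fin d → ℝ) → (Fin d → ℝ)} {β : ℝ → ℝ}
    {φ : ℝ → (Fin d → ℝ) → ℝ} (hb : IsField T b β) (hφ : IsTest d T φ) (i₀ : Fin d)
    (lam : ℕ →₀ ℝ) {t : ℝ} (ht : t ∈ Set.Icc 0 T) :
    mass b φ t ≤ emass b φ (GG T n₀ i₀ lam) t + ∑ i ∈ lam.support, |lam i| * chi T n₀ i t := by
  have iL := integrableOn_Lstar_slice hb hφ ht
  have iG : IntegrableOn (GG T n₀ i₀ lam t) (cell d) :=
    integrableOn_cell ((continuous_GG T n₀ i₀ lam).comp (f := fun x => (t, x)) (by fun_prop))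
  set c := ∑ i ∈ lam.support, |lam i| * chi T n₀ i t with hc
  have h1 : ∀ x, |GG T n₀ i₀ lam t x| ≤ c := by
    intro x
    unfold GG
    refine (Finset.abs_sum_le_sum_abs _ _).trans (Finset.sum_le_sum fun i _ => ?_)
    rw [abs_mul]
    exact mul_le_mul_of_nonneg_left (abs_psi_le T n₀ i₀ i t x) (abs_nonneg _)
  have h2 : mass b φ t ≤ ∫ x in cell d, (|Lstar b φ t x - GG T n₀ i₀ lam t x| + c) := by
    unfold mass
    apply integral_mono iL.norm ((iL.sub iG).norm.add (integrable_const c))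
    intro x
    have h3 := abs_sub_abs_le_abs_sub (Lstar b φ t x) (GG T n₀ i₀ lam t x)
    have h4 := h1 x
    show |Lstar b φ t x| ≤ |Lstar b φ t x - GG T n₀ i₀ lam t x| + c
    linarith
  have e : ∫ x in cell d, (|Lstar b φ t x - GG T n₀ i₀ lam t x| + c) =
      emass b φ (GG T n₀ i₀ lam) t + c := by
    have h3 : ∫ x in cell d, (|Lstar b φ t x - GG T n₀ i₀ lam t x| + c) =
      (∫ x in cell d, |Lstar b φ t x - GG T n₀ i₀ lam t x|) + ∫ x in cell d, c :=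
        integral_add (iL.sub iG).norm (integrable_const c)
    rw [h3, setIntegral_const, Measure.real, volume_cell]
    simp [emass]
  rw [e] at h2
  exact h2

lemma integral_mass_le {b : ℝ → (Fin d → ℝ) → (Fin d → ℝ)} {β : ℝ → ℝ}
    {φ : ℝ → (Fin d → ℝ) → ℝ} (hn : 4 ≤ T * 2 ^ n₀) (hb : IsField T b β) (hφ : IsTest d T φ)
    (i₀ : Fin d) (lam : ℕ →₀ ℝ) :
    ∫ t in (0 : ℝ)..T, mass b φ t ≤ (∫ t in (0 : ℝ)..T, emass b φ (GG T n₀ i₀ lam) t) +
      ∑ i ∈ lam.support, |lam i| * hh n₀ i := by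
  have hT := T_pos_of hn
  have i1 : IntervalIntegrable (mass b φ) volume 0 T :=
    intervalIntegrable_mass hb hφ le_rfl hT.le hT.le le_rfl
  have i2 : IntervalIntegrable (emass b φ (GG T n₀ i₀ lam)) volume 0 T := by
    rw [intervalIntegrable_iff_integrableOn_Icc_of_le hT.le]
    exact integrableOn_emass_Icc hb hφ (continuous_GG T n₀ i₀ lam) le_rfl le_rfl
  have i3 : ∀ i ∈ lam.support, IntervalIntegrable (fun t => |lam i| * chi T n₀ i t) volume 0 T :=
    fun i _ => (continuous_const.mul (contDiff_chi T n₀ i).continuous).intervalIntegrable _ _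
  have i3' : IntervalIntegrable (fun t => ∑ i ∈ lam.support, |lam i| * chi T n₀ i t) volume 0 T :=
    (continuous_finsetSum _ fun i _ =>
      continuous_const.mul (contDiff_chi T n₀ i).continuous).intervalIntegrable _ _
  have h1 : ∫ t in (0 : ℝ)..T, mass b φ t ≤ ∫ t in (0 : ℝ)..T,
      (emass b φ (GG T n₀ i₀ lam) t + ∑ i ∈ lam.support, |lam i| * chi T n₀ i t) := by
    apply intervalIntegral.integral_mono_on hT.le i1 (i2.add i3')
    intro t ht
    exact mass_le_emass hb hφ i₀ lam ht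
  rw [intervalIntegral.integral_add i2 i3', intervalIntegral.integral_finsetSum i3] at h1
  refine h1.trans ?_
  gcongr with i _
  rw [intervalIntegral.integral_const_mul]
  gcongr
  exact integral_chi_le hn i

lemma integral_chi_exp_ge (hn : 4 ≤ T * 2 ^ n₀) (j : ℕ) :
    hh n₀ j / 4 ≤ ∫ t in (sA T n₀ j)..(sT T (j + 1)),
      chi T n₀ j t * Real.exp (-((2 * Real.pi * NN n₀ j) ^ 2 * (t - sA T n₀ j))) := by
  have h2 := hh_pos n₀ j
  have h3 := sA_add_lt hn j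
  have hN : (0 : ℝ) < NN n₀ j := by exact_mod_cast NN_pos n₀ j
  set f : ℝ → ℝ := fun t =>
    chi T n₀ j t * Real.exp (-((2 * Real.pi * NN n₀ j) ^ 2 * (t - sA T n₀ j))) with hf
  have cf : Continuous f := by
    have := (contDiff_chi T n₀ j).continuous
    rw [hf]; fun_prop
  have f0 : ∀ t, 0 ≤ f t := fun t => mul_nonneg (chi_nonneg T n₀ j t) (Real.exp_pos _).le
  have h4 : ∫ t in (sA T n₀ j + hh n₀ j / 4)..(sA T n₀ j + 3 * hh n₀ j / 4), (1 / 2 : ℝ) ≤
      ∫ t in (sA T n₀ j + hh n₀ j / 4)..(sA T n₀ j + 3 * hh n₀ j / 4), f t := by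
    apply intervalIntegral.integral_mono_on (by linarith) (by simp) (cf.intervalIntegrable _ _)
    intro t ht
    rw [hf]
    simp only
    rw [chi_eq_one ht, one_mul]
    have h5 : (2 * Real.pi * NN n₀ j) ^ 2 * (t - sA T n₀ j) ≤ 1 / 2 := by
      calc (2 * Real.pi * NN n₀ j) ^ 2 * (t - sA T n₀ j) ≤
          (2 * Real.pi * NN n₀ j) ^ 2 * hh n₀ j := by
            gcongr
            linarith [ht.2]
        _ = Real.pi ^ 2 / 32 := by unfold hh; field_simp; ring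
        _ ≤ 1 / 2 := by
            have := Real.pi_lt_d2
            have := Real.pi_pos
            nlinarith
    have h6 := Real.add_one_le_exp (-((2 * Real.pi * NN n₀ j) ^ 2 * (t - sA T n₀ j)))
    linarith
  have h5 : ∫ t in (sA T n₀ j + hh n₀ j / 4)..(sA T n₀ j + 3 * hh n₀ j / 4), f t ≤
      ∫ t in (sA T n₀ j)..(sT T (j + 1)), f t := by
    apply intervalIntegral.integral_mono_interval (by linarith) (by linarith) (by linarith)
    · filter_upwards with t; exact f0 t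
    · exact cf.intervalIntegrable _ _
  rw [intervalIntegral.integral_const, smul_eq_mul] at h4
  linarith

lemma one_cycle (hn : 4 ≤ T * 2 ^ n₀) {i₀ i₁ : Fin d} (hi : i₀ ≠ i₁)
    {φ : ℝ → (Fin d → ℝ) → ℝ} (hφ : IsTest d T φ) (lam : ℕ →₀ ℝ) {Q : ℝ}
    (hQ : ∀ t ∈ Set.Icc 0 T, ∫ x in cell d, |φ t x| ≤ Q) (j : ℕ) :
    |lam j| * hh n₀ j / 8 ≤
      (∫ t in (sT T j)..(sT T (j + 1)), emass (drift T n₀ i₀ i₁) φ (GG T n₀ i₀ lam) t) +
        20 / 2 ^ (LL j) * Q := by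
  have hT := T_pos_of hn
  have hb := isField_drift hn hi
  have hh0 := hh_pos n₀ j
  have s0 := sT_nonneg hT j
  have s1 := sT_lt_sA (T := T) n₀ j
  have s2 := sA_add_lt hn j
  have s3 := sT_lt hT (j + 1)
  have Q0 : 0 ≤ Q := (integral_nonneg fun _ => abs_nonneg _).trans (hQ 0 ⟨le_rfl, hT.le⟩)
  have h1 := rest_estimate hb hφ (continuous_GG T n₀ i₀ lam) (NN_pos n₀ j) (i₀ := i₀)
    (s₀ := sA T n₀ j) (s₁ := sT T (j + 1)) (lam := lam j) (by linarith) (by linarith)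
    s3.le (contDiff_chi T n₀ j).continuous
    (fun t ht x => drift_eq_zero i₀ i₁ (not_mem_slot hn ht) x)
    (fun t ht x => GG_rest hn ht i₀ lam x)
  have h2 := cycle_estimate hb hφ (NN_pos n₀ j) hi (s := sT T j) (L := LL j) s0
    (by show sA T n₀ j ≤ T; linarith) (drift_isCycle hn i₀ i₁ j) (Q := Q)
    (fun t ht => hQ t ⟨by linarith [ht.1], by
      have : t ≤ sA T n₀ j := ht.2
      linarith⟩)
  have e1 : sT T j + rho (NN n₀ j) (LL j) 0 = sA T n₀ j := rfl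
  rw [e1] at h2
  have e2 : ∫ t in (sT T j)..(sA T n₀ j), mass (drift T n₀ i₀ i₁) φ t =
      ∫ t in (sT T j)..(sA T n₀ j), emass (drift T n₀ i₀ i₁) φ (GG T n₀ i₀ lam) t := by
    rw [intervalIntegral.integral_of_le s1.le, intervalIntegral.integral_of_le s1.le,
      integral_Ioc_eq_integral_Ioo, integral_Ioc_eq_integral_Ioo]
    apply setIntegral_congr_fun measurableSet_Ioo
    intro t ht
    unfold mass emass
    congr 1
    ext x
    rw [GG_active hn ht i₀ lam x, sub_zero]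
  have iE : ∀ t₀ t₁, 0 ≤ t₀ → t₀ ≤ t₁ → t₁ ≤ T → IntervalIntegrable
      (emass (drift T n₀ i₀ i₁) φ (GG T n₀ i₀ lam)) volume t₀ t₁ := by
    intro t₀ t₁ a b c
    rw [intervalIntegrable_iff_integrableOn_Icc_of_le b]
    exact integrableOn_emass_Icc hb hφ (continuous_GG T n₀ i₀ lam) a c
  have e3 : (∫ t in (sT T j)..(sA T n₀ j), emass (drift T n₀ i₀ i₁) φ (GG T n₀ i₀ lam) t) +
      (∫ t in (sA T n₀ j)..(sT T (j + 1)), emass (drift T n₀ i₀ i₁) φ (GG T n₀ i₀ lam) t) =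
      ∫ t in (sT T j)..(sT T (j + 1)), emass (drift T n₀ i₀ i₁) φ (GG T n₀ i₀ lam) t :=
    intervalIntegral.integral_add_adjacent_intervals (iE _ _ s0 s1.le (by linarith))
      (iE _ _ (by linarith) (by linarith) s3.le)
  have h3 := integral_chi_exp_ge hn j
  have h4 := exp_rest_le hn j
  have h5 : |lam j| * hh n₀ j / 8 ≤ |lam j / 2 * ∫ t in (sA T n₀ j)..(sT T (j + 1)),
      chi T n₀ j t * Real.exp (-((2 * Real.pi * NN n₀ j) ^ 2 * (t - sA T n₀ j)))| := by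
    rw [abs_mul, abs_div, abs_two]
    have h6 := le_abs_self (∫ t in (sA T n₀ j)..(sT T (j + 1)),
      chi T n₀ j t * Real.exp (-((2 * Real.pi * NN n₀ j) ^ 2 * (t - sA T n₀ j))))
    have h7 := mul_le_mul_of_nonneg_left (h3.trans h6) (by positivity : 0 ≤ |lam j| / 2)
    linarith
  have h6 : Real.exp (-((2 * Real.pi * NN n₀ j) ^ 2 * (sT T (j + 1) - sA T n₀ j))) *
      (∫ x in cell d, |φ (sT T (j + 1)) x|) ≤ 1 / 2 ^ LL j * Q := by
    apply mul_le_mul h4 (hQ _ ⟨sT_nonneg hT _, s3.le⟩)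
      (integral_nonneg fun _ => abs_nonneg _) (by positivity)
  have e4 : 20 / 2 ^ (LL j) * Q = 1 / 2 ^ LL j * Q + 19 / 2 ^ LL j * Q := by ring
  rw [e2] at h2
  rw [e4]
  linarith

lemma sum_LL (n : ℕ) : ∑ j ∈ Finset.range n, (20 : ℝ) / 2 ^ (LL j) ≤ 5 / 128 := by
  have : ∑ j ∈ Finset.range n, (20 : ℝ) / 2 ^ (LL j) = 5 / 128 * (1 - 1 / 2 ^ n) := by
    induction n with
    | zero => simp
    | succ n ih =>
      rw [Finset.sum_range_succ, ih]
      unfold LL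
      rw [pow_add, pow_succ]
      field_simp
      norm_num
      ring
  rw [this]
  have : (0 : ℝ) < 1 / 2 ^ n := by positivity
  nlinarith

/-- The a priori estimate. -/
theorem apriori (hn : 4 ≤ T * 2 ^ n₀) {i₀ i₁ : Fin d} (hi : i₀ ≠ i₁)
    {φ : ℝ → (Fin d → ℝ) → ℝ} (hφ : IsTest d T φ) (lam : ℕ →₀ ℝ) :
    ∑ i ∈ lam.support, |lam i| * hh n₀ i ≤
      13 * ∫ t in (0 : ℝ)..T, emass (drift T n₀ i₀ i₁) φ (GG T n₀ i₀ lam) t := by
  have hT := T_pos_of hn
  have hb := isField_drift hn hi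
  set A := ∫ t in (0 : ℝ)..T, emass (drift T n₀ i₀ i₁) φ (GG T n₀ i₀ lam) t with hA
  set S := ∑ i ∈ lam.support, |lam i| * hh n₀ i with hS
  have hA0 : 0 ≤ A := intervalIntegral.integral_nonneg hT.le fun t _ => emass_nonneg _ t
  have hS0 : 0 ≤ S := Finset.sum_nonneg fun i _ => mul_nonneg (abs_nonneg _) (hh_pos n₀ i).le
  have hmass : ∫ t in (0 : ℝ)..T, mass (drift T n₀ i₀ i₁) φ t ≤ A + S :=
    integral_mass_le hn hb hφ i₀ lam
  have hQ : ∀ t ∈ Set.Icc 0 T, ∫ x in cell d, |φ t x| ≤ A + S := by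
    intro t ht
    refine (kato hb hφ ht).trans (le_trans ?_ hmass)
    have e : (∫ s in (0 : ℝ)..t, mass (drift T n₀ i₀ i₁) φ s) +
        (∫ s in t..T, mass (drift T n₀ i₀ i₁) φ s) =
        ∫ s in (0 : ℝ)..T, mass (drift T n₀ i₀ i₁) φ s :=
      intervalIntegral.integral_add_adjacent_intervals
        (intervalIntegrable_mass hb hφ le_rfl hT.le ht.1 ht.2)
        (intervalIntegrable_mass hb hφ ht.1 ht.2 hT.le le_rfl)
    have : 0 ≤ ∫ s in (0 : ℝ)..t, mass (drift T n₀ i₀ i₁) φ s :=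
      intervalIntegral.integral_nonneg ht.1 fun s _ => mass_nonneg s
    linarith
  obtain ⟨n, hnr⟩ := lam.support.exists_nat_subset_range
  have h1 : S / 8 ≤ ∑ j ∈ Finset.range n, |lam j| * hh n₀ j / 8 := by
    rw [hS, Finset.sum_div]
    apply Finset.sum_le_sum_of_subset_of_nonneg hnr
    intro i _ _
    have := hh_pos n₀ i
    positivity
  have h2 : ∑ j ∈ Finset.range n, |lam j| * hh n₀ j / 8 ≤
      ∑ j ∈ Finset.range n, ((∫ t in (sT T j)..(sT T (j + 1)),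
        emass (drift T n₀ i₀ i₁) φ (GG T n₀ i₀ lam) t) + 20 / 2 ^ (LL j) * (A + S)) :=
    Finset.sum_le_sum fun j _ => one_cycle hn hi hφ lam hQ j
  have iE : ∀ t₀ t₁, 0 ≤ t₀ → t₀ ≤ t₁ → t₁ ≤ T → IntervalIntegrable
      (emass (drift T n₀ i₀ i₁) φ (GG T n₀ i₀ lam)) volume t₀ t₁ := by
    intro t₀ t₁ a b c
    rw [intervalIntegrable_iff_integrableOn_Icc_of_le b]
    exact integrableOn_emass_Icc hb hφ (continuous_GG T n₀ i₀ lam) a c
  have h3 : ∑ j ∈ Finset.range n, (∫ t in (sT T j)..(sT T (j + 1)),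
        emass (drift T n₀ i₀ i₁) φ (GG T n₀ i₀ lam) t) ≤ A := by
    rw [intervalIntegral.sum_integral_adjacent_intervals]
    · rw [sT_zero]
      have e : (∫ t in (0 : ℝ)..(sT T n), emass (drift T n₀ i₀ i₁) φ (GG T n₀ i₀ lam) t) +
          (∫ t in (sT T n)..T, emass (drift T n₀ i₀ i₁) φ (GG T n₀ i₀ lam) t) = A :=
        intervalIntegral.integral_add_adjacent_intervals
          (iE _ _ le_rfl (sT_nonneg hT n) (sT_lt hT n).le)
          (iE _ _ (sT_nonneg hT n) (sT_lt hT n).le le_rfl)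
      have : 0 ≤ ∫ t in (sT T n)..T, emass (drift T n₀ i₀ i₁) φ (GG T n₀ i₀ lam) t :=
        intervalIntegral.integral_nonneg (sT_lt hT n).le fun s _ => emass_nonneg _ s
      linarith
    · intro k _
      exact iE _ _ (sT_nonneg hT k) (sT_mono hT (Nat.lt_succ_self k)).le (sT_lt hT (k + 1)).le
  rw [Finset.sum_add_distrib, ← Finset.sum_mul] at h2
  have h4 := mul_le_mul_of_nonneg_right (sum_LL n) (add_nonneg hA0 hS0)
  linarith

end Pool.Agent.Lib_helper9.Parab
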