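import Pool.Agent.Lib_helper9.Parab.Torus

/-!
# The backward operator and basic facts on test functions
-/

open MeasureTheory Set
open scoped ContDiff

namespace Pool.Agent.Lib_helper9.Parab

variable {d : ℕ}

/-- the backward operator `∂_t φ + b·∇φ + Δφ` -/
noncomputable def Lstar (b : ℝ → (Fin d → ℝ) → (Fin d → ℝ)) (φ : ℝ → (Fin d → ℝ) → ℝ)
    (t : ℝ) (x : Fin d → ℝ) : ℝ :=
  deriv (fun s => φ s x) t + ∑ i, b t x i * pd i (φ t) x + lap (φ t) x

/-- an admissible drift -/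
structure IsField (T : ℝ) (b : ℝ → (Fin d → ℝ) → (Fin d → ℝ)) (β : ℝ → ℝ) : Prop where
  meas : Measurable (fun z : ℝ × (Fin d → ℝ) => b z.1 z.2)
  bound : ∀ t x i, |b t x i| ≤ β t
  int : IntegrableOn β (Set.Ioo 0 T)
  divfree : ∀ t (F : (Fin d → ℝ) → ℝ), ContDiff ℝ 1 F → IsPeriodic F →
    ∫ x in cell d, ∑ i, b t x i * pd i F x = 0

/-! ### Partial derivatives of functions of `(t, x)` -/

lemma deriv_eq_fderiv {G : ℝ × (Fin d → ℝ) → ℝ} (hG : ContDiff ℝ 1 G) (t : ℝ) (x : Fin d → ℝ) :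
    deriv (fun s => G (s, x)) t = fderiv ℝ G (t, x) (1, 0) := by
  have h1 : HasFDerivAt G (fderiv ℝ G (t, x)) (t, x) :=
    (hG.differentiable one_ne_zero (t, x)).hasFDerivAt
  have h2 : HasDerivAt (fun r : ℝ => ((r, x) : ℝ × (Fin d → ℝ))) (1, 0) t :=
    (hasDerivAt_id t).prodMk (hasDerivAt_const t x)
  exact (h1.comp_hasDerivAt t h2).deriv

lemma pd_eq_fderiv {G : ℝ × (Fin d → ℝ) → ℝ} (hG : ContDiff ℝ 1 G) (i : Fin d) (t : ℝ)
    (x : Fin d → ℝ) :
    pd i (fun y => G (t, y)) x = fderiv ℝ G (t, x) (0, Pi.single i 1) := by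
  have h1 : HasFDerivAt G (fderiv ℝ G (t, x)) (t, x) :=
    (hG.differentiable one_ne_zero (t, x)).hasFDerivAt
  have h2 : HasFDerivAt (fun y : Fin d → ℝ => ((t, y) : ℝ × (Fin d → ℝ)))
      (ContinuousLinearMap.inr ℝ ℝ (Fin d → ℝ)) x := hasFDerivAt_prodMk_right t x
  have h3 := h1.comp x h2
  unfold pd
  have h4 : fderiv ℝ (fun y => G (t, y)) x =
      (fderiv ℝ G (t, x)).comp (ContinuousLinearMap.inr ℝ ℝ (Fin d → ℝ)) := h3.fderiv
  rw [h4]
  simp

/-- the space slice of a smooth function is smooth -/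
lemma contDiff_slice {n : ℕ∞ω} {G : ℝ × (Fin d → ℝ) → ℝ} (hG : ContDiff ℝ n G) (t : ℝ) :
    ContDiff ℝ n (fun y => G (t, y)) :=
  hG.comp (contDiff_const.prodMk contDiff_id)

/-- the `i`-th space derivative as a function of `(t,x)` -/
noncomputable def Dx (i : Fin d) (G : ℝ × (Fin d → ℝ) → ℝ) (z : ℝ × (Fin d → ℝ)) : ℝ :=
  fderiv ℝ G z (0, Pi.single i 1)

/-- the time derivative as a function of `(t,x)` -/
noncomputable def Dt (G : ℝ × (Fin d → ℝ) → ℝ) (z : ℝ × (Fin d → ℝ)) : ℝ :=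
  fderiv ℝ G z (1, 0)

lemma contDiff_Dx {G : ℝ × (Fin d → ℝ) → ℝ} {m n : ℕ∞ω} (hG : ContDiff ℝ n G)
    (h : m + 1 ≤ n) (i : Fin d) : ContDiff ℝ m (Dx i G) :=
  (hG.fderiv_right h).clm_apply contDiff_const

lemma contDiff_Dt {G : ℝ × (Fin d → ℝ) → ℝ} {m n : ℕ∞ω} (hG : ContDiff ℝ n G)
    (h : m + 1 ≤ n) : ContDiff ℝ m (Dt G) :=
  (hG.fderiv_right h).clm_apply contDiff_const

lemma pd_slice {G : ℝ × (Fin d → ℝ) → ℝ} (hG : ContDiff ℝ 1 G) (i : Fin d) (t : ℝ) :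
    pd i (fun y => G (t, y)) = fun x => Dx i G (t, x) := by
  ext x; exact pd_eq_fderiv hG i t x

lemma pd_pd_slice {G : ℝ × (Fin d → ℝ) → ℝ} (hG : ContDiff ℝ 2 G) (i : Fin d) (t : ℝ) :
    pd i (pd i (fun y => G (t, y))) = fun x => Dx i (Dx i G) (t, x) := by
  rw [pd_slice (hG.of_le one_le_two) i t]
  have : ContDiff ℝ 1 (Dx i G) := contDiff_Dx hG (by norm_num) i
  exact pd_slice this i t

lemma lap_slice {G : ℝ × (Fin d → ℝ) → ℝ} (hG : ContDiff ℝ 2 G) (t : ℝ) :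
    lap (fun y => G (t, y)) = fun x => ∑ i, Dx i (Dx i G) (t, x) := by
  ext x
  unfold lap
  apply Finset.sum_congr rfl
  intro i _
  rw [pd_pd_slice hG i t]

lemma IsPeriodic.pd {i : Fin d} {F : (Fin d → ℝ) → ℝ} (hF : ContDiff ℝ 1 F)
    (hper : IsPeriodic F) : IsPeriodic (pd i F) := by
  intro k x
  unfold Parab.pd
  set c : Fin d → ℝ := fun j => (k j : ℝ) with hc
  have e1 : (fun j => x j + k j) = x + c := by ext j; simp [hc]
  have e2 : (fun y => F (y + c)) = F := by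
    ext y; have := hper k y; rw [← this]; congr 1
  rw [e1]
  have h6 : HasFDerivAt (fun y : Fin d → ℝ => y + c) (ContinuousLinearMap.id ℝ _) x :=
    (hasFDerivAt_id x).add_const _
  have h7 := HasFDerivAt.comp (g := F) x
    ((hF.differentiable one_ne_zero (x + c)).hasFDerivAt) h6
  rw [ContinuousLinearMap.comp_id] at h7
  have h8 : HasFDerivAt F (fderiv ℝ F (x + c)) x := by
    have : (F ∘ fun y => y + c) = F := e2
    rw [this] at h7; exact h7
  rw [h8.fderiv]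

end Pool.Agent.Lib_helper9.Parab
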