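import Pool.Agent.Lib_helper9.Parab.Stage

/-!
# The active part of one cycle
-/

open MeasureTheory Set
open scoped ContDiff

namespace Pool.Agent.Lib_helper9.Parab

variable {d : ℕ} {T : ℝ} {b : ℝ → (Fin d → ℝ) → (Fin d → ℝ)} {β : ℝ → ℝ}
  {φ : ℝ → (Fin d → ℝ) → ℝ}

/-- direction of stage `k` -/
def ca {d : ℕ} : Fin d → Fin d → ℕ → Fin d
  | a, _, 0 => a
  | a, a', k + 1 => ca a' a k

lemma ca_ne {a a' : Fin d} (h : a ≠ a') : ∀ k, ca a a' k ≠ ca a' a k
  | 0 => h
  | k + 1 => ca_ne h.symm k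

/-- difference of a function along a direction -/
lemma sub_le_of_pd {f : (Fin d → ℝ) → ℝ} (hf : ContDiff ℝ 1 f) {a : Fin d} {C : ℝ}
    (hC : ∀ x, |pd a f x| ≤ C) (x : Fin d → ℝ) (h : ℝ) :
    |f (x + h • Pi.single a 1) - f x| ≤ C * |h| := by
  have hd : ∀ z ∈ (Set.univ : Set ℝ), HasDerivWithinAt
      (fun s => f (x + s • (Pi.single a 1 : Fin d → ℝ))) (pd a f (x + z • Pi.single a 1))
      Set.univ z := by
    intro z _
    have e2 : HasDerivAt (fun s : ℝ => x + s • (Pi.single a 1 : Fin d → ℝ))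
        (Pi.single a 1) z := by
      have := ((hasDerivAt_id z).smul_const (Pi.single a 1 : Fin d → ℝ)).const_add x
      simpa using this
    exact ((hf.differentiable one_ne_zero _).hasFDerivAt.comp_hasDerivAt z e2).hasDerivWithinAt
  have := Convex.norm_image_sub_le_of_norm_hasDerivWithin_le hd (fun z _ => hC _)
    convex_univ (mem_univ 0) (mem_univ h)
  simpa [Real.norm_eq_abs] using this

/-- a function with small local averages is almost orthogonal to regular functions -/
lemma abs_integral_mul_lift_le {f : (Fin d → ℝ) → ℝ} (hf : ContDiff ℝ 1 f)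
    (pf : IsPeriodic f) {a a' : Fin d} (haa : a ≠ a') {F : ℝ × ℝ → ℝ} {D E M ε C : ℝ}
    (hF : Bd F D E) (hA : Av F M ε) (hM : 0 < M) (hC : ∀ x, |pd a f x| ≤ C) :
    |∫ x in cell d, f x * lift a a' F x| ≤ ε * (∫ x in cell d, |f x|) + C / M := by
  have hC0 : 0 ≤ C := (abs_nonneg _).trans (hC 0)
  have cF : Continuous F := hF.smooth.continuous
  have cG : ContDiff ℝ 1 (lift a a' F) := (contDiff_lift hF.smooth a a').of_le one_le_two
  have pG : IsPeriodic (lift a a' F) := isPeriodic_lift hF.per1 hF.per2 a a'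
  have hH : ContDiff ℝ 1 (fun x => f x * lift a a' F x) := hf.mul cG
  have pH : IsPeriodic (fun x => f x * lift a a' F x) := pf.mul pG
  have hlift : ∀ (x : Fin d → ℝ) (h : ℝ), lift a a' F (x + h • Pi.single a 1) =
      F (x a + h, x a') := by
    intro x h
    unfold lift
    congr 1
    ext
    · simp
    · simp [haa.symm]
  -- the averaged quantity
  have key : ∀ r : ℝ, |(∫ x in cell d, f x * lift a a' F x) -
      ∫ x in cell d, f x * F (x a + r / M, x a')| ≤ C * |r| / M := by
    intro r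
    rw [← integral_translate a hH pH (r / M)]
    have c1 : Continuous (fun x : Fin d → ℝ => f (x + (r / M) • Pi.single a 1) *
        F (x a + r / M, x a')) := by
      refine (hf.continuous.comp (by fun_prop)).mul (cF.comp (by fun_prop))
    have c2 : Continuous (fun x : Fin d → ℝ => f x * F (x a + r / M, x a')) :=
      hf.continuous.mul (cF.comp (by fun_prop))
    have e : ∀ x : Fin d → ℝ, f (x + (r / M) • Pi.single a 1) *
        lift a a' F (x + (r / M) • Pi.single a 1) =
        f (x + (r / M) • Pi.single a 1) * F (x a + r / M, x a') := by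
      intro x; rw [hlift]
    simp only [e]
    rw [← integral_sub (integrableOn_cell c1) (integrableOn_cell c2)]
    have hb : ∀ x ∈ cell d, ‖f (x + (r / M) • Pi.single a 1) * F (x a + r / M, x a') -
        f x * F (x a + r / M, x a')‖ ≤ C * |r| / M := by
      intro x _
      rw [← sub_mul, norm_mul, Real.norm_eq_abs, Real.norm_eq_abs]
      calc _ ≤ (C * |r / M|) * 1 :=
            mul_le_mul (sub_le_of_pd hf hC x _) (hF.le_one _) (abs_nonneg _) (by positivity)
        _ = C * |r| / M := by rw [mul_one, abs_div, abs_of_pos hM, mul_div_assoc]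
    have := norm_setIntegral_le_of_norm_le_const (μ := volume) (s := cell d)
      (by rw [volume_cell]; exact ENNReal.one_lt_top) hb
    rw [Measure.real, volume_cell, ENNReal.toReal_one, mul_one] at this
    exact this
  -- integrate in `r`
  set I := ∫ x in cell d, f x * lift a a' F x with hI
  have cJ : Continuous (fun z : ℝ × (Fin d → ℝ) => f z.2 * F (z.2 a + z.1 / M, z.2 a')) :=
    (hf.continuous.comp continuous_snd).mul (cF.comp (by fun_prop))
  have hfub : ∫ r in (0 : ℝ)..1, ∫ x in cell d, f x * F (x a + r / M, x a') =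
      ∫ x in cell d, f x * ∫ r in (0 : ℝ)..1, F (x a + r / M, x a') := by
    rw [intervalIntegral.integral_of_le zero_le_one]
    rw [integral_integral_swap]
    · congr 1
      ext x
      rw [integral_const_mul, intervalIntegral.integral_of_le zero_le_one]
    · have : Integrable (fun z : ℝ × (Fin d → ℝ) => f z.2 * F (z.2 a + z.1 / M, z.2 a'))
          ((volume.restrict (Set.Icc 0 1)).prod (volume.restrict (cell d))) := by
        rw [Measure.prod_restrict]
        exact cJ.continuousOn.integrableOn_compact (isCompact_Icc.prod isCompact_cell)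
      rw [Measure.restrict_congr_set Ioc_ae_eq_Icc]
      exact this
  have cInner : Continuous (fun r : ℝ => ∫ x in cell d, f x * F (x a + r / M, x a')) := by
    apply continuous_parametric_integral_of_continuous (s := cell d) _ isCompact_cell
    exact cJ
  have h1 : |(∫ r in (0 : ℝ)..1, I) - ∫ r in (0 : ℝ)..1, ∫ x in cell d,
      f x * F (x a + r / M, x a')| ≤ C / M := by
    apply abs_integral_sub_le continuous_const cInner
    intro r hr
    refine (key r).trans ?_
    apply div_le_div_of_nonneg_right _ hM.le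
    rw [abs_of_nonneg hr.1]
    nlinarith [hr.2]
  have h2 : |∫ x in cell d, f x * ∫ r in (0 : ℝ)..1, F (x a + r / M, x a')| ≤
      ε * ∫ x in cell d, |f x| := by
    rw [← integral_const_mul]
    refine abs_integral_le_integral_abs.trans ?_
    apply integral_mono_of_nonneg
    · filter_upwards with x; exact abs_nonneg _
    · exact (integrableOn_cell (continuous_abs.comp hf.continuous)).const_mul _
    · filter_upwards with x
      rw [abs_mul, mul_comm]
      gcongr
      exact hA _ _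
  rw [hfub] at h1
  rw [intervalIntegral.integral_const, sub_zero, one_smul] at h1
  have h3 := abs_sub_abs_le_abs_sub I
    (∫ x in cell d, f x * ∫ r in (0 : ℝ)..1, F (x a + r / M, x a'))
  linarith

/-- The drift in the active part of the cycle with parameters `N`, `L`, starting at time `s`. -/
def IsCycle (b : ℝ → (Fin d → ℝ) → (Fin d → ℝ)) (N L : ℕ) (i₀ i₁ : Fin d) (s : ℝ) : Prop :=
  ∀ k, ∀ t ∈ Set.Ioo (s + rho N L (k + 1)) (s + rho N L k), ∀ x,
    b t x = Pi.single (ca i₀ i₁ k) (SS N L k (x (ca i₁ i₀ k)) / tau N L k)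

lemma rho_antitone {N : ℕ} (hN : 0 < N) (L : ℕ) : Antitone (rho N L) :=
  antitone_nat_of_succ_le fun k => (rho_succ_lt hN L k).le

/-- the quantity propagated along the stages -/
noncomputable def YY (φ : ℝ → (Fin d → ℝ) → ℝ) (N L : ℕ) (i₀ i₁ : Fin d) (s : ℝ) (k : ℕ) : ℝ :=
  ∫ x in cell d, φ (s + rho N L k) x * lift (ca i₀ i₁ k) (ca i₁ i₀ k) (ww N L k) x

lemma YY_step (hb : IsField T b β) (hφ : IsTest d T φ) {N L : ℕ} (hN : 0 < N) {i₀ i₁ : Fin d}
    (hi : i₀ ≠ i₁) {s : ℝ} (hs : 0 ≤ s) (hsT : s + rho N L 0 ≤ T)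
    (hc : IsCycle b N L i₀ i₁ s) {Q : ℝ}
    (hQ : ∀ t ∈ Set.Icc s (s + rho N L 0), ∫ x in cell d, |φ t x| ≤ Q) (k : ℕ) :
    |YY φ N L i₀ i₁ s k - YY φ N L i₀ i₁ s (k + 1)| ≤
      (∫ t in (s + rho N L (k + 1))..(s + rho N L k), mass b φ t) +
        Q * (1 / 2 ^ L / 2 ^ (k + 1)) := by
  have hk1 := rho_pos hN L (k + 1)
  have hk := rho_succ_lt hN L k
  have hk0 : rho N L k ≤ rho N L 0 := rho_antitone hN L (Nat.zero_le k)
  have Q0 : 0 ≤ Q := (integral_nonneg fun _ => abs_nonneg _).trans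
    (hQ s ⟨le_rfl, by linarith [rho_pos hN L 0]⟩)
  have e : s + rho N L k - (s + rho N L (k + 1)) = tau N L k := by unfold tau; ring
  have h := stage_estimate hb hφ (a := ca i₀ i₁ k) (a' := ca i₁ i₀ k) (ca_ne hi k)
    (bd_ww hN L k) (shearBd_SS hN L k) (fun θ h0 h1 => bd_partial hN L k h0 h1)
    (t₀ := s + rho N L (k + 1)) (t₁ := s + rho N L k) (Q := Q) (by linarith) (by linarith)
    (by linarith) (by rw [e]; exact hc k) (by
      intro t ht
      exact hQ t ⟨by linarith [ht.1], by linarith [ht.2]⟩)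
  rw [e] at h
  refine le_trans h ?_
  have h2 := tau_mul_EE_le hN L k
  have h3 := mul_le_mul_of_nonneg_left h2 Q0
  have e2 : 2 * EE N L (k + 1) * Q * tau N L k = Q * (tau N L k * (2 * EE N L (k + 1))) := by ring
  rw [e2]
  linarith

lemma intervalIntegrable_mass (hb : IsField T b β) (hφ : IsTest d T φ) {t₀ t₁ : ℝ}
    (h0 : 0 ≤ t₀) (h0' : t₀ ≤ T) (h1 : 0 ≤ t₁) (h1' : t₁ ≤ T) :
    IntervalIntegrable (mass b φ) volume t₀ t₁ := by
  have hT : 0 ≤ T := h0.trans h0'
  have hmassT : IntervalIntegrable (mass b φ) volume 0 T := by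
    rw [intervalIntegrable_iff_integrableOn_Ioo_of_le hT]
    exact integrableOn_mass hb hφ
  apply hmassT.mono_set
  rw [uIcc_of_le hT]
  intro x hx
  rw [Set.mem_uIcc] at hx
  rcases hx with h | h
  · exact ⟨h0.trans h.1, h.2.trans h1'⟩
  · exact ⟨h1.trans h.1, h.2.trans h0'⟩

lemma YY_chain (hb : IsField T b β) (hφ : IsTest d T φ) {N L : ℕ} (hN : 0 < N) {i₀ i₁ : Fin d}
    (hi : i₀ ≠ i₁) {s : ℝ} (hs : 0 ≤ s) (hsT : s + rho N L 0 ≤ T)
    (hc : IsCycle b N L i₀ i₁ s) {Q : ℝ}
    (hQ : ∀ t ∈ Set.Icc s (s + rho N L 0), ∫ x in cell d, |φ t x| ≤ Q) (n : ℕ) :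
    |YY φ N L i₀ i₁ s 0 - YY φ N L i₀ i₁ s n| ≤
      (∫ t in (s + rho N L n)..(s + rho N L 0), mass b φ t) +
        Q * (1 / 2 ^ L * (1 - 1 / 2 ^ n)) := by
  induction n with
  | zero => simp
  | succ n ih =>
    have h := YY_step hb hφ hN hi hs hsT hc hQ n
    have hn0 : rho N L n ≤ rho N L 0 := rho_antitone hN L (Nat.zero_le n)
    have hn1 : rho N L (n + 1) ≤ rho N L 0 := rho_antitone hN L (Nat.zero_le _)
    have p0 := rho_pos hN L 0
    have p1 := rho_pos hN L n
    have p2 := rho_pos hN L (n + 1)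
    have e : (∫ t in (s + rho N L (n + 1))..(s + rho N L n), mass b φ t) +
        (∫ t in (s + rho N L n)..(s + rho N L 0), mass b φ t) =
        ∫ t in (s + rho N L (n + 1))..(s + rho N L 0), mass b φ t := by
      apply intervalIntegral.integral_add_adjacent_intervals
      · exact intervalIntegrable_mass hb hφ (by linarith) (by linarith) (by linarith) (by linarith)
      · exact intervalIntegrable_mass hb hφ (by linarith) (by linarith) (by linarith) (by linarith)
    have e2 : Q * (1 / 2 ^ L * (1 - 1 / 2 ^ (n + 1))) =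
        Q * (1 / 2 ^ L * (1 - 1 / 2 ^ n)) + Q * (1 / 2 ^ L / 2 ^ (n + 1)) := by
      rw [pow_succ]; field_simp; ring
    have h3 : |YY φ N L i₀ i₁ s 0 - YY φ N L i₀ i₁ s (n + 1)| ≤
        |YY φ N L i₀ i₁ s 0 - YY φ N L i₀ i₁ s n| +
        |YY φ N L i₀ i₁ s n - YY φ N L i₀ i₁ s (n + 1)| := abs_sub_le _ _ _
    rw [e2, ← e]
    linarith

lemma IsTest.exists_bound_pd (hφ : IsTest d T φ) : ∃ C, 0 ≤ C ∧ ∀ t ∈ Set.Icc 0 T,
    ∀ i x, |pd i (φ t) x| ≤ C := by
  obtain ⟨C, hC0, hC⟩ := hφ.bounds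
  refine ⟨C, hC0, fun t ht i x => ?_⟩
  have hp : IsPeriodic (pd i (φ t)) :=
    IsPeriodic.pd ((hφ.slice t).of_le one_le_two) (hφ.periodic t)
  have := hp (fun j => -⌊x j⌋) x
  rw [← this]
  refine (hC t ht _ ?_).2.1 i
  constructor
  · intro j
    simp only [Pi.zero_apply]
    push_cast
    have := Int.floor_le (x j)
    linarith
  · intro j
    simp only [Pi.one_apply]
    push_cast
    have := (Int.lt_floor_add_one (x j)).le
    linarith

lemma two_pow_le_MM {N : ℕ} (hN : 0 < N) (L k : ℕ) : (2 : ℝ) ^ k ≤ MM N L k := by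
  unfold MM MN
  push_cast
  have hN1 : (1 : ℝ) ≤ N := by exact_mod_cast hN
  have h1 : (2 : ℝ) ^ k ≤ 2 ^ (2 * k ^ 2 + L * k) := by
    apply pow_le_pow_right₀ (by norm_num)
    nlinarith [Nat.zero_le (L * k), Nat.le_self_pow (two_ne_zero) k]
  calc (2 : ℝ) ^ k ≤ 1 * 2 ^ (2 * k ^ 2 + L * k) := by rw [one_mul]; exact h1
    _ ≤ _ := by gcongr

/-- The estimate for the active part of a cycle. -/
lemma cycle_estimate (hb : IsField T b β) (hφ : IsTest d T φ) {N L : ℕ} (hN : 0 < N)
    {i₀ i₁ : Fin d} (hi : i₀ ≠ i₁) {s : ℝ} (hs : 0 ≤ s) (hsT : s + rho N L 0 ≤ T)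
    (hc : IsCycle b N L i₀ i₁ s) {Q : ℝ}
    (hQ : ∀ t ∈ Set.Icc s (s + rho N L 0), ∫ x in cell d, |φ t x| ≤ Q) :
    |∫ x in cell d, φ (s + rho N L 0) x * Real.cos (2 * Real.pi * N * x i₀)| ≤
      (∫ t in s..(s + rho N L 0), mass b φ t) + 19 / 2 ^ L * Q := by
  obtain ⟨C, hC0, hC⟩ := hφ.exists_bound_pd
  have e0 : ∫ x in cell d, φ (s + rho N L 0) x * Real.cos (2 * Real.pi * N * x i₀) =
      YY φ N L i₀ i₁ s 0 := rfl
  rw [e0]
  have Q0 : 0 ≤ Q := (integral_nonneg fun _ => abs_nonneg _).trans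
    (hQ s ⟨le_rfl, by linarith [rho_pos hN L 0]⟩)
  have hL : (0 : ℝ) < 1 / 2 ^ L := by positivity
  have hn : ∀ n : ℕ, |YY φ N L i₀ i₁ s 0| ≤
      ((∫ t in s..(s + rho N L 0), mass b φ t) + 19 / 2 ^ L * Q) + C * (1 / 2) ^ n := by
    intro n
    have h1 := YY_chain hb hφ hN hi hs hsT hc hQ n
    have hn0 : rho N L n ≤ rho N L 0 := rho_antitone hN L (Nat.zero_le n)
    have p0 := rho_pos hN L 0
    have p1 := rho_pos hN L n
    have ht : s + rho N L n ∈ Set.Icc 0 T := ⟨by linarith, by linarith⟩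
    have h2 := abs_integral_mul_lift_le ((hφ.slice (s + rho N L n)).of_le one_le_two)
      (hφ.periodic _) (ca_ne hi n) (bd_ww hN L n) (av_ww hN L n) (MM_pos hN L n)
      (fun x => hC _ ht (ca i₀ i₁ n) x)
    have h2' : |YY φ N L i₀ i₁ s n| ≤ 18 / 2 ^ L * Q + C / MM N L n := by
      refine h2.trans ?_
      gcongr
      exact hQ _ ⟨by linarith, by linarith⟩
    have h3 : C / MM N L n ≤ C * (1 / 2) ^ n := by
      rw [div_eq_mul_inv]
      gcongr
      rw [one_div, inv_pow]
      apply inv_anti₀ (by positivity) (two_pow_le_MM hN L n)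
    have h4 : (∫ t in (s + rho N L n)..(s + rho N L 0), mass b φ t) ≤
        ∫ t in s..(s + rho N L 0), mass b φ t := by
      have e : (∫ t in s..(s + rho N L n), mass b φ t) +
          (∫ t in (s + rho N L n)..(s + rho N L 0), mass b φ t) =
          ∫ t in s..(s + rho N L 0), mass b φ t := by
        apply intervalIntegral.integral_add_adjacent_intervals
        · exact intervalIntegrable_mass hb hφ (by linarith) (by linarith) (by linarith)
            (by linarith)
        · exact intervalIntegrable_mass hb hφ (by linarith) (by linarith) (by linarith)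
            (by linarith)
      have : 0 ≤ ∫ t in s..(s + rho N L n), mass b φ t :=
        intervalIntegral.integral_nonneg (by linarith) fun t _ => mass_nonneg t
      linarith
    have h5 : Q * (1 / 2 ^ L * (1 - 1 / 2 ^ n)) ≤ 1 / 2 ^ L * Q := by
      have : (0 : ℝ) < 1 / 2 ^ n := by positivity
      have : 0 ≤ Q * (1 / 2 ^ L) := by positivity
      nlinarith
    have h6 := abs_sub_abs_le_abs_sub (YY φ N L i₀ i₁ s 0) (YY φ N L i₀ i₁ s n)
    have h7 : 19 / 2 ^ L * Q = 18 / 2 ^ L * Q + 1 / 2 ^ L * Q := by ring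
    linarith
  have hlim : Filter.Tendsto (fun n : ℕ => ((∫ t in s..(s + rho N L 0), mass b φ t) +
      19 / 2 ^ L * Q) + C * (1 / 2) ^ n) Filter.atTop
      (nhds (((∫ t in s..(s + rho N L 0), mass b φ t) + 19 / 2 ^ L * Q) + C * 0)) :=
    tendsto_const_nhds.add ((tendsto_pow_atTop_nhds_zero_of_lt_one (by norm_num)
      (by norm_num)).const_mul C)
  have := ge_of_tendsto' hlim hn
  simpa using this

end Pool.Agent.Lib_helper9.Parab
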