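import Mathlib

/-!
# Definitions for the advection-diffusion problem on the torus

Functions on the flat torus `T^d = ℝ^d/ℤ^d` are `ℤ^d`-periodic functions on `ℝ^d`; integrals over
the torus are integrals over the unit cell `[0,1]^d`.
-/

open MeasureTheory Set
open scoped ContDiff

namespace Pool.Agent.Lib_helper9.Parab

/-- The unit cell `[0,1]^d`. -/
abbrev cell (d : ℕ) : Set (Fin d → ℝ) := Set.Icc 0 1

/-- The space-time cell `(0,T) × [0,1]^d`. -/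
abbrev stCell (d : ℕ) (T : ℝ) : Set (ℝ × (Fin d → ℝ)) := Set.Ioo 0 T ×ˢ cell d

/-- `ℤ^d`-periodic functions on `ℝ^d`, that is, functions on the torus `T^d`. -/
def IsPeriodic {d : ℕ} {E : Type*} (f : (Fin d → ℝ) → E) : Prop :=
  ∀ (k : Fin d → ℤ) (x : Fin d → ℝ), f (fun i => x i + k i) = f x

/-- The partial derivative `∂_i f (x)`. -/
noncomputable def pd {d : ℕ} (i : Fin d) (f : (Fin d → ℝ) → ℝ) (x : Fin d → ℝ) : ℝ :=
  fderiv ℝ f x (Pi.single i 1)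

/-- The Laplacian `Δ f (x) = ∑_i ∂_i ∂_i f (x)`. -/
noncomputable def lap {d : ℕ} (f : (Fin d → ℝ) → ℝ) (x : Fin d → ℝ) : ℝ :=
  ∑ i, pd i (pd i f) x

/-- Test functions in `C_c^∞([0,T) × T^d)`: smooth functions on `ℝ × ℝ^d`, periodic in the
space variable and vanishing for all times `t ≥ T'`, for some `T' < T`. -/
structure IsTest (d : ℕ) (T : ℝ) (φ : ℝ → (Fin d → ℝ) → ℝ) : Prop where
  smooth : ContDiff ℝ ∞ (fun z : ℝ × (Fin d → ℝ) => φ z.1 z.2)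
  periodic : ∀ t, IsPeriodic (φ t)
  vanish : ∃ T' < T, ∀ t, T' ≤ t → ∀ x, φ t x = 0

/-- Test functions in `C_c^∞((0,T) × T^d)`. -/
structure IsInteriorTest (d : ℕ) (T : ℝ) (φ : ℝ → (Fin d → ℝ) → ℝ) : Prop extends
    IsTest d T φ where
  vanish_left : ∃ T₀ > 0, ∀ t, t ≤ T₀ → ∀ x, φ t x = 0

/-- `f ∈ L^r([0,T]; L^p(T^d))`. -/
def MemMixed {d : ℕ} {E : Type*} [NormedAddCommGroup E] (r p : ENNReal) (T : ℝ)
    (f : ℝ → (Fin d → ℝ) → E) : Prop :=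
  AEStronglyMeasurable (fun z : ℝ × (Fin d → ℝ) => f z.1 z.2)
    (volume.restrict (stCell d T)) ∧
  eLpNorm (fun t => eLpNorm (f t) p (volume.restrict (cell d))) r
    (volume.restrict (Set.Ioo 0 T)) < ⊤

/-- `div b(t) = 0` in the sense of distributions on `T^d`, for almost every `t ∈ (0,T)`. -/
def IsDivFree {d : ℕ} (T : ℝ) (b : ℝ → (Fin d → ℝ) → (Fin d → ℝ)) : Prop :=
  ∀ᵐ t ∂(volume.restrict (Set.Ioo 0 T)), ∀ ψ : (Fin d → ℝ) → ℝ, ContDiff ℝ ∞ ψ →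
    IsPeriodic ψ → ∫ x in cell d, ∑ i, b t x i * pd i ψ x = 0

/-- `u` is a distributional solution on `[0,T) × T^d` of `∂_t u + div (b u) = Δ u` with datum
`u₀`: the product `b u` is integrable and, for every test function `φ ∈ C_c^∞([0,T) × T^d)`,
`∫∫ u (∂_t φ + b·∇φ + Δφ) dx dt + ∫ u₀ φ(0,·) dx = 0`. -/
def IsDistributionalSolution {d : ℕ} (T : ℝ) (b : ℝ → (Fin d → ℝ) → (Fin d → ℝ))
    (u₀ : (Fin d → ℝ) → ℝ) (u : ℝ → (Fin d → ℝ) → ℝ) : Prop :=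
  Integrable (fun z : ℝ × (Fin d → ℝ) => u z.1 z.2 • b z.1 z.2)
    (volume.restrict (stCell d T)) ∧
  ∀ φ : ℝ → (Fin d → ℝ) → ℝ, IsTest d T φ →
    (∫ t in Set.Ioo 0 T, ∫ x in cell d,
      u t x * (deriv (fun s => φ s x) t + ∑ i, b t x i * pd i (φ t) x + lap (φ t) x)) +
      ∫ x in cell d, u₀ x * φ 0 x = 0

/-- `u ∈ L²([0,T]; H¹(T^d))`, for a function `u ∈ L²((0,T) × T^d)`: the distributional space
gradient of `u` is a square-integrable function `g` on `(0,T) × T^d`. -/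
def IsParabolic {d : ℕ} (T : ℝ) (u : ℝ → (Fin d → ℝ) → ℝ) : Prop :=
  ∃ g : ℝ → (Fin d → ℝ) → (Fin d → ℝ),
    MemLp (fun z : ℝ × (Fin d → ℝ) => g z.1 z.2) 2 (volume.restrict (stCell d T)) ∧
    ∀ φ : ℝ → (Fin d → ℝ) → ℝ, IsInteriorTest d T φ → ∀ i : Fin d,
      ∫ t in Set.Ioo 0 T, ∫ x in cell d, u t x * pd i (φ t) x =
        - ∫ t in Set.Ioo 0 T, ∫ x in cell d, g t x i * φ t x

end Pool.Agent.Lib_helper9.Parab
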