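import Pool.Agent.Lib_helper9.Parab.Times

/-!
# The drift
-/

open MeasureTheory Set
open scoped ContDiff ENNReal

namespace Pool.Agent.Lib_helper9.Parab

variable {d : ℕ}

/-- measurability of functions defined piecewise -/
lemma measurable_piecewise_countable {α E ι : Type*} [MeasurableSpace α] [MeasurableSpace E]
    [Zero E] [Countable ι] (A : ι → Set α) (hA : ∀ i, MeasurableSet (A i)) (f : ι → α → E)
    (hf : ∀ i, Measurable (f i)) (g : α → E) (h1 : ∀ i, ∀ x ∈ A i, g x = f i x)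
    (h0 : ∀ x, (∀ i, x ∉ A i) → g x = 0) : Measurable g := by
  intro S hS
  have e : g ⁻¹' S = (⋃ i, A i ∩ (f i) ⁻¹' S) ∪
      ((⋂ i, (A i)ᶜ) ∩ {_x | (0 : E) ∈ S}) := by
    ext x
    simp only [mem_preimage, mem_union, mem_iUnion, mem_inter_iff, mem_iInter, mem_compl_iff,
      mem_ofPred_eq]
    constructor
    · intro hx
      by_cases h : ∃ i, x ∈ A i
      · obtain ⟨i, hi⟩ := h
        left
        exact ⟨i, hi, by rw [← h1 i x hi]; exact hx⟩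
      · push Not at h
        right
        refine ⟨h, ?_⟩
        rw [h0 x h] at hx
        exact hx
    · rintro (⟨i, hi, hx⟩ | ⟨h, hx⟩)
      · rw [h1 i x hi]; exact hx
      · rw [h0 x h]; exact hx
  rw [e]
  exact (MeasurableSet.iUnion fun i => (hA i).inter (hf i hS)).union
    ((MeasurableSet.iInter fun i => (hA i).compl).inter (MeasurableSet.const _))

/-- the vector field of a stage -/
noncomputable def fld (n₀ : ℕ) (i₀ i₁ : Fin d) (p : ℕ × ℕ) (x : Fin d → ℝ) : Fin d → ℝ :=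
  Pi.single (ca i₀ i₁ p.2) (SS (NN n₀ p.1) (LL p.1) p.2 (x (ca i₁ i₀ p.2)) /
    tau (NN n₀ p.1) (LL p.1) p.2)

open Classical in
/-- the drift -/
noncomputable def drift (T : ℝ) (n₀ : ℕ) (i₀ i₁ : Fin d) (t : ℝ) (x : Fin d → ℝ) : Fin d → ℝ :=
  if h : ∃ p, t ∈ slot T n₀ p then fld n₀ i₀ i₁ h.choose x else 0

/-- the bound of the drift on a stage -/
noncomputable def BB (n₀ : ℕ) (p : ℕ × ℕ) : ℝ :=
  1 / (MM (NN n₀ p.1) (LL p.1) p.2 * tau (NN n₀ p.1) (LL p.1) p.2)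

open Classical in
/-- the bound of the drift -/
noncomputable def dbound (T : ℝ) (n₀ : ℕ) (t : ℝ) : ℝ :=
  if h : ∃ p, t ∈ slot T n₀ p then BB n₀ h.choose else 0

lemma BB_pos (n₀ : ℕ) (p : ℕ × ℕ) : 0 < BB n₀ p := by
  unfold BB
  have h1 := MM_pos (NN_pos n₀ p.1) (LL p.1) p.2
  have h2 := tau_pos (NN_pos n₀ p.1) (LL p.1) p.2
  positivity

lemma drift_eq {T : ℝ} {n₀ : ℕ} (hn : 4 ≤ T * 2 ^ n₀) (i₀ i₁ : Fin d) {p : ℕ × ℕ} {t : ℝ}
    (ht : t ∈ slot T n₀ p) (x : Fin d → ℝ) : drift T n₀ i₀ i₁ t x = fld n₀ i₀ i₁ p x := by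
  have h : ∃ p, t ∈ slot T n₀ p := ⟨p, ht⟩
  unfold drift
  rw [dif_pos h, slot_unique hn h.choose_spec ht]

lemma drift_eq_zero {T : ℝ} {n₀ : ℕ} (i₀ i₁ : Fin d) {t : ℝ}
    (ht : ∀ p, t ∉ slot T n₀ p) (x : Fin d → ℝ) : drift T n₀ i₀ i₁ t x = 0 := by
  unfold drift
  rw [dif_neg (by push Not; exact ht)]

lemma dbound_eq {T : ℝ} {n₀ : ℕ} (hn : 4 ≤ T * 2 ^ n₀) {p : ℕ × ℕ} {t : ℝ}
    (ht : t ∈ slot T n₀ p) : dbound T n₀ t = BB n₀ p := by
  have h : ∃ p, t ∈ slot T n₀ p := ⟨p, ht⟩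
  unfold dbound
  rw [dif_pos h, slot_unique hn h.choose_spec ht]

lemma dbound_eq_zero {T : ℝ} {n₀ : ℕ} {t : ℝ}
    (ht : ∀ p, t ∉ slot T n₀ p) : dbound T n₀ t = 0 := by
  unfold dbound
  rw [dif_neg (by push Not; exact ht)]

lemma dbound_nonneg (T : ℝ) (n₀ : ℕ) (t : ℝ) : 0 ≤ dbound T n₀ t := by
  unfold dbound
  split_ifs with h
  · exact (BB_pos _ _).le
  · exact le_rfl

lemma abs_SS_le {N : ℕ} (hN : 0 < N) (L k : ℕ) (r : ℝ) : |SS N L k r| ≤ 1 / MM N L k := by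
  have hM := MM_pos hN L k
  have hδ : 0 < 1 / KK L k := by have := KK_pos L k; positivity
  have h1 := prof_nonneg hδ (MM N L (k + 1) * r)
  have h2 := prof_le_one hδ (MM N L (k + 1) * r)
  unfold SS disp
  rw [abs_div, abs_of_pos hM]
  apply div_le_div_of_nonneg_right _ hM.le
  rw [abs_le]
  exact ⟨by linarith, h2⟩

lemma fld_bound (n₀ : ℕ) (i₀ i₁ : Fin d) (p : ℕ × ℕ) (x : Fin d → ℝ) (i : Fin d) :
    |fld n₀ i₀ i₁ p x i| ≤ BB n₀ p := by
  have h2 := tau_pos (NN_pos n₀ p.1) (LL p.1) p.2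
  unfold fld
  by_cases hi : i = ca i₀ i₁ p.2
  · subst hi
    rw [Pi.single_eq_same, abs_div, abs_of_pos h2]
    unfold BB
    rw [← div_div]
    apply div_le_div_of_nonneg_right _ h2.le
    exact abs_SS_le (NN_pos n₀ p.1) _ _ _
  · rw [Pi.single_eq_of_ne hi, abs_zero]
    exact (BB_pos n₀ p).le

lemma SS_continuous (N L k : ℕ) : Continuous (SS N L k) := disp_continuous _ _ _

lemma fld_continuous (n₀ : ℕ) (i₀ i₁ : Fin d) (p : ℕ × ℕ) :
    Continuous (fld n₀ i₀ i₁ p) := by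
  unfold fld
  refine continuous_pi fun i => ?_
  by_cases hi : i = ca i₀ i₁ p.2
  · subst hi
    simp only [Pi.single_eq_same]
    exact ((SS_continuous _ _ _).comp (continuous_apply _)).div_const _
  · simp only [Pi.single_eq_of_ne hi]
    exact continuous_const

lemma fld_periodic (n₀ : ℕ) (i₀ i₁ : Fin d) (p : ℕ × ℕ) : IsPeriodic (fld n₀ i₀ i₁ p) := by
  intro k x
  unfold fld
  have h := isPeriodic_coord (d := d) (shearBd_SS (NN_pos n₀ p.1) (LL p.1) p.2).per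
    (ca i₁ i₀ p.2) k x
  simp only at h ⊢
  rw [h]

lemma drift_periodic {T : ℝ} (n₀ : ℕ) (i₀ i₁ : Fin d) (t : ℝ) :
    IsPeriodic (drift T n₀ i₀ i₁ t) := by
  intro k x
  unfold drift
  split_ifs with h
  · exact fld_periodic n₀ i₀ i₁ _ k x
  · rfl

lemma measurableSet_slot (T : ℝ) (n₀ : ℕ) (p : ℕ × ℕ) : MeasurableSet (slot T n₀ p) :=
  measurableSet_Ioo

lemma measurable_drift {T : ℝ} {n₀ : ℕ} (hn : 4 ≤ T * 2 ^ n₀) (i₀ i₁ : Fin d) :
    Measurable (fun z : ℝ × (Fin d → ℝ) => drift T n₀ i₀ i₁ z.1 z.2) := by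
  refine measurable_piecewise_countable
    (fun p : ℕ × ℕ => (Prod.fst ⁻¹' slot T n₀ p : Set (ℝ × (Fin d → ℝ))))
    (fun p => measurable_fst (measurableSet_slot T n₀ p))
    (fun p z => fld n₀ i₀ i₁ p z.2)
    (fun p => (fld_continuous n₀ i₀ i₁ p).measurable.comp measurable_snd) _ ?_ ?_
  · intro p z hz
    exact drift_eq hn i₀ i₁ hz z.2
  · intro z hz
    exact drift_eq_zero i₀ i₁ hz z.2

lemma measurable_dbound {T : ℝ} {n₀ : ℕ} (hn : 4 ≤ T * 2 ^ n₀) : Measurable (dbound T n₀) := by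
  refine measurable_piecewise_countable (fun p : ℕ × ℕ => slot T n₀ p)
    (fun p => measurableSet_slot T n₀ p)
    (fun p _ => BB n₀ p) (fun p => measurable_const) _ ?_ ?_
  · intro p t ht
    exact dbound_eq hn ht
  · intro t ht
    exact dbound_eq_zero ht

lemma abs_drift_le {T : ℝ} (n₀ : ℕ) (i₀ i₁ : Fin d) (t : ℝ) (x : Fin d → ℝ)
    (i : Fin d) : |drift T n₀ i₀ i₁ t x i| ≤ dbound T n₀ t := by
  unfold drift dbound
  split_ifs with h
  · exact fld_bound n₀ i₀ i₁ _ x i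
  · simp

lemma fld_divfree (n₀ : ℕ) {i₀ i₁ : Fin d} (hi : i₀ ≠ i₁) (p : ℕ × ℕ) (F : (Fin d → ℝ) → ℝ)
    (hF : ContDiff ℝ 1 F) (pF : IsPeriodic F) :
    ∫ x in cell d, ∑ i, fld n₀ i₀ i₁ p x i * pd i F x = 0 := by
  set a := ca i₀ i₁ p.2 with ha
  set a' := ca i₁ i₀ p.2 with ha'
  have haa : a ≠ a' := ca_ne hi p.2
  set S := SS (NN n₀ p.1) (LL p.1) p.2 with hS
  set τ := tau (NN n₀ p.1) (LL p.1) p.2 with hτ
  have hSb := shearBd_SS (NN_pos n₀ p.1) (LL p.1) p.2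
  rw [← hS] at hSb
  have cS : ContDiff ℝ 1 (fun x : Fin d → ℝ => S (x a') / τ) :=
    ((hSb.smooth.of_le one_le_two).comp (contDiff_apply ℝ ℝ a')).div_const τ
  have pS : IsPeriodic (fun x : Fin d → ℝ => S (x a') / τ) := by
    intro k x
    have h := isPeriodic_coord (d := d) hSb.per a' k x
    simp only at h ⊢
    rw [h]
  have e1 : ∀ x, ∑ i, fld n₀ i₀ i₁ p x i * pd i F x =
      pd a (fun y => S (y a') / τ * F y) x := by
    intro x
    rw [pd_mul a cS hF, Finset.sum_eq_single a]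
    · have : pd a (fun x : Fin d → ℝ => S (x a') / τ) x = 0 := by
        have hd : ∀ r, HasDerivAt (fun r => S r / τ) (deriv S r / τ) r := fun r =>
          ((hSb.smooth.differentiable two_ne_zero r).hasDerivAt).div_const τ
        rw [pd_comp_coord hd a' a x, if_neg haa]
      rw [this, mul_zero, add_zero]
      unfold fld
      rw [← ha, Pi.single_eq_same]
    · intro i _ hia
      unfold fld
      rw [← ha, Pi.single_eq_of_ne hia, zero_mul]
    · intro h; exact absurd (Finset.mem_univ _) h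
  simp only [e1]
  exact integral_pd_eq_zero a (cS.mul hF) (pS.mul pF)

lemma drift_divfree {T : ℝ} (n₀ : ℕ) {i₀ i₁ : Fin d} (hi : i₀ ≠ i₁)
    (t : ℝ) (F : (Fin d → ℝ) → ℝ) (hF : ContDiff ℝ 1 F) (pF : IsPeriodic F) :
    ∫ x in cell d, ∑ i, drift T n₀ i₀ i₁ t x i * pd i F x = 0 := by
  unfold drift
  split_ifs with h
  · exact fld_divfree n₀ hi _ F hF pF
  · simp

lemma drift_isCycle {T : ℝ} {n₀ : ℕ} (hn : 4 ≤ T * 2 ^ n₀) (i₀ i₁ : Fin d) (j : ℕ) :
    IsCycle (drift T n₀ i₀ i₁) (NN n₀ j) (LL j) i₀ i₁ (sT T j) := by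
  intro k t ht x
  exact drift_eq hn i₀ i₁ (p := (j, k)) ht x

end Pool.Agent.Lib_helper9.Parab
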