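import Pool.Agent.Lib_helper9.Parab.Drift

/-!
# Integrability of the drift
-/

open MeasureTheory Set
open scoped ContDiff ENNReal

namespace Pool.Agent.Lib_helper9.Parab

/-- the exponent of the frequency -/
def ee (n₀ j k : ℕ) : ℕ := j ^ 2 + j + n₀ + 2 * k ^ 2 + (10 + j) * k

lemma MM_eq_pow (n₀ j k : ℕ) : MM (NN n₀ j) (LL j) k = 2 ^ (ee n₀ j k) := by
  unfold MM MN
  push_cast
  rw [NN_cast, ← pow_add]
  congr 1
  unfold ee LL
  ring

lemma rho_eq_pow (n₀ j k : ℕ) : rho (NN n₀ j) (LL j) k =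
    1 / 2 ^ ((64 + 15 * k + 4 * j) + 2 * ee n₀ j k) := by
  unfold rho
  rw [MM_eq_pow, ← pow_mul, ← pow_add]
  congr 2
  unfold ee LL
  ring

lemma BB_le (n₀ : ℕ) (p : ℕ × ℕ) :
    BB n₀ p ≤ 2 ^ ((64 + 15 * p.2 + 4 * p.1) + 1 + ee n₀ p.1 p.2) := by
  unfold BB
  have hM := MM_pos (NN_pos n₀ p.1) (LL p.1) p.2
  have hρ := rho_pos (NN_pos n₀ p.1) (LL p.1) p.2
  have h1 := half_rho_le_tau (NN_pos n₀ p.1) (LL p.1) p.2
  have hτ := tau_pos (NN_pos n₀ p.1) (LL p.1) p.2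
  calc 1 / (MM (NN n₀ p.1) (LL p.1) p.2 * tau (NN n₀ p.1) (LL p.1) p.2) ≤
      1 / (MM (NN n₀ p.1) (LL p.1) p.2 * (rho (NN n₀ p.1) (LL p.1) p.2 / 2)) := by
        apply one_div_le_one_div_of_le (by positivity)
        gcongr
    _ = 2 ^ ((64 + 15 * p.2 + 4 * p.1) + 1 + ee n₀ p.1 p.2) := by
        rw [MM_eq_pow, rho_eq_pow]
        rw [pow_add _ _ (2 * ee n₀ p.1 p.2), pow_add _ _ (ee n₀ p.1 p.2), pow_add _ _ 1,
          two_mul (ee n₀ p.1 p.2), pow_add _ (ee n₀ p.1 p.2)]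
        field_simp

lemma tau_le (n₀ : ℕ) (p : ℕ × ℕ) : tau (NN n₀ p.1) (LL p.1) p.2 ≤
    1 / 2 ^ ((64 + 15 * p.2 + 4 * p.1) + 2 * ee n₀ p.1 p.2) := by
  rw [← rho_eq_pow]
  exact tau_le_rho (NN_pos n₀ p.1) (LL p.1) p.2

/-- the constant in the integrability estimate -/
noncomputable def Cr (r : ℝ) : ℝ := 2 ^ (66 + 128 / (2 - r))

lemma BB_rpow_mul_tau_le (n₀ : ℕ) {r : ℝ} (hr1 : 1 ≤ r) (hr2 : r < 2) (p : ℕ × ℕ) :
    BB n₀ p ^ r * tau (NN n₀ p.1) (LL p.1) p.2 ≤ Cr r * ((1 / 2) ^ p.1 * (1 / 2) ^ p.2) := by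
  obtain ⟨j, k⟩ := p
  set m : ℕ := 64 + 15 * k + 4 * j with hm
  set e : ℕ := ee n₀ j k with he
  have h1 : BB n₀ (j, k) ≤ 2 ^ (m + 1 + e) := BB_le n₀ (j, k)
  have h2 : tau (NN n₀ j) (LL j) k ≤ 1 / 2 ^ (m + 2 * e) := tau_le n₀ (j, k)
  have hτ := tau_pos (NN_pos n₀ j) (LL j) k
  have hB := BB_pos n₀ (j, k)
  have h3 : BB n₀ (j, k) ^ r ≤ (2 : ℝ) ^ (r * ((m : ℝ) + 1 + e)) := by
    calc BB n₀ (j, k) ^ r ≤ ((2 : ℝ) ^ (m + 1 + e)) ^ r :=
          Real.rpow_le_rpow hB.le h1 (by linarith)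
      _ = (2 : ℝ) ^ (r * ((m : ℝ) + 1 + e)) := by
          rw [← Real.rpow_natCast, ← Real.rpow_mul (by norm_num)]
          congr 1
          push_cast; ring
  have h4 : (1 : ℝ) / 2 ^ (m + 2 * e) = (2 : ℝ) ^ (-((m : ℝ) + 2 * e)) := by
    rw [Real.rpow_neg (by norm_num), one_div]
    congr 1
    rw [← Real.rpow_natCast]
    congr 1
    push_cast; ring
  have h5 : ((1 : ℝ) / 2) ^ j * (1 / 2) ^ k = (2 : ℝ) ^ (-((j : ℝ) + k)) := by
    rw [Real.rpow_neg (by norm_num), ← pow_add, one_div, inv_pow]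
    congr 1
    rw [← Real.rpow_natCast]
    congr 1
    push_cast; ring
  have hee : (j : ℝ) ^ 2 + (k : ℝ) ^ 2 ≤ e := by
    have : j ^ 2 + k ^ 2 ≤ e := by
      rw [he]; unfold ee
      have := Nat.zero_le ((10 + j) * k)
      omega
    exact_mod_cast this
  set δ : ℝ := 2 - r with hδ
  have hδ0 : 0 < δ := by rw [hδ]; linarith
  have hδ1 : δ ≤ 1 := by rw [hδ]; linarith
  have hq : ∀ x : ℝ, 16 * x - δ * x ^ 2 ≤ 64 / δ := by
    intro x
    rw [le_div_iff₀ hδ0]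
    nlinarith [sq_nonneg (δ * x - 8)]
  have hexp : r * ((m : ℝ) + 1 + e) + (-((m : ℝ) + 2 * e)) ≤
      (66 + 128 / δ) + (-((j : ℝ) + k)) := by
    have hr : r = 2 - δ := by rw [hδ]; ring
    have e1 : r * ((m : ℝ) + 1 + e) + (-((m : ℝ) + 2 * e)) =
        (1 - δ) * m + (2 - δ) - δ * e := by rw [hr]; ring
    rw [e1]
    have hmr : (m : ℝ) = 64 + 15 * k + 4 * j := by rw [hm]; push_cast; ring
    have hm0 : (0 : ℝ) ≤ m := Nat.cast_nonneg m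
    have a1 := hq j
    have a2 := hq k
    have a3 : (1 - δ) * (m : ℝ) ≤ m := by nlinarith
    have a4 : δ * ((j : ℝ) ^ 2 + (k : ℝ) ^ 2) ≤ δ * e := by gcongr
    have a5 : 128 / δ = 64 / δ + 64 / δ := by ring
    have hj : (0 : ℝ) ≤ j := Nat.cast_nonneg j
    rw [a5]
    linarith
  calc BB n₀ (j, k) ^ r * tau (NN n₀ j) (LL j) k ≤
      (2 : ℝ) ^ (r * ((m : ℝ) + 1 + e)) * (2 : ℝ) ^ (-((m : ℝ) + 2 * e)) := by
        apply mul_le_mul h3 (h2.trans_eq h4) hτ.le (by positivity)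
    _ = (2 : ℝ) ^ (r * ((m : ℝ) + 1 + e) + (-((m : ℝ) + 2 * e))) :=
        (Real.rpow_add (by norm_num) _ _).symm
    _ ≤ (2 : ℝ) ^ ((66 + 128 / δ) + (-((j : ℝ) + k))) :=
        Real.rpow_le_rpow_of_exponent_le (by norm_num) hexp
    _ = Cr r * ((1 / 2) ^ j * (1 / 2) ^ k) := by
        rw [Real.rpow_add (by norm_num), h5]
        rfl

lemma summable_pow_mul : Summable (fun p : ℕ × ℕ => ((1 : ℝ) / 2) ^ p.1 * (1 / 2) ^ p.2) :=
  summable_geometric_two.mul_of_nonneg summable_geometric_two (fun _ => by positivity)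
    (fun _ => by positivity)

/-- The bound of the drift is in `L^r` for all `r < 2`. -/
lemma lintegral_dbound_lt_top {T : ℝ} {n₀ : ℕ} (hn : 4 ≤ T * 2 ^ n₀) {r : ℝ} (hr1 : 1 ≤ r)
    (hr2 : r < 2) : ∫⁻ t in Set.Ioo 0 T, ENNReal.ofReal (dbound T n₀ t) ^ r < ⊤ := by
  have hr0 : 0 < r := by linarith
  have h1 : ∀ t, ENNReal.ofReal (dbound T n₀ t) ^ r ≤
      ∑' p : ℕ × ℕ, (slot T n₀ p).indicator (fun _ => ENNReal.ofReal (BB n₀ p) ^ r) t := by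
    intro t
    by_cases h : ∃ p, t ∈ slot T n₀ p
    · obtain ⟨p, hp⟩ := h
      rw [dbound_eq hn hp]
      refine le_trans (le_of_eq ?_) (ENNReal.le_tsum p)
      rw [Set.indicator_of_mem hp]
    · push Not at h
      rw [dbound_eq_zero h, ENNReal.ofReal_zero, ENNReal.zero_rpow_of_pos hr0]
      exact bot_le
  have hC : 0 ≤ Cr r := by unfold Cr; positivity
  calc ∫⁻ t in Set.Ioo 0 T, ENNReal.ofReal (dbound T n₀ t) ^ r ≤
      ∫⁻ t, ENNReal.ofReal (dbound T n₀ t) ^ r := setLIntegral_le_lintegral _ _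
    _ ≤ ∫⁻ t, ∑' p : ℕ × ℕ, (slot T n₀ p).indicator (fun _ => ENNReal.ofReal (BB n₀ p) ^ r) t :=
        lintegral_mono h1
    _ = ∑' p : ℕ × ℕ, ∫⁻ t, (slot T n₀ p).indicator (fun _ => ENNReal.ofReal (BB n₀ p) ^ r) t := by
        rw [lintegral_tsum]
        intro p
        exact (measurable_const.indicator (measurableSet_slot T n₀ p)).aemeasurable
    _ = ∑' p : ℕ × ℕ, ENNReal.ofReal (BB n₀ p ^ r * tau (NN n₀ p.1) (LL p.1) p.2) := by
        congr 1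
        ext p
        rw [lintegral_indicator_const (measurableSet_slot T n₀ p), slot_volume,
          ENNReal.ofReal_rpow_of_nonneg (BB_pos n₀ p).le hr0.le,
          ← ENNReal.ofReal_mul (Real.rpow_nonneg (BB_pos n₀ p).le r)]
    _ ≤ ∑' p : ℕ × ℕ, ENNReal.ofReal (Cr r * ((1 / 2) ^ p.1 * (1 / 2) ^ p.2)) := by
        apply ENNReal.tsum_le_tsum
        intro p
        exact ENNReal.ofReal_le_ofReal (BB_rpow_mul_tau_le n₀ hr1 hr2 p)
    _ < ⊤ := by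
        rw [← ENNReal.ofReal_tsum_of_nonneg (fun p => by positivity)
          (summable_pow_mul.mul_left _)]
        exact ENNReal.ofReal_lt_top

lemma integrableOn_dbound {T : ℝ} {n₀ : ℕ} (hn : 4 ≤ T * 2 ^ n₀) :
    IntegrableOn (dbound T n₀) (Set.Ioo 0 T) := by
  refine ⟨(measurable_dbound hn).aestronglyMeasurable, ?_⟩
  have h := lintegral_dbound_lt_top hn le_rfl one_lt_two
  rw [hasFiniteIntegral_iff_ofReal (Filter.Eventually.of_forall fun t => dbound_nonneg T n₀ t)]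
  simpa using h

lemma isField_drift {d : ℕ} {T : ℝ} {n₀ : ℕ} (hn : 4 ≤ T * 2 ^ n₀) {i₀ i₁ : Fin d}
    (hi : i₀ ≠ i₁) : IsField T (drift T n₀ i₀ i₁) (dbound T n₀) :=
  ⟨measurable_drift hn i₀ i₁, fun t x i => abs_drift_le n₀ i₀ i₁ t x i, integrableOn_dbound hn,
    fun t F hF pF => drift_divfree n₀ hi t F hF pF⟩

end Pool.Agent.Lib_helper9.Parab
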