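import Mathlib

/-!
# Duality: linear functionals bounded by the `L¹` norm are given by bounded functions
-/

open MeasureTheory Set
open scoped ENNReal

namespace Pool.Agent.Lib_helper9.Parab

variable {α : Type*} [MeasurableSpace α] {μ : Measure α}

/-- the inclusion `L² → L¹` for a finite measure -/
noncomputable def incl (μ : Measure α) [IsFiniteMeasure μ] : Lp ℝ 2 μ →L[ℝ] Lp ℝ 1 μ :=
  LinearMap.mkContinuous
    { toFun := fun f => ((Lp.memLp f).mono_exponent (p := 1) (by norm_num)).toLp f
      map_add' := fun f g => by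
        rw [← MemLp.toLp_add]
        apply MemLp.toLp_congr
        exact Lp.coeFn_add f g
      map_smul' := fun c f => by
        simp only [RingHom.id_apply]
        rw [← MemLp.toLp_const_smul]
        apply MemLp.toLp_congr
        exact Lp.coeFn_smul c f }
    ((μ Set.univ) ^ ((1 : ℝ) / (1 : ℝ≥0∞).toReal - 1 / (2 : ℝ≥0∞).toReal)).toReal
    (fun f => by
      simp only [LinearMap.coe_mk, AddHom.coe_mk]
      rw [Lp.norm_toLp, Lp.norm_def, ← ENNReal.toReal_mul]
      apply ENNReal.toReal_mono
      · apply ENNReal.mul_ne_top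
        · apply ENNReal.rpow_ne_top_of_nonneg
          · norm_num
          · exact measure_ne_top _ _
        · exact (Lp.memLp f).eLpNorm_ne_top
      · rw [mul_comm]
        exact eLpNorm_le_eLpNorm_mul_rpow_measure_univ (by norm_num) (Lp.memLp f).1)

lemma incl_coeFn [IsFiniteMeasure μ] (f : Lp ℝ 2 μ) : incl μ f =ᵐ[μ] f :=
  MemLp.coeFn_toLp ((Lp.memLp f).mono_exponent (p := 1) (by norm_num))

/-- A bounded linear functional on `L¹` of a finite measure is represented by a bounded
measurable function. -/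
theorem exists_repr [IsFiniteMeasure μ] (Λ : Lp ℝ 1 μ →L[ℝ] ℝ) :
    ∃ u : α → ℝ, Measurable u ∧ (∀ z, |u z| ≤ ‖Λ‖) ∧
      ∀ f : Lp ℝ 1 μ, Λ f = ∫ z, u z * f z ∂μ := by
  classical
  set C := ‖Λ‖ with hC
  set g : Lp ℝ 2 μ := (InnerProductSpace.toDual ℝ (Lp ℝ 2 μ)).symm (Λ.comp (incl μ)) with hg
  have hgΛ : ∀ f : Lp ℝ 2 μ, Λ (incl μ f) = ∫ z, g z * f z ∂μ := by
    intro f
    have h1 : inner ℝ g f = (Λ.comp (incl μ)) f := by
      rw [hg]; exact InnerProductSpace.toDual_symm_apply
    rw [L2.inner_def] at h1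
    simp only [ContinuousLinearMap.comp_apply] at h1
    rw [← h1]
    congr 1
    ext z
    simp [mul_comm]
  have hgint : Integrable g μ := (Lp.memLp g).integrable (by norm_num)
  -- values on indicators
  have hind : ∀ A : Set α, MeasurableSet A → |∫ z in A, g z ∂μ| ≤ C * μ.real A := by
    intro A hA
    set f : Lp ℝ 2 μ := indicatorConstLp 2 hA (measure_ne_top μ A) (1 : ℝ) with hf
    have h1 : Λ (incl μ f) = ∫ z in A, g z ∂μ := by
      rw [hgΛ f, ← integral_indicator hA]
      apply integral_congr_ae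
      filter_upwards [indicatorConstLp_coeFn (p := 2) (hs := hA) (hμs := measure_ne_top μ A)
        (c := (1 : ℝ))] with z hz
      rw [hf, hz]
      by_cases hzA : z ∈ A <;> simp [hzA]
    have h2 : ‖incl μ f‖ = μ.real A := by
      have : incl μ f = indicatorConstLp 1 hA (measure_ne_top μ A) (1 : ℝ) := by
        apply Lp.ext
        refine (incl_coeFn f).trans ?_
        rw [hf]
        exact indicatorConstLp_coeFn.trans indicatorConstLp_coeFn.symm
      rw [this, norm_indicatorConstLp (by norm_num) (by norm_num)]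
      simp
    rw [← h1, ← h2]
    exact Λ.le_opNorm _
  have hle : ∀ᵐ z ∂μ, g z ≤ C := by
    refine ae_le_of_forall_setIntegral_le hgint (integrable_const C) ?_
    intro A hA _
    have := (abs_le.mp (hind A hA)).2
    rw [setIntegral_const, smul_eq_mul, mul_comm]
    exact this
  have hge : ∀ᵐ z ∂μ, -C ≤ g z := by
    refine ae_le_of_forall_setIntegral_le (integrable_const (-C)) hgint ?_
    intro A hA _
    have := (abs_le.mp (hind A hA)).1
    rw [setIntegral_const, smul_eq_mul]
    linarith
  have hC0 : 0 ≤ C := norm_nonneg _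
  set g' : α → ℝ := (Lp.aestronglyMeasurable g).mk g with hg'
  have hg'm : Measurable g' := (Lp.aestronglyMeasurable g).stronglyMeasurable_mk.measurable
  have hgg' : g =ᵐ[μ] g' := (Lp.aestronglyMeasurable g).ae_eq_mk
  set u : α → ℝ := fun z => max (-C) (min C (g' z)) with hu
  have hum : Measurable u := measurable_const.max (measurable_const.min hg'm)
  have hub : ∀ z, |u z| ≤ C := by
    intro z
    rw [abs_le]
    constructor
    · exact le_max_left _ _
    · exact max_le (by linarith) (min_le_left _ _)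
  have hug : u =ᵐ[μ] g := by
    filter_upwards [hle, hge, hgg'] with z h1 h2 h3
    simp only [hu, ← h3]
    rw [min_eq_right h1, max_eq_right h2]
  refine ⟨u, hum, hub, ?_⟩
  -- the functional given by `u`
  have hui : ∀ f : Lp ℝ 1 μ, Integrable (fun z => u z * f z) μ := by
    intro f
    have hf : Integrable f μ := L1.integrable_coeFn f
    refine hf.bdd_mul (c := C) hum.aestronglyMeasurable ?_
    filter_upwards with z
    exact hub z
  let Λ' : Lp ℝ 1 μ →L[ℝ] ℝ := LinearMap.mkContinuous
    { toFun := fun f => ∫ z, u z * f z ∂μ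
      map_add' := fun f h => by
        rw [← integral_add (hui f) (hui h)]
        apply integral_congr_ae
        filter_upwards [Lp.coeFn_add f h] with z hz
        rw [hz]; simp [mul_add]
      map_smul' := fun c f => by
        simp only [RingHom.id_apply, smul_eq_mul]
        rw [← integral_const_mul]
        apply integral_congr_ae
        filter_upwards [Lp.coeFn_smul c f] with z hz
        rw [hz]; simp; ring }
    C
    (fun f => by
      simp only [LinearMap.coe_mk, AddHom.coe_mk]
      rw [L1.norm_eq_integral_norm, ← integral_const_mul]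
      refine (norm_integral_le_integral_norm _).trans ?_
      apply integral_mono (hui f).norm ((L1.integrable_coeFn f).norm.const_mul C)
      intro z
      simp only [norm_mul]
      gcongr
      exact hub z)
  have hΛ'def : ∀ f, Λ' f = ∫ z, u z * f z ∂μ := fun f => rfl
  intro f
  rw [← hΛ'def]
  refine Lp.induction (by norm_num) (fun f => Λ f = Λ' f) ?_ ?_ ?_ f
  · intro c A hA hμA
    set f2 : Lp ℝ 2 μ := indicatorConstLp 2 hA hμA.ne c with hf2
    have e : ((Lp.simpleFunc.indicatorConst 1 hA hμA.ne c : Lp.simpleFunc ℝ 1 μ) : Lp ℝ 1 μ) =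
        incl μ f2 := by
      rw [Lp.simpleFunc.coe_indicatorConst]
      apply Lp.ext
      refine Filter.EventuallyEq.trans ?_ (incl_coeFn f2).symm
      rw [hf2]
      exact indicatorConstLp_coeFn.trans indicatorConstLp_coeFn.symm
    rw [e, hgΛ, hΛ'def]
    apply integral_congr_ae
    filter_upwards [hug, incl_coeFn f2] with z h1 h2
    rw [h1, h2]
  · intro f h hf hh _ h1 h2
    rw [map_add, map_add, h1, h2]
  · exact isClosed_eq Λ.continuous Λ'.continuous

/-- Combined Hahn-Banach and Riesz statement: if `ℓ` is a linear functional on `W` and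
`|ℓ w| ≤ C ∫ |Θ w|`, then there is a bounded function `u` with `∫ u Θ w = ℓ w`. -/
theorem exists_bounded_solution [IsFiniteMeasure μ] {W : Type*} [AddCommGroup W] [Module ℝ W]
    (Θ : W →ₗ[ℝ] (α → ℝ)) (hΘ : ∀ w, Integrable (Θ w) μ) (ℓ : W →ₗ[ℝ] ℝ) (C : ℝ) (hC : 0 ≤ C)
    (h : ∀ w, |ℓ w| ≤ C * ∫ z, |Θ w z| ∂μ) :
    ∃ u : α → ℝ, Measurable u ∧ (∀ z, |u z| ≤ C) ∧ ∀ w, ∫ z, u z * Θ w z ∂μ = ℓ w := by
  let Θ' : W →ₗ[ℝ] Lp ℝ 1 μ :=
    { toFun := fun w => (hΘ w).toL1
      map_add' := fun v w => by
        rw [← Integrable.toL1_add]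
        apply (Integrable.toL1_eq_toL1_iff _ _ _ _).2
        rw [map_add]
      map_smul' := fun c v => by
        simp only [RingHom.id_apply]
        rw [← Integrable.toL1_smul]
        apply (Integrable.toL1_eq_toL1_iff _ _ _ _).2
        rw [map_smul]
        exact Filter.EventuallyEq.rfl }
  have hΘ'norm : ∀ w, ‖Θ' w‖ = ∫ z, |Θ w z| ∂μ := by
    intro w
    show ‖(hΘ w).toL1‖ = _
    rw [L1.norm_eq_integral_norm]
    apply integral_congr_ae
    filter_upwards [(hΘ w).coeFn_toL1] with z hz
    rw [hz]; rfl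
  have hker : LinearMap.ker Θ' ≤ LinearMap.ker ℓ := by
    intro w hw
    rw [LinearMap.mem_ker] at hw ⊢
    have h1 := h w
    rw [← hΘ'norm, hw, norm_zero, mul_zero] at h1
    exact abs_nonpos_iff.mp h1
  -- the functional on the range
  let f0 : LinearMap.range Θ' →ₗ[ℝ] ℝ :=
    ((LinearMap.ker Θ').liftQ ℓ hker).comp (Θ'.quotKerEquivRange.symm : _ →ₗ[ℝ] _)
  have hf0 : ∀ w, f0 ⟨Θ' w, LinearMap.mem_range_self Θ' w⟩ = ℓ w := by
    intro w
    simp only [f0, LinearMap.comp_apply, LinearEquiv.coe_coe]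
    have : Θ'.quotKerEquivRange.symm ⟨Θ' w, LinearMap.mem_range_self Θ' w⟩ =
        (LinearMap.ker Θ').mkQ w := by
      rw [LinearEquiv.symm_apply_eq]
      rfl
    rw [this]
    simp
  let f : StrongDual ℝ (LinearMap.range Θ') := f0.mkContinuous C (by
    rintro ⟨_, w, rfl⟩
    rw [hf0 w]
    have := h w
    rw [← hΘ'norm] at this
    exact this)
  have hfn : ‖f‖ ≤ C := LinearMap.mkContinuous_norm_le _ hC _
  obtain ⟨Λ, hΛ, hΛn⟩ := exists_extension_norm_eq (LinearMap.range Θ') f
  obtain ⟨u, hum, hub, hu⟩ := exists_repr Λ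
  refine ⟨u, hum, fun z => (hub z).trans (hΛn ▸ hfn), ?_⟩
  intro w
  have h1 := hΛ ⟨Θ' w, LinearMap.mem_range_self Θ' w⟩
  have h2 : f ⟨Θ' w, LinearMap.mem_range_self Θ' w⟩ = ℓ w := hf0 w
  rw [← h2, ← h1, hu]
  apply integral_congr_ae
  filter_upwards [(hΘ w).coeFn_toL1] with z hz
  have : (Θ' w : α → ℝ) z = Θ w z := hz
  simp only [this]

end Pool.Agent.Lib_helper9.Parab
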