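import Pool.Agent.Lib_helper9.Parab.Basic

/-!
# Integrability of `L^*φ`, the pairing identity
-/

open MeasureTheory Set
open scoped ContDiff

namespace Pool.Agent.Lib_helper9.Parab

variable {d : ℕ} {T : ℝ} {b : ℝ → (Fin d → ℝ) → (Fin d → ℝ)} {β : ℝ → ℝ}
  {φ : ℝ → (Fin d → ℝ) → ℝ}

lemma IsTest.smooth2 (hφ : IsTest d T φ) :
    ContDiff ℝ 2 (fun z : ℝ × (Fin d → ℝ) => φ z.1 z.2) :=
  hφ.smooth.of_le (show ((2 : ℕ∞) : ℕ∞ω) ≤ ∞ from WithTop.coe_le_coe.2 le_top)

lemma IsTest.smooth1 (hφ : IsTest d T φ) :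
    ContDiff ℝ 1 (fun z : ℝ × (Fin d → ℝ) => φ z.1 z.2) := hφ.smooth.of_le (by simp)

lemma IsTest.slice (hφ : IsTest d T φ) (t : ℝ) : ContDiff ℝ 2 (φ t) :=
  contDiff_slice hφ.smooth2 t

lemma IsTest.deriv_eq (hφ : IsTest d T φ) (t : ℝ) (x : Fin d → ℝ) :
    deriv (fun s => φ s x) t = Dt (fun z : ℝ × (Fin d → ℝ) => φ z.1 z.2) (t, x) :=
  deriv_eq_fderiv hφ.smooth1 t x

lemma IsTest.pd_eq (hφ : IsTest d T φ) (i : Fin d) (t : ℝ) (x : Fin d → ℝ) :
    pd i (φ t) x = Dx i (fun z : ℝ × (Fin d → ℝ) => φ z.1 z.2) (t, x) :=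
  pd_eq_fderiv hφ.smooth1 i t x

lemma IsTest.lap_eq (hφ : IsTest d T φ) (t : ℝ) (x : Fin d → ℝ) :
    lap (φ t) x =
      ∑ i, Dx i (Dx i (fun z : ℝ × (Fin d → ℝ) => φ z.1 z.2)) (t, x) := by
  have := lap_slice hφ.smooth2 t
  exact congrFun this x

lemma IsTest.cont_deriv (hφ : IsTest d T φ) :
    Continuous (fun z : ℝ × (Fin d → ℝ) => deriv (fun s => φ s z.2) z.1) := by
  have : (fun z : ℝ × (Fin d → ℝ) => deriv (fun s => φ s z.2) z.1) =
      Dt (fun z : ℝ × (Fin d → ℝ) => φ z.1 z.2) := by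
    ext z; exact hφ.deriv_eq z.1 z.2
  rw [this]
  exact (contDiff_Dt (m := 1) hφ.smooth2 (by norm_num)).continuous

lemma IsTest.cont_pd (hφ : IsTest d T φ) (i : Fin d) :
    Continuous (fun z : ℝ × (Fin d → ℝ) => pd i (φ z.1) z.2) := by
  have : (fun z : ℝ × (Fin d → ℝ) => pd i (φ z.1) z.2) =
      Dx i (fun z : ℝ × (Fin d → ℝ) => φ z.1 z.2) := by
    ext z; exact hφ.pd_eq i z.1 z.2
  rw [this]
  exact (contDiff_Dx (m := 1) hφ.smooth2 (by norm_num) i).continuous

lemma IsTest.cont_lap (hφ : IsTest d T φ) :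
    Continuous (fun z : ℝ × (Fin d → ℝ) => lap (φ z.1) z.2) := by
  have : (fun z : ℝ × (Fin d → ℝ) => lap (φ z.1) z.2) =
      fun z => ∑ i, Dx i (Dx i (fun z : ℝ × (Fin d → ℝ) => φ z.1 z.2)) z := by
    ext z; exact hφ.lap_eq z.1 z.2
  rw [this]
  apply continuous_finsetSum
  intro i _
  have h1 : ContDiff ℝ 1 (Dx i (fun z : ℝ × (Fin d → ℝ) => φ z.1 z.2)) :=
    contDiff_Dx hφ.smooth2 (by norm_num) i
  exact (contDiff_Dx (m := 0) h1 (by norm_num) i).continuous

lemma IsTest.bounds (hφ : IsTest d T φ) : ∃ C, 0 ≤ C ∧ ∀ t ∈ Set.Icc 0 T, ∀ x ∈ cell d,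
    |deriv (fun s => φ s x) t| ≤ C ∧ (∀ i, |pd i (φ t) x| ≤ C) ∧ |lap (φ t) x| ≤ C ∧
      |φ t x| ≤ C := by
  have hc : IsCompact ((Set.Icc 0 T) ×ˢ cell d) := isCompact_Icc.prod isCompact_cell
  obtain ⟨C1, h1⟩ := hc.exists_bound_of_continuousOn hφ.cont_deriv.continuousOn
  obtain ⟨C3, h3⟩ := hc.exists_bound_of_continuousOn hφ.cont_lap.continuousOn
  obtain ⟨C4, h4⟩ := hc.exists_bound_of_continuousOn hφ.smooth.continuous.continuousOn
  have h2 : ∀ i : Fin d, ∃ C, ∀ z ∈ (Set.Icc 0 T) ×ˢ cell d, ‖pd i (φ z.1) z.2‖ ≤ C :=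
    fun i => hc.exists_bound_of_continuousOn (hφ.cont_pd i).continuousOn
  choose C2 h2 using h2
  refine ⟨|C1| + |C3| + |C4| + ∑ i, |C2 i|, by positivity, ?_⟩
  intro t ht x hx
  have hz : ((t, x) : ℝ × (Fin d → ℝ)) ∈ (Set.Icc 0 T) ×ˢ cell d := ⟨ht, hx⟩
  have hs : 0 ≤ ∑ i, |C2 i| := by positivity
  have e1 := (h1 _ hz).trans (le_abs_self _)
  have e3 := (h3 _ hz).trans (le_abs_self _)
  have e4 := (h4 _ hz).trans (le_abs_self _)
  simp only [Real.norm_eq_abs] at e1 e3 e4
  refine ⟨?_, ?_, ?_, ?_⟩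
  · have := abs_nonneg C3; have := abs_nonneg C4; linarith
  · intro i
    have e2 := (h2 i _ hz).trans (le_abs_self _)
    simp only [Real.norm_eq_abs] at e2
    have : |C2 i| ≤ ∑ i, |C2 i| :=
      Finset.single_le_sum (f := fun i => |C2 i|) (fun i _ => abs_nonneg _) (Finset.mem_univ i)
    have := abs_nonneg C1; have := abs_nonneg C3; have := abs_nonneg C4; linarith
  · have := abs_nonneg C1; have := abs_nonneg C4; linarith
  · have := abs_nonneg C1; have := abs_nonneg C3; linarith

lemma IsField.measurable_comp (hb : IsField T b β) (i : Fin d) :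
    Measurable (fun z : ℝ × (Fin d → ℝ) => b z.1 z.2 i) :=
  (measurable_pi_apply i).comp hb.meas

lemma IsField.measurable_slice (hb : IsField T b β) (i : Fin d) (t : ℝ) :
    Measurable (fun x : Fin d → ℝ => b t x i) :=
  (hb.measurable_comp i).comp (measurable_const.prodMk measurable_id)

lemma measurable_Lstar (hb : IsField T b β) (hφ : IsTest d T φ) :
    Measurable (fun z : ℝ × (Fin d → ℝ) => Lstar b φ z.1 z.2) := by
  unfold Lstar
  refine (hφ.cont_deriv.measurable.add ?_).add hφ.cont_lap.measurable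
  exact Finset.measurable_fun_sum _ fun i _ => (hb.measurable_comp i).mul (hφ.cont_pd i).measurable

lemma Lstar_bound (hb : IsField T b β) (hφ : IsTest d T φ) :
    ∃ C, 0 ≤ C ∧ ∀ t ∈ Set.Icc 0 T, ∀ x ∈ cell d, |Lstar b φ t x| ≤ C * (2 + d * β t) := by
  obtain ⟨C, hC0, hC⟩ := hφ.bounds
  refine ⟨C, hC0, fun t ht x hx => ?_⟩
  obtain ⟨h1, h2, h3, _⟩ := hC t ht x hx
  unfold Lstar
  have hs : |∑ i, b t x i * pd i (φ t) x| ≤ ∑ i : Fin d, β t * C := by
    refine (Finset.abs_sum_le_sum_abs _ _).trans (Finset.sum_le_sum fun i _ => ?_)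
    rw [abs_mul]
    exact mul_le_mul (hb.bound t x i) (h2 i) (abs_nonneg _)
      ((abs_nonneg _).trans (hb.bound t x i))
  rw [Finset.sum_const, Finset.card_univ, Fintype.card_fin, nsmul_eq_mul] at hs
  calc _ ≤ |deriv (fun s => φ s x) t + ∑ i, b t x i * pd i (φ t) x| + |lap (φ t) x| :=
        abs_add_le _ _
    _ ≤ |deriv (fun s => φ s x) t| + |∑ i, b t x i * pd i (φ t) x| + |lap (φ t) x| := by
        gcongr; exact abs_add_le _ _
    _ ≤ C + d * (β t * C) + C := by gcongr
    _ = C * (2 + d * β t) := by ring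

lemma volume_stCell : (volume.restrict (stCell d T) : Measure (ℝ × (Fin d → ℝ))) =
    (volume.restrict (Set.Ioo 0 T)).prod (volume.restrict (cell d)) := by
  rw [Measure.prod_restrict]; rfl

instance : IsFiniteMeasure (volume.restrict (stCell d T) : Measure (ℝ × (Fin d → ℝ))) := by
  rw [volume_stCell]; infer_instance

lemma integrable_comp_fst {f : ℝ → ℝ} (hf : IntegrableOn f (Set.Ioo 0 T)) :
    Integrable (fun z : ℝ × (Fin d → ℝ) => f z.1) (volume.restrict (stCell d T)) := by
  rw [volume_stCell]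
  exact hf.comp_fst _

lemma ae_mem_stCell : ∀ᵐ z ∂(volume.restrict (stCell d T) : Measure (ℝ × (Fin d → ℝ))),
    z ∈ stCell d T :=
  self_mem_ae_restrict (measurableSet_Ioo.prod measurableSet_cell)

lemma integrable_Lstar (hb : IsField T b β) (hφ : IsTest d T φ) :
    Integrable (fun z : ℝ × (Fin d → ℝ) => Lstar b φ z.1 z.2) (volume.restrict (stCell d T)) := by
  obtain ⟨C, hC0, hC⟩ := Lstar_bound hb hφ
  have hint : Integrable (fun z : ℝ × (Fin d → ℝ) => C * (2 + d * β z.1))
      (volume.restrict (stCell d T)) := by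
    refine integrable_comp_fst (f := fun t => C * (2 + d * β t)) ?_
    exact ((integrable_const _).add (hb.int.const_mul _)).const_mul _
  refine hint.mono' (measurable_Lstar hb hφ).aestronglyMeasurable ?_
  filter_upwards [ae_mem_stCell] with z hz
  exact hC z.1 ⟨hz.1.1.le, hz.1.2.le⟩ z.2 hz.2

lemma integrableOn_Lstar_slice (hb : IsField T b β) (hφ : IsTest d T φ) {t : ℝ}
    (ht : t ∈ Set.Icc 0 T) : IntegrableOn (Lstar b φ t) (cell d) := by
  obtain ⟨C, hC0, hC⟩ := Lstar_bound hb hφ
  refine Integrable.mono' (integrable_const (C * (2 + d * β t))) ?_ ?_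
  · exact ((measurable_Lstar hb hφ).comp
      (measurable_const.prodMk measurable_id)).aestronglyMeasurable
  · filter_upwards [self_mem_ae_restrict measurableSet_cell] with x hx
    exact hC t ht x hx

/-- the `L¹(T^d)` norm of `L^*φ(t)` -/
noncomputable def mass (b : ℝ → (Fin d → ℝ) → (Fin d → ℝ)) (φ : ℝ → (Fin d → ℝ) → ℝ) (t : ℝ) : ℝ :=
  ∫ x in cell d, |Lstar b φ t x|

lemma mass_nonneg (t : ℝ) : 0 ≤ mass b φ t := integral_nonneg fun _ => abs_nonneg _

lemma integrableOn_mass (hb : IsField T b β) (hφ : IsTest d T φ) :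
    IntegrableOn (mass b φ) (Set.Ioo 0 T) := by
  have h := (integrable_Lstar hb hφ).norm
  rw [volume_stCell] at h
  exact h.integral_prod_left

lemma integral_add3 {f g h : (Fin d → ℝ) → ℝ} (hf : IntegrableOn f (cell d))
    (hg : IntegrableOn g (cell d)) (hh : IntegrableOn h (cell d)) :
    ∫ x in cell d, (f x + g x + h x) =
      (∫ x in cell d, f x) + (∫ x in cell d, g x) + ∫ x in cell d, h x := by
  have h1 : ∫ x in cell d, (f x + g x + h x) = (∫ x in cell d, (f x + g x)) +
      ∫ x in cell d, h x := integral_add (hf.add hg) hh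
  rw [h1, integral_add hf hg]

/-- The pairing identity: for `φ` a test function and `V` a `C²` function,
`d/dt ∫ φ V = ∫ L^*φ V + ∫ φ (V_t + b·∇V - ΔV)`. -/
lemma hasDerivAt_pairing (hb : IsField T b β) (hφ : IsTest d T φ)
    {V : ℝ × (Fin d → ℝ) → ℝ} (hV : ContDiff ℝ 2 V) (pV : ∀ t, IsPeriodic fun x => V (t, x))
    (t : ℝ) :
    HasDerivAt (fun s => ∫ x in cell d, φ s x * V (s, x))
      (∫ x in cell d, (Lstar b φ t x * V (t, x) +
        φ t x * (deriv (fun s => V (s, x)) t + ∑ i, b t x i * pd i (fun y => V (t, y)) x -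
          lap (fun y => V (t, y)) x))) t := by
  set Φ : ℝ × (Fin d → ℝ) → ℝ := fun z => φ z.1 z.2 with hΦ
  have hΦ2 : ContDiff ℝ 2 Φ := hφ.smooth2
  have hΦ1 : ContDiff ℝ 1 Φ := hφ.smooth1
  have hV1 : ContDiff ℝ 1 V := hV.of_le one_le_two
  have hG : ContDiff ℝ 1 (fun z => Φ z * V z) := hΦ1.mul hV1
  have key := hasDerivAt_integral_cell hG t
  convert key using 1
  -- the time derivative of the product
  have e1 : ∀ x, fderiv ℝ (fun z => Φ z * V z) (t, x) (1, 0) =
      φ t x * deriv (fun s => V (s, x)) t + deriv (fun s => φ s x) t * V (t, x) := by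
    intro x
    rw [fderiv_fun_mul (hΦ1.differentiable one_ne_zero _) (hV1.differentiable one_ne_zero _)]
    rw [deriv_eq_fderiv hV1 t x, hφ.deriv_eq t x]
    simp [Dt, hΦ]; ring
  simp only [e1]
  -- slices
  have sφ : ContDiff ℝ 2 (φ t) := hφ.slice t
  have sV : ContDiff ℝ 2 (fun y => V (t, y)) := contDiff_slice hV t
  have sφ1 : ContDiff ℝ 1 (φ t) := sφ.of_le one_le_two
  have sV1 : ContDiff ℝ 1 (fun y => V (t, y)) := sV.of_le one_le_two
  have spφ : ∀ i, ContDiff ℝ 1 (pd i (φ t)) := fun i =>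
    (sφ.fderiv_right (by norm_num)).clm_apply contDiff_const
  have spV : ∀ i, ContDiff ℝ 1 (pd i (fun y => V (t, y))) := fun i =>
    (sV.fderiv_right (by norm_num)).clm_apply contDiff_const
  have cdV : Continuous (fun x => deriv (fun s => V (s, x)) t) := by
    have : (fun x => deriv (fun s => V (s, x)) t) = fun x => Dt V (t, x) := by
      ext x; exact deriv_eq_fderiv hV1 t x
    rw [this]
    exact (contDiff_Dt (m := 0) hV1 (by norm_num)).continuous.comp (by fun_prop)
  have cdφ : Continuous (fun x => deriv (fun s => φ s x) t) :=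
    hφ.cont_deriv.comp (f := fun x => (t, x)) (by fun_prop)
  have clV : Continuous (lap (fun y => V (t, y))) := by
    unfold lap
    exact continuous_finsetSum _ fun i _ => pd_continuous (spV i)
  have clφ : Continuous (lap (φ t)) := by
    unfold lap
    exact continuous_finsetSum _ fun i _ => pd_continuous (spφ i)
  -- the divergence-free term
  have h1 := hb.divfree t (fun y => φ t y * V (t, y)) (sφ1.mul sV1) ((hφ.periodic t).mul (pV t))
  -- the Laplacian term
  have h2 : ∫ x in cell d, (lap (φ t) x * V (t, x) - φ t x * lap (fun y => V (t, y)) x) = 0 := by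
    have : ∀ x, lap (φ t) x * V (t, x) - φ t x * lap (fun y => V (t, y)) x =
        ∑ i, (pd i (pd i (φ t)) x * V (t, x) - φ t x * pd i (pd i (fun y => V (t, y))) x) := by
      intro x
      unfold lap
      rw [Finset.sum_mul, Finset.mul_sum, Finset.sum_sub_distrib]
    simp only [this]
    rw [integral_finsetSum]
    · apply Finset.sum_eq_zero
      intro i _
      have a1 := integral_mul_pd i sV1 (spφ i) (pV t) (IsPeriodic.pd sφ1 (hφ.periodic t))
      have a2 := integral_mul_pd i sφ1 (spV i) (hφ.periodic t) (IsPeriodic.pd sV1 (pV t))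
      rw [integral_sub]
      · have b1 : ∫ x in cell d, pd i (pd i (φ t)) x * V (t, x) =
            ∫ x in cell d, V (t, x) * pd i (pd i (φ t)) x := by
          congr 1; ext x; ring
        have b2 : ∫ x in cell d, pd i (φ t) x * pd i (fun y => V (t, y)) x =
            ∫ x in cell d, pd i (fun y => V (t, y)) x * pd i (φ t) x := by
          congr 1; ext x; ring
        rw [b1, a1, a2, b2]; ring
      · exact integrableOn_cell ((pd_continuous (spφ i)).mul sV.continuous)
      · exact integrableOn_cell (sφ.continuous.mul (pd_continuous (spV i)))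
    · intro i _
      exact integrableOn_cell (((pd_continuous (spφ i)).mul sV.continuous).sub
        (sφ.continuous.mul (pd_continuous (spV i))))
  -- integrability of the drift terms
  have bb : ∀ i, ∀ f : (Fin d → ℝ) → ℝ, Continuous f →
      IntegrableOn (fun x => b t x i * f x) (cell d) := by
    intro i f hf
    obtain ⟨C, hC⟩ := isCompact_cell.exists_bound_of_continuousOn hf.continuousOn
    refine Integrable.mono' (integrable_const (β t * C)) ?_ ?_
    · exact ((hb.measurable_slice i t).mul hf.measurable).aestronglyMeasurable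
    · filter_upwards [self_mem_ae_restrict measurableSet_cell] with x hx
      rw [norm_mul]
      exact mul_le_mul (hb.bound t x i) (hC x hx) (norm_nonneg _)
        ((abs_nonneg _).trans (hb.bound t x i))
  have h1' : ∫ x in cell d, ∑ i, b t x i * (φ t x * pd i (fun y => V (t, y)) x +
      V (t, x) * pd i (φ t) x) = 0 := by
    rw [← h1]
    congr 1
    ext x
    apply Finset.sum_congr rfl
    intro i _
    rw [pd_mul i sφ1 sV1]
  have i1 : IntegrableOn (fun x => ∑ i, b t x i * (φ t x * pd i (fun y => V (t, y)) x +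
      V (t, x) * pd i (φ t) x)) (cell d) := by
    refine integrable_finsetSum _ fun i _ => bb i _ ?_
    exact (sφ.continuous.mul (pd_continuous sV1)).add (sV.continuous.mul (pd_continuous sφ1))
  have i2 : IntegrableOn (fun x => lap (φ t) x * V (t, x) -
      φ t x * lap (fun y => V (t, y)) x) (cell d) :=
    integrableOn_cell ((clφ.mul sV.continuous).sub (sφ.continuous.mul clV))
  have i3 : IntegrableOn (fun x => φ t x * deriv (fun s => V (s, x)) t +
      deriv (fun s => φ s x) t * V (t, x)) (cell d) :=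
    integrableOn_cell ((sφ.continuous.mul cdV).add (cdφ.mul sV.continuous))
  calc _ = ∫ x in cell d, ((φ t x * deriv (fun s => V (s, x)) t +
      deriv (fun s => φ s x) t * V (t, x)) +
      (∑ i, b t x i * (φ t x * pd i (fun y => V (t, y)) x + V (t, x) * pd i (φ t) x)) +
      (lap (φ t) x * V (t, x) - φ t x * lap (fun y => V (t, y)) x)) := by
        congr 1
        ext x
        unfold Lstar
        have : ∑ i, b t x i * (φ t x * pd i (fun y => V (t, y)) x + V (t, x) * pd i (φ t) x) =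
            φ t x * ∑ i, b t x i * pd i (fun y => V (t, y)) x +
              (∑ i, b t x i * pd i (φ t) x) * V (t, x) := by
          rw [Finset.mul_sum, Finset.sum_mul, ← Finset.sum_add_distrib]
          apply Finset.sum_congr rfl
          intro i _; ring
        rw [this]; ring
    _ = _ := by
        rw [integral_add3 i3 i1 i2, h1', h2]; ring

end Pool.Agent.Lib_helper9.Parab
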