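import Pool.Agent.Lib_helper9.Parab.Estimates

/-!
# The `L¹` estimate for the backward equation
-/

open MeasureTheory Set
open scoped ContDiff

namespace Pool.Agent.Lib_helper9.Parab

variable {d : ℕ} {T : ℝ} {b : ℝ → (Fin d → ℝ) → (Fin d → ℝ)} {β : ℝ → ℝ}
  {φ : ℝ → (Fin d → ℝ) → ℝ}

/-- smooth approximation of the absolute value -/
noncomputable def eta (δ z : ℝ) : ℝ := Real.sqrt (z ^ 2 + δ ^ 2)

/-- its derivative -/
noncomputable def eta' (δ z : ℝ) : ℝ := z / Real.sqrt (z ^ 2 + δ ^ 2)

lemma eta_arg_pos {δ : ℝ} (hδ : 0 < δ) (z : ℝ) : 0 < z ^ 2 + δ ^ 2 := by positivity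

lemma contDiff_eta {δ : ℝ} (hδ : 0 < δ) : ContDiff ℝ 2 (eta δ) := by
  unfold eta
  exact ContDiff.sqrt (by fun_prop) (fun z => (eta_arg_pos hδ z).ne')

lemma contDiff_eta' {δ : ℝ} (hδ : 0 < δ) : ContDiff ℝ 2 (eta' δ) := by
  unfold eta'
  exact ContDiff.div contDiff_id (contDiff_eta hδ)
    (fun z => (Real.sqrt_pos.mpr (eta_arg_pos hδ z)).ne')

lemma hasDerivAt_eta {δ : ℝ} (hδ : 0 < δ) (z : ℝ) : HasDerivAt (eta δ) (eta' δ z) z := by
  have h1 : HasDerivAt (fun z : ℝ => z ^ 2 + δ ^ 2) (2 * z) z := by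
    simpa using (hasDerivAt_pow 2 z).add_const (δ ^ 2)
  have h2 := h1.sqrt (eta_arg_pos hδ z).ne'
  unfold eta eta'
  convert h2 using 1
  field_simp

lemma hasDerivAt_eta' {δ : ℝ} (hδ : 0 < δ) (z : ℝ) :
    HasDerivAt (eta' δ) (δ ^ 2 / (eta δ z) ^ 3) z := by
  have hp := eta_arg_pos hδ z
  have hs : 0 < eta δ z := Real.sqrt_pos.mpr hp
  have h1 := (hasDerivAt_id z).div (hasDerivAt_eta hδ z) hs.ne'
  have hsq : (eta δ z) ^ 2 = z ^ 2 + δ ^ 2 := Real.sq_sqrt hp.le
  have h2 : eta' δ z = z / eta δ z := rfl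
  have h4 : (1 * eta δ z - id z * eta' δ z) / eta δ z ^ 2 = δ ^ 2 / (eta δ z) ^ 3 := by
    rw [h2]
    simp only [id]
    field_simp
    nlinarith
  rw [h4] at h1
  exact h1

lemma abs_eta'_le {δ : ℝ} (hδ : 0 < δ) (z : ℝ) : |eta' δ z| ≤ 1 := by
  have hp := eta_arg_pos hδ z
  have hs : 0 < Real.sqrt (z ^ 2 + δ ^ 2) := Real.sqrt_pos.mpr hp
  unfold eta'
  rw [abs_div, abs_of_pos hs, div_le_one hs]
  apply Real.le_sqrt_of_sq_le
  rw [sq_abs]; nlinarith [sq_nonneg δ]

lemma abs_le_eta {δ : ℝ} (z : ℝ) : |z| ≤ eta δ z := by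
  apply Real.le_sqrt_of_sq_le
  rw [sq_abs]; nlinarith [sq_nonneg δ]

lemma pd_comp {η : ℝ → ℝ} {η' : ℝ → ℝ} (hη : ∀ z, HasDerivAt η (η' z) z) (i : Fin d)
    {f : (Fin d → ℝ) → ℝ} (hf : ContDiff ℝ 1 f) (x : Fin d → ℝ) :
    pd i (fun y => η (f y)) x = η' (f x) * pd i f x := by
  have h1 := (hη (f x)).comp_hasFDerivAt x (hf.differentiable one_ne_zero x).hasFDerivAt
  unfold pd
  have h2 : fderiv ℝ (fun y => η (f y)) x = η' (f x) • fderiv ℝ f x := h1.fderiv
  rw [h2]; simp

/-- `L¹` contraction for the backward equation. -/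
lemma kato (hb : IsField T b β) (hφ : IsTest d T φ) {t : ℝ} (ht : t ∈ Set.Icc 0 T) :
    ∫ x in cell d, |φ t x| ≤ ∫ s in t..T, mass b φ s := by
  have hmassT : IntervalIntegrable (mass b φ) volume 0 T := by
    rw [intervalIntegrable_iff_integrableOn_Ioo_of_le (ht.1.trans ht.2)]
    exact integrableOn_mass hb hφ
  have hmass : IntervalIntegrable (mass b φ) volume t T :=
    hmassT.mono_set (by rw [uIcc_of_le ht.2, uIcc_of_le (ht.1.trans ht.2)]; exact Icc_subset_Icc_left ht.1)
  apply le_of_forall_pos_le_add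
  intro δ hδ
  set Φ : ℝ × (Fin d → ℝ) → ℝ := fun z => φ z.1 z.2 with hΦ
  have hΦ2 : ContDiff ℝ 2 Φ := hφ.smooth2
  have hΦ1 : ContDiff ℝ 1 Φ := hφ.smooth1
  have hG : ContDiff ℝ 1 (fun z => eta δ (Φ z)) :=
    ((contDiff_eta hδ).comp hΦ2).of_le one_le_two
  set Y : ℝ → ℝ := fun s => ∫ x in cell d, eta δ (φ s x) with hY
  have hYd : ∀ s, HasDerivAt Y (∫ x in cell d, eta' δ (φ s x) * deriv (fun r => φ r x) s) s := by
    intro s
    have key := hasDerivAt_integral_cell hG s
    convert key using 1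
    congr 1
    ext x
    have h1 := (hasDerivAt_eta hδ (Φ (s, x))).comp_hasFDerivAt (s, x)
      (hΦ1.differentiable one_ne_zero (s, x)).hasFDerivAt
    have h2 : fderiv ℝ (fun z => eta δ (Φ z)) (s, x) = eta' δ (Φ (s, x)) • fderiv ℝ Φ (s, x) :=
      h1.fderiv
    rw [h2, hφ.deriv_eq s x]
    simp [Dt, hΦ]
  have hlow : ∀ s ∈ Set.Ioo t T, - mass b φ s ≤
      ∫ x in cell d, eta' δ (φ s x) * deriv (fun r => φ r x) s := by
    intro s hs
    have hs' : s ∈ Set.Icc 0 T := ⟨ht.1.trans hs.1.le, hs.2.le⟩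
    have sφ : ContDiff ℝ 2 (φ s) := hφ.slice s
    have sφ1 : ContDiff ℝ 1 (φ s) := sφ.of_le one_le_two
    have spφ : ∀ i, ContDiff ℝ 1 (pd i (φ s)) := fun i =>
      (sφ.fderiv_right (by norm_num)).clm_apply contDiff_const
    have hE : ContDiff ℝ 1 (fun y => eta δ (φ s y)) :=
      ((contDiff_eta hδ).comp sφ).of_le one_le_two
    have hH : ContDiff ℝ 1 (fun y => eta' δ (φ s y)) :=
      ((contDiff_eta' hδ).comp sφ).of_le one_le_two
    have pE : IsPeriodic (fun y => eta δ (φ s y)) := by
      intro k x; simp only [hφ.periodic s k x]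
    have pH : IsPeriodic (fun y => eta' δ (φ s y)) := by
      intro k x; simp only [hφ.periodic s k x]
    -- the drift term vanishes
    have h1 := hb.divfree s _ hE pE
    have h1' : ∫ x in cell d, eta' δ (φ s x) * ∑ i, b s x i * pd i (φ s) x = 0 := by
      rw [← h1]
      congr 1
      ext x
      rw [Finset.mul_sum]
      apply Finset.sum_congr rfl
      intro i _
      rw [pd_comp (hasDerivAt_eta hδ) i sφ1]
      ring
    -- the Laplacian term has a sign
    have h2 : ∫ x in cell d, eta' δ (φ s x) * lap (φ s) x ≤ 0 := by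
      have e : ∀ x, eta' δ (φ s x) * lap (φ s) x =
          ∑ i, eta' δ (φ s x) * pd i (pd i (φ s)) x := by
        intro x; unfold lap; rw [Finset.mul_sum]
      simp only [e]
      rw [integral_finsetSum]
      · apply Finset.sum_nonpos
        intro i _
        rw [integral_mul_pd i hH (spφ i) pH (IsPeriodic.pd sφ1 (hφ.periodic s))]
        rw [neg_nonpos]
        apply integral_nonneg
        intro x
        simp only
        rw [pd_comp (hasDerivAt_eta' hδ) i sφ1]
        have : 0 < eta δ (φ s x) := Real.sqrt_pos.mpr (eta_arg_pos hδ _)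
        have h3 : 0 ≤ δ ^ 2 / (eta δ (φ s x)) ^ 3 := by positivity
        simp only [Pi.zero_apply]
        calc (0 : ℝ) ≤ δ ^ 2 / (eta δ (φ s x)) ^ 3 * (pd i (φ s) x) ^ 2 :=
              mul_nonneg h3 (sq_nonneg _)
          _ = _ := by ring
      · intro i _
        exact integrableOn_cell (hH.continuous.mul (pd_continuous (spφ i)))
    have cdφ : Continuous (fun x => deriv (fun r => φ r x) s) :=
      hφ.cont_deriv.comp (f := fun x => (s, x)) (by fun_prop)
    have clφ : Continuous (lap (φ s)) := by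
      unfold lap
      exact continuous_finsetSum _ fun i _ => pd_continuous (spφ i)
    have iL : IntegrableOn (fun x => eta' δ (φ s x) * Lstar b φ s x) (cell d) := by
      refine (integrableOn_Lstar_slice hb hφ hs').norm.mono' ?_ ?_
      · exact (hH.continuous.measurable.mul ((measurable_Lstar hb hφ).comp
          (measurable_const.prodMk measurable_id))).aestronglyMeasurable
      · filter_upwards with x
        rw [norm_mul]
        calc _ ≤ 1 * ‖Lstar b φ s x‖ := by
              gcongr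
              exact abs_eta'_le hδ _
          _ = _ := one_mul _
    have iLap : IntegrableOn (fun x => eta' δ (φ s x) * lap (φ s) x) (cell d) :=
      integrableOn_cell (hH.continuous.mul clφ)
    have iD : IntegrableOn (fun x => eta' δ (φ s x) * deriv (fun r => φ r x) s) (cell d) :=
      integrableOn_cell (hH.continuous.mul cdφ)
    have iB : IntegrableOn (fun x => eta' δ (φ s x) * ∑ i, b s x i * pd i (φ s) x) (cell d) := by
      have : (fun x => eta' δ (φ s x) * ∑ i, b s x i * pd i (φ s) x) =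
          fun x => eta' δ (φ s x) * Lstar b φ s x -
            (eta' δ (φ s x) * deriv (fun r => φ r x) s + eta' δ (φ s x) * lap (φ s) x) := by
        ext x; unfold Lstar; ring
      rw [this]
      exact iL.sub (iD.add iLap)
    have e : ∫ x in cell d, eta' δ (φ s x) * Lstar b φ s x =
        (∫ x in cell d, eta' δ (φ s x) * deriv (fun r => φ r x) s) +
        (∫ x in cell d, eta' δ (φ s x) * ∑ i, b s x i * pd i (φ s) x) +
        ∫ x in cell d, eta' δ (φ s x) * lap (φ s) x := by
      rw [← integral_add3 iD iB iLap]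
      congr 1
      ext x; unfold Lstar; ring
    have hge : - mass b φ s ≤ ∫ x in cell d, eta' δ (φ s x) * Lstar b φ s x := by
      unfold mass
      rw [← integral_neg]
      apply integral_mono_ae
      · exact (integrableOn_Lstar_slice hb hφ hs').norm.neg
      · exact iL
      · filter_upwards with x
        have h5 := abs_le.mp (show |eta' δ (φ s x) * Lstar b φ s x| ≤ |Lstar b φ s x| by
          rw [abs_mul]
          calc _ ≤ 1 * |Lstar b φ s x| := by
                gcongr
                exact abs_eta'_le hδ _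
            _ = _ := one_mul _)
        exact h5.1
    linarith
  have hcont : ContinuousOn Y (Set.Icc t T) := fun s _ => (hYd s).continuousAt.continuousWithinAt
  have hint : IntegrableOn (fun s => - mass b φ s) (Set.Icc t T) := by
    rw [integrableOn_Icc_iff_integrableOn_Ioo]
    exact ((integrableOn_mass hb hφ).mono_set (Ioo_subset_Ioo_left ht.1)).neg
  have main := intervalIntegral.integral_le_sub_of_hasDeriv_right_of_le ht.2 hcont
    (fun s _ => (hYd s).hasDerivWithinAt) hint hlow
  have hYT : Y T = δ := by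
    obtain ⟨T', hT', hv⟩ := hφ.vanish
    simp only [hY, hv T hT'.le, eta]
    rw [setIntegral_const]
    simp [Measure.real, volume_cell, Real.sqrt_sq hδ.le]
  have hYt : ∫ x in cell d, |φ t x| ≤ Y t := by
    apply integral_mono
    · exact integrableOn_cell (continuous_abs.comp (hφ.slice t).continuous)
    · exact integrableOn_cell ((contDiff_eta hδ).continuous.comp (hφ.slice t).continuous)
    · intro x; exact abs_le_eta _
  rw [intervalIntegral.integral_neg] at main
  linarith

end Pool.Agent.Lib_helper9.Parab
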