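import Pool.Agent.Lib_helper9.Parab.Solution

/-!
# The main theorem
-/

open MeasureTheory Set
open scoped ContDiff ENNReal

namespace Pool.Agent.Lib_helper9.Parab

variable {d : ℕ} {T : ℝ} {n₀ : ℕ}

/-- the test function detecting the gradient in cycle `j` -/
noncomputable def phi (T : ℝ) (n₀ : ℕ) (i₀ : Fin d) (j : ℕ) (t : ℝ) (x : Fin d → ℝ) : ℝ :=
  chi T n₀ j t * (Real.sin (2 * Real.pi * NN n₀ j * x i₀) / (2 * Real.pi * NN n₀ j))

lemma sA_pos (hn : 4 ≤ T * 2 ^ n₀) (j : ℕ) : 0 < sA T n₀ j := by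
  have h1 := sT_nonneg (T_pos_of hn) j
  have h2 := sT_lt_sA (T := T) n₀ j
  linarith

lemma sA_hh_lt (hn : 4 ≤ T * 2 ^ n₀) (j : ℕ) : sA T n₀ j + hh n₀ j < T := by
  have h1 := sA_add_lt hn j
  have h2 := sT_lt (T_pos_of hn) (j + 1)
  linarith

lemma isInteriorTest_phi (hn : 4 ≤ T * 2 ^ n₀) (i₀ : Fin d) (j : ℕ) :
    IsInteriorTest d T (phi T n₀ i₀ j) := by
  refine ⟨⟨?_, ?_, ?_⟩, ?_⟩
  · unfold phi
    have h1 : ContDiff ℝ ∞ (fun z : ℝ × (Fin d → ℝ) => chi T n₀ j z.1) :=
      (contDiff_chi T n₀ j).comp contDiff_fst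
    have h2 : ContDiff ℝ ∞ (fun z : ℝ × (Fin d → ℝ) =>
        Real.sin (2 * Real.pi * NN n₀ j * z.2 i₀) / (2 * Real.pi * NN n₀ j)) := by
      fun_prop
    exact h1.mul h2
  · intro t k x
    have := isPeriodic_coord (d := d) (periodic_sin (NN n₀ j)) i₀ k x
    simp only at this
    unfold phi
    rw [this]
  · refine ⟨sA T n₀ j + hh n₀ j, sA_hh_lt hn j, fun t ht x => ?_⟩
    unfold phi
    rw [chi_eq_zero (fun h => absurd h.2 (not_lt.mpr ht)), zero_mul]
  · refine ⟨sA T n₀ j, sA_pos hn j, fun t ht x => ?_⟩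
    unfold phi
    rw [chi_eq_zero (fun h => absurd h.1 (not_lt.mpr ht)), zero_mul]

lemma pd_phi (i₀ : Fin d) (j : ℕ) (t : ℝ) (x : Fin d → ℝ) :
    pd i₀ (phi T n₀ i₀ j t) x = psi T n₀ i₀ j t x := by
  have hN : (0 : ℝ) < NN n₀ j := by exact_mod_cast NN_pos n₀ j
  have hc : (2 * Real.pi * NN n₀ j : ℝ) ≠ 0 := by positivity
  have h := pd_comp_coord (d := d) (g := fun r => chi T n₀ j t *
    (Real.sin (2 * Real.pi * NN n₀ j * r) / (2 * Real.pi * NN n₀ j)))
    (fun r => (hasDerivAt_sin_div hc r).const_mul (chi T n₀ j t)) i₀ i₀ x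
  rw [if_pos rfl] at h
  exact h

/-- the time window of cycle `j` -/
def window (T : ℝ) (n₀ : ℕ) (d j : ℕ) : Set (ℝ × (Fin d → ℝ)) :=
  Set.Ioo (sA T n₀ j) (sA T n₀ j + hh n₀ j) ×ˢ cell d

lemma measurableSet_window (d j : ℕ) : MeasurableSet (window T n₀ d j) :=
  measurableSet_Ioo.prod measurableSet_cell

lemma window_subset (hn : 4 ≤ T * 2 ^ n₀) (d j : ℕ) : window T n₀ d j ⊆ stCell d T :=
  Set.prod_mono (Ioo_subset_Ioo (sA_pos hn j).le (sA_hh_lt hn j).le) le_rfl

lemma window_disjoint (hn : 4 ≤ T * 2 ^ n₀) (d : ℕ) :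
    Pairwise (Function.onFun Disjoint (window T n₀ d)) := by
  have key : ∀ i j, i < j → Disjoint (window T n₀ d i) (window T n₀ d j) := by
    intro i j hij
    rw [Set.disjoint_left]
    intro z h1 h2
    have a1 : sT T (i + 1) ≤ sT T j := (sT_mono (T_pos_of hn)).monotone hij
    have a2 := sA_add_lt hn i
    have a3 := sT_lt_sA (T := T) n₀ j
    linarith [h1.1.2, h2.1.1]
  intro i j hij
  rcases lt_or_gt_of_ne hij with h | h
  · exact key i j h
  · exact (key j i h).symm

lemma volume_window (d j : ℕ) : (volume (window T n₀ d j)).toReal = hh n₀ j := by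
  unfold window
  rw [Measure.volume_eq_prod, Measure.prod_prod, volume_cell, mul_one, Real.volume_Ioo,
    add_sub_cancel_left, ENNReal.toReal_ofReal (hh_pos n₀ j).le]

lemma abs_phi_le (i₀ : Fin d) (j : ℕ) (t : ℝ) (x : Fin d → ℝ) :
    |phi T n₀ i₀ j t x| ≤ 1 / (2 * Real.pi * NN n₀ j) := by
  have hN : (0 : ℝ) < NN n₀ j := by exact_mod_cast NN_pos n₀ j
  have hc : (0 : ℝ) < 2 * Real.pi * NN n₀ j := by positivity
  unfold phi
  rw [abs_mul, abs_of_nonneg (chi_nonneg T n₀ j t), abs_div, abs_of_pos hc]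
  calc _ ≤ 1 * (1 / (2 * Real.pi * NN n₀ j)) := by
        gcongr
        · exact chi_le_one T n₀ j t
        · exact Real.abs_sin_le_one _
    _ = _ := one_mul _

/-- A function whose pairings with `psi j` are `hh j` is not in `L²H¹`. -/
theorem not_parabolic (hn : 4 ≤ T * 2 ^ n₀) (i₀ : Fin d) {u : ℝ → (Fin d → ℝ) → ℝ}
    (hu : ∀ j, ∫ t in Set.Ioo 0 T, ∫ x in cell d, u t x * psi T n₀ i₀ j t x = hh n₀ j) :
    ¬ IsParabolic T u := by
  rintro ⟨g, hg, hgu⟩
  have hT := T_pos_of hn
  -- the component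
  set g₀ : ℝ × (Fin d → ℝ) → ℝ := fun z => g z.1 z.2 i₀ with hg₀
  have mg₀ : AEStronglyMeasurable g₀ (volume.restrict (stCell d T)) :=
    (continuous_apply i₀).comp_aestronglyMeasurable hg.1
  have Lg₀ : MemLp g₀ 2 (volume.restrict (stCell d T)) :=
    hg.mono mg₀ (Filter.Eventually.of_forall fun z => norm_le_pi_norm (g z.1 z.2) i₀)
  have ig₀ : Integrable g₀ (volume.restrict (stCell d T)) := Lg₀.integrable (by norm_num)
  set Γ : ℝ × (Fin d → ℝ) → ℝ := fun z => g₀ z ^ 2 with hΓ
  have iΓ : IntegrableOn Γ (stCell d T) := Lg₀.integrable_sq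
  -- lower bound on each window
  have hlow : ∀ j, 1 / 4 ≤ ∫ z in window T n₀ d j, Γ z := by
    intro j
    have hN : (0 : ℝ) < NN n₀ j := by exact_mod_cast NN_pos n₀ j
    set c : ℝ := 2 * Real.pi * NN n₀ j with hc
    have hc0 : 0 < c := by positivity
    have h1 := hgu _ (isInteriorTest_phi hn i₀ j) i₀
    simp only [pd_phi] at h1
    rw [hu j] at h1
    -- the product integral
    have cphi : Continuous (fun z : ℝ × (Fin d → ℝ) => phi T n₀ i₀ j z.1 z.2) :=
      (isInteriorTest_phi hn i₀ j).smooth.continuous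
    have iprod : Integrable (fun z : ℝ × (Fin d → ℝ) => g₀ z * phi T n₀ i₀ j z.1 z.2)
        (volume.restrict (stCell d T)) := by
      refine ig₀.mul_bdd (c := 1 / c) cphi.aestronglyMeasurable ?_
      filter_upwards with z
      exact abs_phi_le i₀ j z.1 z.2
    have e1 : ∫ t in Set.Ioo 0 T, ∫ x in cell d, g t x i₀ * phi T n₀ i₀ j t x =
        ∫ z, g₀ z * phi T n₀ i₀ j z.1 z.2 ∂(volume.restrict (stCell d T)) := by
      rw [volume_stCell] at iprod ⊢
      rw [integral_prod _ iprod]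
    rw [e1] at h1
    have iΓw : IntegrableOn Γ (window T n₀ d j) := iΓ.mono_set (window_subset hn d j)
    have ivol : volume (window T n₀ d j) ≠ ⊤ := by
      unfold window
      rw [Measure.volume_eq_prod, Measure.prod_prod, volume_cell, mul_one, Real.volume_Ioo]
      exact ENNReal.ofReal_ne_top
    have iw : IntegrableOn (fun z => (Γ z / c ^ 2 + 1) / 2) (window T n₀ d j) :=
      ((iΓw.div_const _).add (integrableOn_const ivol)).div_const 2
    have h2 : |∫ z, g₀ z * phi T n₀ i₀ j z.1 z.2 ∂(volume.restrict (stCell d T))| ≤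
        ∫ z in window T n₀ d j, (Γ z / c ^ 2 + 1) / 2 := by
      have e2 : ∫ z in window T n₀ d j, (Γ z / c ^ 2 + 1) / 2 =
          ∫ z in stCell d T, (window T n₀ d j).indicator (fun z => (Γ z / c ^ 2 + 1) / 2) z := by
        rw [integral_indicator (measurableSet_window d j),
          Measure.restrict_restrict (measurableSet_window d j),
          Set.inter_eq_left.mpr (window_subset hn d j)]
      rw [e2]
      refine abs_integral_le_integral_abs.trans ?_
      apply integral_mono_ae iprod.norm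
      · rw [integrable_indicator_iff (measurableSet_window d j)]
        unfold IntegrableOn
        rw [Measure.restrict_restrict (measurableSet_window d j),
          Set.inter_eq_left.mpr (window_subset hn d j)]
        exact iw
      · filter_upwards [ae_mem_stCell] with z hz
        by_cases hw : z ∈ window T n₀ d j
        · rw [Set.indicator_of_mem hw]
          show |g₀ z * phi T n₀ i₀ j z.1 z.2| ≤ (Γ z / c ^ 2 + 1) / 2
          have a1 : |g₀ z * phi T n₀ i₀ j z.1 z.2| ≤ |g₀ z| * (1 / c) := by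
            rw [abs_mul]
            exact mul_le_mul_of_nonneg_left (abs_phi_le i₀ j z.1 z.2) (abs_nonneg _)
          have a2 : |g₀ z| * (1 / c) ≤ (Γ z / c ^ 2 + 1) / 2 := by
            have a3 : Γ z / c ^ 2 = (|g₀ z| * (1 / c)) ^ 2 := by
              rw [mul_pow |g₀ z| (1 / c) 2, sq_abs, one_div, inv_pow, ← div_eq_mul_inv]
            rw [a3]
            nlinarith [sq_nonneg (|g₀ z| * (1 / c) - 1)]
          exact a1.trans a2
        · rw [Set.indicator_of_notMem hw]
          have hz1 : z.1 ∉ Set.Ioo (sA T n₀ j) (sA T n₀ j + hh n₀ j) := by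
            intro h
            exact hw ⟨h, hz.2⟩
          show |g₀ z * phi T n₀ i₀ j z.1 z.2| ≤ 0
          unfold phi
          rw [chi_eq_zero hz1, zero_mul, mul_zero, abs_zero]
    have h3 : ∫ z in window T n₀ d j, (Γ z / c ^ 2 + 1) / 2 =
        ((∫ z in window T n₀ d j, Γ z) / c ^ 2 + hh n₀ j) / 2 := by
      rw [integral_div, integral_add (iΓw.div_const _) (integrableOn_const ivol),
        integral_div, setIntegral_const, Measure.real, volume_window, smul_eq_mul, mul_one]
    rw [h3] at h2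
    have h4 : hh n₀ j ≤ |∫ z, g₀ z * phi T n₀ i₀ j z.1 z.2 ∂(volume.restrict (stCell d T))| := by
      rw [h1]; exact neg_le_abs _
    have h5 : hh n₀ j ≤ (∫ z in window T n₀ d j, Γ z) / c ^ 2 := by linarith
    rw [le_div_iff₀ (by positivity)] at h5
    refine le_trans ?_ h5
    have e3 : hh n₀ j * c ^ 2 = Real.pi ^ 2 / 32 := by
      rw [hc]; unfold hh; field_simp; ring
    rw [e3]
    have := Real.pi_gt_three
    nlinarith
  -- contradiction with integrability
  have hU : IntegrableOn Γ (⋃ j, window T n₀ d j) :=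
    iΓ.mono_set (iUnion_subset fun j => window_subset hn d j)
  have hs := hasSum_integral_iUnion (fun j => measurableSet_window (T := T) (n₀ := n₀) d j)
    (window_disjoint hn d) hU
  have ht := hs.summable.tendsto_atTop_zero
  have := ge_of_tendsto' ht hlow
  norm_num at this

/-! ### The function spaces -/

lemma memMixed_drift (hn : 4 ≤ T * 2 ^ n₀) {i₀ i₁ : Fin d} {r p : ℝ≥0∞}
    (hr1 : 1 ≤ r) (hr2 : r < 2) : MemMixed r p T (drift T n₀ i₀ i₁) := by
  refine ⟨(measurable_drift hn i₀ i₁).aestronglyMeasurable, ?_⟩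
  have hrt : r ≠ ⊤ := (hr2.trans (by norm_num)).ne
  have hr0 : r ≠ 0 := (zero_lt_one.trans_le hr1).ne'
  have h1 : 1 ≤ r.toReal := by
    rw [← ENNReal.toReal_one]
    exact ENNReal.toReal_mono hrt hr1
  have h2 : r.toReal < 2 := by
    have := (ENNReal.toReal_lt_toReal hrt (by norm_num)).mpr hr2
    simpa using this
  have h3 := lintegral_dbound_lt_top hn h1 h2
  have hle : ∀ t, eLpNorm (drift T n₀ i₀ i₁ t) p (volume.restrict (cell d)) ≤
      ENNReal.ofReal (dbound T n₀ t) := by
    intro t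
    have := eLpNorm_le_of_ae_bound (p := p) (μ := volume.restrict (cell d))
      (f := drift T n₀ i₀ i₁ t) (C := dbound T n₀ t) (by
        filter_upwards with x
        rw [pi_norm_le_iff_of_nonneg (dbound_nonneg T n₀ t)]
        intro i
        exact abs_drift_le n₀ i₀ i₁ t x i)
    rw [measure_univ, ENNReal.one_rpow, one_mul] at this
    exact this
  rw [eLpNorm_eq_lintegral_rpow_enorm_toReal hr0 hrt]
  apply ENNReal.rpow_lt_top_of_nonneg (by positivity)
  refine (lt_of_le_of_lt (lintegral_mono fun t => ?_) h3).ne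
  rw [enorm_eq_self]
  exact ENNReal.rpow_le_rpow (hle t) (by positivity)

lemma memMixed_bounded {u : ℝ → (Fin d → ℝ) → ℝ} {C : ℝ}
    (hu : Measurable (fun z : ℝ × (Fin d → ℝ) => u z.1 z.2)) (hC : ∀ t x, |u t x| ≤ C)
    (q : ℝ≥0∞) : MemMixed ⊤ q T u := by
  refine ⟨hu.aestronglyMeasurable, ?_⟩
  have hle : ∀ t, eLpNorm (u t) q (volume.restrict (cell d)) ≤ ENNReal.ofReal C := by
    intro t
    have := eLpNorm_le_of_ae_bound (p := q) (μ := volume.restrict (cell d))
      (f := u t) (C := C) (by filter_upwards with x; exact hC t x)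
    rw [measure_univ, ENNReal.one_rpow, one_mul] at this
    exact this
  rw [eLpNorm_exponent_top]
  refine lt_of_le_of_lt (essSup_le_of_ae_le (ENNReal.ofReal C) ?_) ENNReal.ofReal_lt_top
  filter_upwards with t
  rw [enorm_eq_self]
  exact hle t

/-- The main theorem. -/
theorem main (d : ℕ) (hd : 2 ≤ d) (T : ℝ) (hT : 0 < T) :
    ∃ (b : ℝ → (Fin d → ℝ) → (Fin d → ℝ)) (u : ℝ → (Fin d → ℝ) → ℝ),
      (∀ t, IsPeriodic (b t)) ∧ (∀ t, IsPeriodic (u t)) ∧ IsDivFree T b ∧
      (∀ r p : ℝ≥0∞, 1 ≤ r → r < 2 → 1 ≤ p → MemMixed r p T b) ∧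
      (∀ q : ℝ≥0∞, 1 ≤ q → MemMixed ⊤ q T u) ∧
      IsDistributionalSolution T b (fun _ => 0) u ∧ ¬ IsParabolic T u := by
  obtain ⟨n₀, hn₀⟩ := pow_unbounded_of_one_lt (4 / T) one_lt_two
  have hn : 4 ≤ T * 2 ^ n₀ := by
    rw [div_lt_iff₀ hT] at hn₀
    linarith
  set i₀ : Fin d := ⟨0, by omega⟩ with hi₀
  set i₁ : Fin d := ⟨1, by omega⟩ with hi₁
  have hi : i₀ ≠ i₁ := by
    rw [hi₀, hi₁]
    intro h
    have := congrArg Fin.val h
    simp at this
  obtain ⟨u, hum, hub, hu1, hu2⟩ := exists_u0 (d := d) hn hi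
  have hb := isField_drift hn hi
  refine ⟨drift T n₀ i₀ i₁, ext0 u, drift_periodic n₀ i₀ i₁, ext0_periodic u, ?_, ?_, ?_, ?_, ?_⟩
  · filter_upwards with t ψ hψ pψ
    exact drift_divfree n₀ hi t ψ (hψ.of_le (by simp)) pψ
  · intro r p hr1 hr2 _
    exact memMixed_drift hn hr1 hr2
  · intro q _
    exact memMixed_bounded (measurable_ext0 hum) (fun t x => hub _) q
  · constructor
    · have i1 : Integrable (fun z : ℝ × (Fin d → ℝ) => 13 * dbound T n₀ z.1)
          (volume.restrict (stCell d T)) :=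
        integrable_comp_fst (f := fun t => 13 * dbound T n₀ t) (hb.int.const_mul 13)
      refine i1.mono' ?_ ?_
      · exact ((measurable_ext0 hum).smul (measurable_drift hn i₀ i₁)).aestronglyMeasurable
      · filter_upwards with z
        rw [norm_smul]
        apply mul_le_mul (hub _) _ (norm_nonneg _) (by norm_num)
        rw [pi_norm_le_iff_of_nonneg (dbound_nonneg T n₀ z.1)]
        intro i
        exact abs_drift_le n₀ i₀ i₁ z.1 z.2 i
    · intro φ hφ
      have h1 := integral_ext0 hum hub (integrable_Lstar hb hφ)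
      rw [hu1 φ hφ] at h1
      simp only [zero_mul, integral_zero, add_zero]
      exact h1
  · apply not_parabolic hn i₀
    intro j
    have h1 := integral_ext0 (T := T) hum hub (integrable_Gst (continuous_psi T n₀ i₀ j))
    rw [hu2 j] at h1
    exact h1

end Pool.Agent.Lib_helper9.Parab
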