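import Pool.Agent.Lib_helper9.Parab.Shear

/-!
# Local averages under the shear steps
-/

open MeasureTheory Set
open scoped ContDiff Interval

namespace Pool.Agent.Lib_helper9.Parab

/-- the average of `F` over segments of length `1/M` in the first direction is at most `ε` -/
def Av (F : ℝ × ℝ → ℝ) (M ε : ℝ) : Prop :=
  ∀ p q, |∫ r in (0 : ℝ)..1, F (p + r / M, q)| ≤ ε

lemma Bd.lip1 {F : ℝ × ℝ → ℝ} {D E : ℝ} (hF : Bd F D E) (p p' q : ℝ) :
    |F (p, q) - F (p', q)| ≤ D * |p - p'| := by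
  have dF : Differentiable ℝ F := hF.smooth.differentiable two_ne_zero
  have hd : ∀ z ∈ (Set.univ : Set ℝ), HasDerivWithinAt (fun s => F (s, q)) (Dp F (z, q))
      Set.univ z := by
    intro z _
    have h1 : HasDerivAt (fun s : ℝ => ((s, q) : ℝ × ℝ)) (1, 0) z :=
      (hasDerivAt_id z).prodMk (hasDerivAt_const z q)
    exact ((dF (z, q)).hasFDerivAt.comp_hasDerivAt z h1).hasDerivWithinAt
  have := Convex.norm_image_sub_le_of_norm_hasDerivWithin_le hd (fun z _ => hF.dp (z, q))
    convex_univ (mem_univ p') (mem_univ p)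
  simpa [Real.norm_eq_abs] using this

lemma Bd.lip2 {F : ℝ × ℝ → ℝ} {D E : ℝ} (hF : Bd F D E) (p q q' : ℝ) :
    |F (p, q) - F (p, q')| ≤ D * |q - q'| := by
  have dF : Differentiable ℝ F := hF.smooth.differentiable two_ne_zero
  have hd : ∀ z ∈ (Set.univ : Set ℝ), HasDerivWithinAt (fun s => F (p, s)) (Dq F (p, z))
      Set.univ z := by
    intro z _
    have h1 : HasDerivAt (fun s : ℝ => ((p, s) : ℝ × ℝ)) (0, 1) z :=
      (hasDerivAt_const z p).prodMk (hasDerivAt_id z)
    exact ((dF (p, z)).hasFDerivAt.comp_hasDerivAt z h1).hasDerivWithinAt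
  have := Convex.norm_image_sub_le_of_norm_hasDerivWithin_le hd (fun z _ => hF.dq (p, z))
    convex_univ (mem_univ q') (mem_univ q)
  simpa [Real.norm_eq_abs] using this

/-- the displacement profile of a shear step -/
noncomputable def disp (M M' δ : ℝ) (p : ℝ) : ℝ := prof δ (M' * p) / M

lemma disp_continuous (M M' δ : ℝ) : Continuous (disp M M' δ) := by
  unfold disp
  exact ((prof_continuous δ).comp (by fun_prop)).div_const M

lemma abs_integral_sub_le {f g : ℝ → ℝ} (hf : Continuous f) (hg : Continuous g) {c : ℝ}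
    (h : ∀ r ∈ Set.Icc (0 : ℝ) 1, |f r - g r| ≤ c) :
    |(∫ r in (0 : ℝ)..1, f r) - ∫ r in (0 : ℝ)..1, g r| ≤ c := by
  rw [← intervalIntegral.integral_sub (hf.intervalIntegrable _ _) (hg.intervalIntegrable _ _)]
  have := intervalIntegral.norm_integral_le_of_norm_le_const (a := 0) (b := 1)
    (f := fun r => f r - g r) (C := c) (by
      intro r hr
      rw [uIoc_of_le zero_le_one] at hr
      exact h r ⟨hr.1.le, hr.2⟩)
  simpa using this

/-- The mixing step. -/
lemma Av.next {F : ℝ × ℝ → ℝ} {D E M M' δ ε : ℝ} (hF : Bd F D E) (hA : Av F M ε)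
    (hM : 0 < M) (hM' : 0 < M') (hδ : 0 < δ) :
    Av (next (disp M M' δ) F) M' (ε + D / M' + 4 * δ * D / M) := by
  intro p q
  have cF : Continuous F := hF.smooth.continuous
  have cS := disp_continuous M M' δ
  have D0 : 0 ≤ D := (abs_nonneg _).trans (hF.dp 0)
  have cprof := prof_continuous δ
  have ctri := tri_continuous
  -- the four integrands
  set f1 : ℝ → ℝ := fun r => F (q + prof δ (M' * p + r) / M, p + r / M') with hf1
  set f2 : ℝ → ℝ := fun r => F (q + prof δ (M' * p + r) / M, p) with hf2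
  set f3 : ℝ → ℝ := fun r => F (q + prof δ r / M, p) with hf3
  set f4 : ℝ → ℝ := fun r => F (q + tri r / M, p) with hf4
  have e1 : ∫ r in (0 : ℝ)..1, Parab.next (disp M M' δ) F (p + r / M', q) =
      ∫ r in (0 : ℝ)..1, f1 r := by
    congr 1
    ext r
    show F (q + prof δ (M' * (p + r / M')) / M, p + r / M') = _
    rw [hf1]
    simp only
    congr 4
    field_simp
  have c1 : Continuous f1 := by fun_prop
  have c2 : Continuous f2 := by fun_prop
  have c3 : Continuous f3 := by fun_prop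
  have c4 : Continuous f4 := by fun_prop
  have h12 : |(∫ r in (0 : ℝ)..1, f1 r) - ∫ r in (0 : ℝ)..1, f2 r| ≤ D / M' := by
    apply abs_integral_sub_le c1 c2
    intro r hr
    refine (hF.lip2 _ _ _).trans ?_
    rw [show p + r / M' - p = r / M' by ring, abs_of_nonneg (div_nonneg hr.1 hM'.le)]
    rw [mul_div_assoc']
    apply div_le_div_of_nonneg_right _ hM'.le
    calc D * r ≤ D * 1 := by gcongr; exact hr.2
      _ = D := mul_one D
  have h23 : ∫ r in (0 : ℝ)..1, f2 r = ∫ r in (0 : ℝ)..1, f3 r := by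
    have hp : Function.Periodic f3 1 := by
      intro r
      simp only [hf3]
      rw [prof_periodic δ r]
    have e : ∫ r in (0 : ℝ)..1, f2 r = ∫ r in (0 : ℝ)..1, f3 (M' * p + r) := rfl
    rw [e, intervalIntegral.integral_comp_add_left]
    have := hp.intervalIntegral_add_eq (M' * p) 0
    rw [zero_add] at this
    rw [add_zero]
    exact this
  have h34 : |(∫ r in (0 : ℝ)..1, f3 r) - ∫ r in (0 : ℝ)..1, f4 r| ≤ 4 * δ * D / M := by
    apply abs_integral_sub_le c3 c4
    intro r hr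
    refine (hF.lip1 _ _ _).trans ?_
    rw [show q + prof δ r / M - (q + tri r / M) = (prof δ r - tri r) / M by ring, abs_div,
      abs_of_pos hM, mul_div_assoc']
    apply div_le_div_of_nonneg_right _ hM.le
    calc D * |prof δ r - tri r| ≤ D * (4 * δ) := by
          gcongr; exact prof_sub_tri_le hδ r
      _ = 4 * δ * D := by ring
  have h4 : |∫ r in (0 : ℝ)..1, f4 r| ≤ ε := by
    have : ∫ r in (0 : ℝ)..1, f4 r = ∫ r in (0 : ℝ)..1, F (q + r / M, p) :=
      integral_comp_tri (g := fun r => F (q + r / M, p)) (by fun_prop)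
    rw [this]
    exact hA q p
  rw [e1]
  calc |∫ r in (0 : ℝ)..1, f1 r| =
      |((∫ r in (0 : ℝ)..1, f1 r) - ∫ r in (0 : ℝ)..1, f2 r) +
        ((∫ r in (0 : ℝ)..1, f3 r) - ∫ r in (0 : ℝ)..1, f4 r) + ∫ r in (0 : ℝ)..1, f4 r| := by
        rw [h23]; ring_nf
    _ ≤ |((∫ r in (0 : ℝ)..1, f1 r) - ∫ r in (0 : ℝ)..1, f2 r) +
        ((∫ r in (0 : ℝ)..1, f3 r) - ∫ r in (0 : ℝ)..1, f4 r)| +
          |∫ r in (0 : ℝ)..1, f4 r| := abs_add_le _ _
    _ ≤ (|(∫ r in (0 : ℝ)..1, f1 r) - ∫ r in (0 : ℝ)..1, f2 r| +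
        |(∫ r in (0 : ℝ)..1, f3 r) - ∫ r in (0 : ℝ)..1, f4 r|) +
          |∫ r in (0 : ℝ)..1, f4 r| := by gcongr; exact abs_add_le _ _
    _ ≤ (D / M' + 4 * δ * D / M) + ε := by gcongr
    _ = _ := by ring

/-- bounds for the displacement profile -/
lemma shearBd_disp {M M' δ : ℝ} (hM : 0 < M) (hM' : 0 < M') (hδ : 0 < δ)
    (hint : ∃ n : ℕ, M' = n) :
    ShearBd (disp M M' δ) (2 * M' / M) (4 / δ * M' ^ 2 / M) := by
  have h1 : ∀ r, HasDerivAt (disp M M' δ) (deriv (prof δ) (M' * r) * M' / M) r := by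
    intro r
    have a1 : HasDerivAt (fun r : ℝ => M' * r) M' r := by
      simpa using (hasDerivAt_id r).const_mul M'
    have a2 : HasDerivAt (prof δ) (deriv (prof δ) (M' * r)) (M' * r) :=
      ((contDiff_prof δ).differentiable two_ne_zero _).hasDerivAt
    exact (a2.comp r a1).div_const M
  have h1' : deriv (disp M M' δ) = fun r => deriv (prof δ) (M' * r) * M' / M :=
    funext fun r => (h1 r).deriv
  have h2 : ∀ r, HasDerivAt (deriv (disp M M' δ)) (prof'' δ (M' * r) * M' * M' / M) r := by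
    intro r
    rw [h1']
    have a1 : HasDerivAt (fun r : ℝ => M' * r) M' r := by
      simpa using (hasDerivAt_id r).const_mul M'
    have a2 := hasDerivAt_deriv_prof δ (M' * r)
    exact (((a2.comp r a1).mul_const M').div_const M)
  refine ⟨?_, ?_, ?_, ?_⟩
  · unfold disp
    exact ((contDiff_prof δ).comp (contDiff_const.mul contDiff_id)).div_const M
  · obtain ⟨n, rfl⟩ := hint
    intro r
    unfold disp
    have : prof δ ((n : ℝ) * (r + 1)) = prof δ ((n : ℝ) * r) := by
      have := (prof_periodic δ).nat_mul n ((n : ℝ) * r)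
      rw [mul_one] at this
      rw [← this]; congr 1; ring
    rw [this]
  · intro r
    rw [h1', abs_div, abs_mul, abs_of_pos hM, abs_of_pos hM']
    apply div_le_div_of_nonneg_right _ hM.le
    gcongr
    exact abs_deriv_prof_le hδ _
  · intro r
    rw [(h2 r).deriv, abs_div, abs_mul, abs_mul, abs_of_pos hM, abs_of_pos hM']
    apply div_le_div_of_nonneg_right _ hM.le
    have := abs_deriv2_prof_le hδ (M' * r)
    rw [deriv2_prof] at this
    calc |prof'' δ (M' * r)| * M' * M' ≤ 4 / δ * M' * M' := by gcongr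
      _ = 4 / δ * M' ^ 2 := by ring

/-- the starting function `cos (2π N p)` -/
noncomputable def base (N : ℝ) (z : ℝ × ℝ) : ℝ := Real.cos (2 * Real.pi * N * z.1)

lemma Dp_of_comp_fst {g g' : ℝ → ℝ} (hg : ∀ r, HasDerivAt g (g' r) r) :
    Dp (fun z : ℝ × ℝ => g z.1) = fun z => g' z.1 := by
  ext z
  have h : HasFDerivAt (fun z : ℝ × ℝ => g z.1) (g' z.1 • ContinuousLinearMap.fst ℝ ℝ ℝ) z :=
    (hg z.1).comp_hasFDerivAt z hasFDerivAt_fst
  unfold Dp
  rw [h.fderiv]; simp

lemma Dq_of_comp_fst {g g' : ℝ → ℝ} (hg : ∀ r, HasDerivAt g (g' r) r) :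
    Dq (fun z : ℝ × ℝ => g z.1) = fun _ => 0 := by
  ext z
  have h : HasFDerivAt (fun z : ℝ × ℝ => g z.1) (g' z.1 • ContinuousLinearMap.fst ℝ ℝ ℝ) z :=
    (hg z.1).comp_hasFDerivAt z hasFDerivAt_fst
  unfold Dq
  rw [h.fderiv]; simp

lemma hasDerivAt_cos_mul (c r : ℝ) :
    HasDerivAt (fun r => Real.cos (c * r)) (-(c * Real.sin (c * r))) r := by
  have a1 : HasDerivAt (fun r : ℝ => c * r) c r := by
    simpa using (hasDerivAt_id r).const_mul c
  exact ((Real.hasDerivAt_cos (c * r)).comp r a1).congr_deriv (by ring)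

lemma hasDerivAt_neg_sin_mul (c r : ℝ) :
    HasDerivAt (fun r => -(c * Real.sin (c * r))) (-(c ^ 2 * Real.cos (c * r))) r := by
  have a1 : HasDerivAt (fun r : ℝ => c * r) c r := by
    simpa using (hasDerivAt_id r).const_mul c
  exact (((Real.hasDerivAt_sin (c * r)).comp r a1).const_mul c).neg.congr_deriv (by ring)

lemma bd_base {N : ℕ} : Bd (base N) (2 * Real.pi * N) ((2 * Real.pi * N) ^ 2) := by
  set c : ℝ := 2 * Real.pi * N with hc
  have c0 : 0 ≤ c := by positivity
  have e : base (N : ℝ) = fun z : ℝ × ℝ => Real.cos (c * z.1) := rfl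
  have e1 : Dp (base (N : ℝ)) = fun z => -(c * Real.sin (c * z.1)) := by
    rw [e]; exact Dp_of_comp_fst (hasDerivAt_cos_mul c)
  have e2 : Dq (base (N : ℝ)) = fun z => 0 := by
    rw [e]; exact Dq_of_comp_fst (hasDerivAt_cos_mul c)
  have e3 : Dp (Dp (base (N : ℝ))) = fun z => -(c ^ 2 * Real.cos (c * z.1)) := by
    rw [e1]; exact Dp_of_comp_fst (hasDerivAt_neg_sin_mul c)
  have e4 : Dq (Dp (base (N : ℝ))) = fun z => 0 := by
    rw [e1]; exact Dq_of_comp_fst (hasDerivAt_neg_sin_mul c)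
  have e5 : Dp (Dq (base (N : ℝ))) = fun z => 0 := by
    rw [e2]; ext z; simp [Dp]
  have e6 : Dq (Dq (base (N : ℝ))) = fun z => 0 := by
    rw [e2]; ext z; simp [Dq]
  refine ⟨?_, ?_, ?_, ?_, ?_, ?_, ?_, ?_, ?_, ?_⟩
  · rw [e]; fun_prop
  · intro p q
    rw [e]
    simp only
    rw [show c * (p + 1) = c * p + N * (2 * Real.pi) by rw [hc]; ring,
      Real.cos_add_nat_mul_two_pi]
  · intro p q; rw [e]
  · intro z; rw [e]; exact Real.abs_cos_le_one _
  · intro z; rw [e1]; simp only [abs_neg, abs_mul, abs_of_nonneg c0]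
    calc c * |Real.sin (c * z.1)| ≤ c * 1 := by gcongr; exact Real.abs_sin_le_one _
      _ = c := mul_one c
  · intro z; rw [e2]; simpa using c0
  · intro z; rw [e3]; simp only [abs_neg, abs_mul, abs_pow, abs_of_nonneg c0]
    calc c ^ 2 * |Real.cos (c * z.1)| ≤ c ^ 2 * 1 := by gcongr; exact Real.abs_cos_le_one _
      _ = c ^ 2 := mul_one _
  · intro z; rw [e4]; simp; positivity
  · intro z; rw [e5]; simp; positivity
  · intro z; rw [e6]; simp; positivity

lemma av_base {N : ℕ} (hN : 0 < N) : Av (base N) N 0 := by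
  intro p q
  have hN' : (N : ℝ) ≠ 0 := by positivity
  have : ∫ r in (0 : ℝ)..1, base N (p + r / N, q) =
      ∫ r in (0 : ℝ)..1, Real.cos ((2 * Real.pi) * r + 2 * Real.pi * N * p) := by
    congr 1
    ext r
    unfold base
    simp only
    congr 1
    field_simp
    ring
  rw [this, intervalIntegral.integral_comp_mul_add _ (by positivity), integral_cos]
  have : Real.sin (2 * Real.pi * 1 + 2 * Real.pi * N * p) =
      Real.sin (2 * Real.pi * 0 + 2 * Real.pi * N * p) := by
    rw [show 2 * Real.pi * 1 + 2 * Real.pi * N * p = 2 * Real.pi * N * p + 2 * Real.pi by ring,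
      Real.sin_add_two_pi]
    congr 1; ring
  rw [this]; simp

end Pool.Agent.Lib_helper9.Parab
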