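import Pool.Agent.Lib_helper9.Parab.Mixing

/-!
# The parameters of one cycle and the transported functions
-/

open MeasureTheory Set
open scoped ContDiff Interval

namespace Pool.Agent.Lib_helper9.Parab

/-- frequencies, as natural numbers -/
def MN (N L k : ℕ) : ℕ := N * 2 ^ (2 * k ^ 2 + L * k)

/-- frequencies -/
noncomputable def MM (N L k : ℕ) : ℝ := (MN N L k : ℝ)

/-- ratio of consecutive frequencies -/
noncomputable def KK (L k : ℕ) : ℝ := 2 ^ (4 * k + 2 + L)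

lemma MM_zero (N L : ℕ) : MM N L 0 = N := by simp [MM, MN]

lemma MM_succ (N L k : ℕ) : MM N L (k + 1) = MM N L k * KK L k := by
  unfold MM MN KK
  push_cast
  rw [mul_assoc, ← pow_add]
  congr 2
  ring

lemma KK_pos (L k : ℕ) : 0 < KK L k := by unfold KK; positivity

lemma KK_ge_one (L k : ℕ) : 1 ≤ KK L k := by
  unfold KK; exact one_le_pow₀ (by norm_num)

lemma MM_pos {N : ℕ} (hN : 0 < N) (L k : ℕ) : 0 < MM N L k := by
  unfold MM MN; positivity

lemma MM_mono (N L k : ℕ) : MM N L k ≤ MM N L (k + 1) := by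
  rw [MM_succ]
  have h1 := KK_ge_one L k
  have h2 : 0 ≤ MM N L k := by unfold MM; positivity
  nlinarith

/-- displacement profile of stage `k` -/
noncomputable def SS (N L k : ℕ) : ℝ → ℝ := disp (MM N L k) (MM N L (k + 1)) (1 / KK L k)

/-- the transported functions -/
noncomputable def ww (N L : ℕ) : ℕ → ℝ × ℝ → ℝ
  | 0 => base N
  | k + 1 => next (SS N L k) (ww N L k)

lemma Bd.mono {F : ℝ × ℝ → ℝ} {D E D' E' : ℝ} (h : Bd F D E) (hD : D ≤ D') (hE : E ≤ E') :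
    Bd F D' E' :=
  ⟨h.smooth, h.per1, h.per2, h.le_one, fun z => (h.dp z).trans hD, fun z => (h.dq z).trans hD,
    fun z => (h.dpp z).trans hE, fun z => (h.dqp z).trans hE, fun z => (h.dpq z).trans hE,
    fun z => (h.dqq z).trans hE⟩

/-- bound for the first derivatives -/
noncomputable def DD (N L k : ℕ) : ℝ := 7 * 3 ^ k * MM N L k

/-- bound for the second derivatives -/
noncomputable def EE (N L k : ℕ) : ℝ := 2 ^ (6 * k + L + 6) * (MM N L k) ^ 2

lemma shearBd_SS {N : ℕ} (hN : 0 < N) (L k : ℕ) :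
    ShearBd (SS N L k) (2 * KK L k) (4 * KK L k * (MM N L (k + 1)) ^ 2 / MM N L k) := by
  have hM := MM_pos hN L k
  have hM' := MM_pos hN L (k + 1)
  have hK := KK_pos L k
  have h := shearBd_disp (δ := 1 / KK L k) hM hM' (by positivity) ⟨MN N L (k + 1), rfl⟩
  have e1 : 2 * MM N L (k + 1) / MM N L k = 2 * KK L k := by
    rw [MM_succ]; field_simp
  have e2 : 4 / (1 / KK L k) * MM N L (k + 1) ^ 2 / MM N L k =
      4 * KK L k * (MM N L (k + 1)) ^ 2 / MM N L k := by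
    field_simp
  rw [e1, e2] at h
  exact h

lemma DD_step {N : ℕ} (hN : 0 < N) (L k : ℕ) :
    DD N L k * (1 + 2 * KK L k) ≤ DD N L (k + 1) := by
  unfold DD
  rw [MM_succ, pow_succ]
  have hM := MM_pos hN L k
  have hK := KK_ge_one L k
  have h3 : (0 : ℝ) < 3 ^ k := by positivity
  have : 0 ≤ 7 * 3 ^ k * MM N L k := by positivity
  nlinarith

lemma EE_step {N : ℕ} (hN : 0 < N) (L k : ℕ) :
    4 * KK L k * (MM N L (k + 1)) ^ 2 / MM N L k * DD N L k + EE N L k * (1 + 2 * KK L k) ^ 2 ≤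
      EE N L (k + 1) := by
  have hM := MM_pos hN L k
  have hM' := MM_pos hN L (k + 1)
  have hK := KK_ge_one L k
  have e1 : 4 * KK L k * (MM N L (k + 1)) ^ 2 / MM N L k * DD N L k =
      28 * 3 ^ k * KK L k * (MM N L (k + 1)) ^ 2 := by
    unfold DD; field_simp; ring
  have e2 : EE N L k * (1 + 2 * KK L k) ^ 2 ≤ 9 * 2 ^ (6 * k + L + 6) * (MM N L (k + 1)) ^ 2 := by
    unfold EE
    rw [MM_succ]
    have h1 : (1 + 2 * KK L k) ^ 2 ≤ 9 * (KK L k) ^ 2 := by nlinarith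
    have h2 : (0 : ℝ) ≤ 2 ^ (6 * k + L + 6) * (MM N L k) ^ 2 := by positivity
    nlinarith [mul_le_mul_of_nonneg_left h1 h2]
  have e3 : 28 * 3 ^ k * KK L k ≤ 55 * 2 ^ (6 * k + L + 6) := by
    unfold KK
    have h48 : (3 : ℝ) ^ k * 16 ^ k ≤ 64 ^ k := by
      rw [← mul_pow]; gcongr; norm_num
    have a1 : (2 : ℝ) ^ (4 * k + 2 + L) = 4 * 16 ^ k * 2 ^ L := by
      rw [pow_add, pow_add, pow_mul]; norm_num; ring
    have a2 : (2 : ℝ) ^ (6 * k + L + 6) = 64 * 64 ^ k * 2 ^ L := by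
      rw [pow_add, pow_add, pow_mul]; norm_num; ring
    rw [a1, a2]
    have hL : (0 : ℝ) < 2 ^ L := by positivity
    calc (28 : ℝ) * 3 ^ k * (4 * 16 ^ k * 2 ^ L) = 112 * (3 ^ k * 16 ^ k) * 2 ^ L := by ring
      _ ≤ 112 * 64 ^ k * 2 ^ L := by gcongr
      _ ≤ 55 * (64 * 64 ^ k * 2 ^ L) := by
          have : (0 : ℝ) < 64 ^ k * 2 ^ L := by positivity
          nlinarith
  have e4 : EE N L (k + 1) = 64 * 2 ^ (6 * k + L + 6) * (MM N L (k + 1)) ^ 2 := by
    unfold EE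
    rw [show 6 * (k + 1) + L + 6 = (6 * k + L + 6) + 6 by ring, pow_add (2 : ℝ) (6 * k + L + 6) 6]
    norm_num
    left
    ring
  rw [e1, e4]
  have hsq : 0 ≤ (MM N L (k + 1)) ^ 2 := by positivity
  nlinarith [mul_le_mul_of_nonneg_right e3 hsq]

lemma bd_ww {N : ℕ} (hN : 0 < N) (L : ℕ) : ∀ k, Bd (ww N L k) (DD N L k) (EE N L k)
  | 0 => by
    have hN1 : (1 : ℝ) ≤ N := by exact_mod_cast hN
    have hπ := Real.pi_lt_d2
    have hπ0 := Real.pi_pos
    refine (bd_base (N := N)).mono ?_ ?_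
    · unfold DD; rw [MM_zero]; nlinarith
    · unfold EE; rw [MM_zero]
      have h2L : (1 : ℝ) ≤ 2 ^ L := one_le_pow₀ (by norm_num)
      have e : (2 : ℝ) ^ (6 * 0 + L + 6) = 64 * 2 ^ L := by
        rw [pow_add, mul_zero, zero_add]; norm_num; ring
      rw [e]
      have h1 : (2 * Real.pi * N) ^ 2 ≤ 64 * (N : ℝ) ^ 2 := by
        have : (2 * Real.pi) ^ 2 ≤ 64 := by nlinarith
        calc (2 * Real.pi * (N : ℝ)) ^ 2 = (2 * Real.pi) ^ 2 * (N : ℝ) ^ 2 := by ring
          _ ≤ 64 * (N : ℝ) ^ 2 := by gcongr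
      calc _ ≤ 64 * 1 * (N : ℝ) ^ 2 := by rw [mul_one]; exact h1
        _ ≤ 64 * 2 ^ L * (N : ℝ) ^ 2 := by gcongr
  | k + 1 => by
    have h := (bd_ww hN L k).next (shearBd_SS hN L k)
    exact h.mono (DD_step hN L k) (EE_step hN L k)

/-- intermediate positions of the shear -/
lemma bd_partial {N : ℕ} (hN : 0 < N) (L k : ℕ) {θ : ℝ} (h0 : 0 ≤ θ) (h1 : θ ≤ 1) :
    Bd (next (fun r => θ * SS N L k r) (ww N L k)) (DD N L (k + 1)) (EE N L (k + 1)) := by
  have h := (bd_ww hN L k).next ((shearBd_SS hN L k).smul h0 h1)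
  exact h.mono (DD_step hN L k) (EE_step hN L k)

lemma av_ww_aux {N : ℕ} (hN : 0 < N) (L : ℕ) :
    ∀ k, Av (ww N L k) (MM N L k) (18 / 2 ^ L * (1 - 1 / 2 ^ k))
  | 0 => by
    have := av_base hN
    simpa [ww, MM_zero] using this
  | k + 1 => by
    have hM := MM_pos hN L k
    have hM' := MM_pos hN L (k + 1)
    have hK := KK_pos L k
    have h := (av_ww_aux hN L k).next (δ := 1 / KK L k) (bd_ww hN L k) hM hM' (by positivity)
    intro p q
    refine (h p q).trans ?_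
    have e1 : DD N L k / MM N L (k + 1) = 7 * 3 ^ k / KK L k := by
      unfold DD; rw [MM_succ]; field_simp
    have e2 : 4 * (1 / KK L k) * DD N L k / MM N L k = 28 * 3 ^ k / KK L k := by
      unfold DD; field_simp; ring
    rw [e1, e2]
    have e3 : 7 * 3 ^ k / KK L k + 28 * 3 ^ k / KK L k ≤ 9 / 2 ^ L / 2 ^ k := by
      unfold KK
      have a1 : (2 : ℝ) ^ (4 * k + 2 + L) = 4 * 16 ^ k * 2 ^ L := by
        rw [pow_add, pow_add, pow_mul]; norm_num; ring
      rw [a1]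
      have h48 : (3 : ℝ) ^ k * 2 ^ k ≤ 16 ^ k := by
        rw [← mul_pow]; gcongr; norm_num
      rw [← add_div, div_div, div_le_div_iff₀ (by positivity) (by positivity)]
      have hL : (0 : ℝ) < 2 ^ L := by positivity
      calc (7 * 3 ^ k + 28 * 3 ^ k) * (2 ^ L * 2 ^ k) = 35 * (3 ^ k * 2 ^ k) * (2 : ℝ) ^ L := by ring
        _ ≤ 35 * 16 ^ k * 2 ^ L := by gcongr
        _ ≤ 9 * (4 * 16 ^ k * 2 ^ L) := by
          have : (0 : ℝ) < 16 ^ k * 2 ^ L := by positivity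
          nlinarith
    have e4 : 18 / 2 ^ L * (1 - 1 / 2 ^ (k + 1)) =
        18 / 2 ^ L * (1 - 1 / 2 ^ k) + 9 / 2 ^ L / (2 : ℝ) ^ k := by
      rw [pow_succ]; field_simp; ring
    rw [e4]
    linarith

lemma av_ww {N : ℕ} (hN : 0 < N) (L k : ℕ) : Av (ww N L k) (MM N L k) (18 / 2 ^ L) := by
  intro p q
  refine (av_ww_aux hN L k p q).trans ?_
  have h1 : (0 : ℝ) < 1 / 2 ^ k := by positivity
  have h2 : (0 : ℝ) < 18 / 2 ^ L := by positivity
  nlinarith

/-! ### Times -/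

/-- the end points of the stages (relative to the starting time of the cycle) -/
noncomputable def rho (N L k : ℕ) : ℝ := 1 / (2 ^ (7 * k + 2 * L + 20) * (MM N L (k + 1)) ^ 2)

lemma rho_pos {N : ℕ} (hN : 0 < N) (L k : ℕ) : 0 < rho N L k := by
  unfold rho
  have := MM_pos hN L (k + 1)
  positivity

lemma rho_succ_le {N : ℕ} (hN : 0 < N) (L k : ℕ) : rho N L (k + 1) ≤ rho N L k / 2 := by
  unfold rho
  have h1 := MM_pos hN L (k + 1)
  have h2 := MM_mono N L (k + 1)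
  rw [div_div, mul_comm _ (2 : ℝ), ← mul_assoc]
  apply one_div_le_one_div_of_le (by positivity)
  have h3 : (MM N L (k + 1)) ^ 2 ≤ (MM N L (k + 1 + 1)) ^ 2 := by gcongr
  have h4 : (2 : ℝ) * 2 ^ (7 * k + 2 * L + 20) ≤ 2 ^ (7 * (k + 1) + 2 * L + 20) := by
    rw [show 7 * (k + 1) + 2 * L + 20 = (7 * k + 2 * L + 20) + 7 by ring,
      pow_add (2 : ℝ) (7 * k + 2 * L + 20) 7]
    have : (0 : ℝ) < 2 ^ (7 * k + 2 * L + 20) := by positivity
    nlinarith
  gcongr

lemma rho_succ_lt {N : ℕ} (hN : 0 < N) (L k : ℕ) : rho N L (k + 1) < rho N L k := by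
  have h1 := rho_succ_le hN L k
  have h2 := rho_pos hN L k
  linarith

/-- duration of stage `k` -/
noncomputable def tau (N L k : ℕ) : ℝ := rho N L k - rho N L (k + 1)

lemma tau_pos {N : ℕ} (hN : 0 < N) (L k : ℕ) : 0 < tau N L k := by
  have := rho_succ_lt hN L k
  unfold tau; linarith

lemma half_rho_le_tau {N : ℕ} (hN : 0 < N) (L k : ℕ) : rho N L k / 2 ≤ tau N L k := by
  have := rho_succ_le hN L k
  unfold tau; linarith

lemma tau_le_rho {N : ℕ} (hN : 0 < N) (L k : ℕ) : tau N L k ≤ rho N L k := by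
  have := rho_pos hN L (k + 1)
  unfold tau; linarith

/-- the diffusive error in stage `k` -/
lemma tau_mul_EE_le {N : ℕ} (hN : 0 < N) (L k : ℕ) :
    tau N L k * (2 * EE N L (k + 1)) ≤ 1 / 2 ^ L / 2 ^ (k + 1) := by
  have h1 := MM_pos hN L (k + 1)
  have h2 := tau_le_rho hN L k
  have hE : 0 ≤ 2 * EE N L (k + 1) := by unfold EE; positivity
  refine (mul_le_mul_of_nonneg_right h2 hE).trans ?_
  unfold rho EE
  have e : 1 / (2 ^ (7 * k + 2 * L + 20) * MM N L (k + 1) ^ 2) *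
      (2 * (2 ^ (6 * (k + 1) + L + 6) * MM N L (k + 1) ^ 2)) =
      2 * 2 ^ (6 * (k + 1) + L + 6) / 2 ^ (7 * k + 2 * L + 20) := by
    field_simp
  rw [e, div_div, div_le_div_iff₀ (by positivity) (by positivity)]
  have : (2 : ℝ) * 2 ^ (6 * (k + 1) + L + 6) * (2 ^ L * 2 ^ (k + 1)) =
      2 ^ (1 + (6 * (k + 1) + L + 6) + L + (k + 1)) := by
    rw [pow_add, pow_add, pow_add]; ring
  rw [this, one_mul]
  apply pow_le_pow_right₀ (by norm_num)
  omega

lemma rho_tendsto {N : ℕ} (hN : 0 < N) (L : ℕ) :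
    Filter.Tendsto (rho N L) Filter.atTop (nhds 0) := by
  have h : ∀ k, rho N L k ≤ rho N L 0 * (1 / 2) ^ k := by
    intro k
    induction k with
    | zero => simp
    | succ k ih =>
      refine (rho_succ_le hN L k).trans ?_
      rw [pow_succ]; linarith
  refine squeeze_zero (fun k => (rho_pos hN L k).le) h ?_
  have := (tendsto_pow_atTop_nhds_zero_of_lt_one (by norm_num : (0 : ℝ) ≤ 1 / 2)
    (by norm_num)).const_mul (rho N L 0)
  simpa using this

end Pool.Agent.Lib_helper9.Parab
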