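import Mathlib

/-!
# A smoothed triangular wave
-/

open MeasureTheory Set
open scoped ContDiff Interval

namespace Pool.Agent.Lib_helper9.Parab

/-- the integers as a subset of `ℝ` -/
abbrev intSet : Set ℝ := Set.range (Int.cast : ℤ → ℝ)

lemma intSet_nonempty : intSet.Nonempty := ⟨0, 0, by simp⟩

/-- the triangular wave of period `1` with values in `[0,1]` -/
noncomputable def tri (r : ℝ) : ℝ := 2 * Metric.infDist r intSet

lemma tri_lip (r r' : ℝ) : |tri r - tri r'| ≤ 2 * |r - r'| := by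
  unfold tri
  rw [← mul_sub, abs_mul, abs_of_pos (by norm_num : (0 : ℝ) < 2)]
  have := (Metric.lipschitz_infDist_pt intSet).dist_le_mul r r'
  simp only [NNReal.coe_one, one_mul, Real.dist_eq] at this
  linarith

lemma tri_continuous : Continuous tri :=
  continuous_const.mul (Metric.continuous_infDist_pt _)

lemma tri_nonneg (r : ℝ) : 0 ≤ tri r := mul_nonneg (by norm_num) Metric.infDist_nonneg

lemma tri_le_one (r : ℝ) : tri r ≤ 1 := by
  have h1 : Metric.infDist r intSet ≤ dist r (round r : ℝ) :=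
    Metric.infDist_le_dist_of_mem ⟨round r, rfl⟩
  have h2 := abs_sub_round r
  rw [Real.dist_eq] at h1
  unfold tri; linarith

lemma tri_periodic : Function.Periodic tri 1 := by
  intro r
  unfold tri
  congr 1
  apply le_antisymm
  · apply le_of_forall_pos_le_add
    intro ε hε
    obtain ⟨_, ⟨n, rfl⟩, hn⟩ := (Metric.infDist_lt_iff intSet_nonempty).1
      (show Metric.infDist r intSet < Metric.infDist r intSet + ε by linarith)
    have h1 : Metric.infDist (r + 1) intSet ≤ dist (r + 1) ((n + 1 : ℤ) : ℝ) :=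
      Metric.infDist_le_dist_of_mem ⟨n + 1, rfl⟩
    have h2 : dist (r + 1) ((n + 1 : ℤ) : ℝ) = dist r (n : ℝ) := by
      rw [Real.dist_eq, Real.dist_eq]; push_cast; congr 1; ring
    linarith
  · apply le_of_forall_pos_le_add
    intro ε hε
    obtain ⟨_, ⟨n, rfl⟩, hn⟩ := (Metric.infDist_lt_iff intSet_nonempty).1
      (show Metric.infDist (r + 1) intSet < Metric.infDist (r + 1) intSet + ε by linarith)
    have h1 : Metric.infDist r intSet ≤ dist r ((n - 1 : ℤ) : ℝ) :=
      Metric.infDist_le_dist_of_mem ⟨n - 1, rfl⟩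
    have h2 : dist r ((n - 1 : ℤ) : ℝ) = dist (r + 1) (n : ℝ) := by
      rw [Real.dist_eq, Real.dist_eq]; push_cast; congr 1; ring
    linarith

lemma tri_left {r : ℝ} (h0 : 0 ≤ r) (h1 : r ≤ 1 / 2) : tri r = 2 * r := by
  unfold tri
  congr 1
  apply le_antisymm
  · have : Metric.infDist r intSet ≤ dist r ((0 : ℤ) : ℝ) :=
      Metric.infDist_le_dist_of_mem ⟨0, rfl⟩
    rw [Real.dist_eq] at this
    simpa [abs_of_nonneg h0] using this
  · rw [Metric.le_infDist intSet_nonempty]
    rintro _ ⟨n, rfl⟩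
    rw [Real.dist_eq]
    rcases le_or_gt n 0 with hn | hn
    · have : (n : ℝ) ≤ 0 := by exact_mod_cast hn
      rw [abs_of_nonneg (by linarith)]; linarith
    · have : (1 : ℝ) ≤ n := by exact_mod_cast hn
      rw [abs_of_nonpos (by linarith)]; linarith

lemma tri_right {r : ℝ} (h0 : 1 / 2 ≤ r) (h1 : r ≤ 1) : tri r = 2 - 2 * r := by
  unfold tri
  have : Metric.infDist r intSet = 1 - r := by
    apply le_antisymm
    · have : Metric.infDist r intSet ≤ dist r ((1 : ℤ) : ℝ) :=
        Metric.infDist_le_dist_of_mem ⟨1, rfl⟩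
      rw [Real.dist_eq] at this
      rw [abs_of_nonpos (by push_cast; linarith)] at this
      push_cast at this; linarith
    · rw [Metric.le_infDist intSet_nonempty]
      rintro _ ⟨n, rfl⟩
      rw [Real.dist_eq]
      rcases le_or_gt n 0 with hn | hn
      · have : (n : ℝ) ≤ 0 := by exact_mod_cast hn
        rw [abs_of_nonneg (by linarith)]; linarith
      · have : (1 : ℝ) ≤ n := by exact_mod_cast hn
        rw [abs_of_nonpos (by linarith)]; linarith
  rw [this]; ring

/-- The triangular wave is equidistributed. -/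
lemma integral_comp_tri {g : ℝ → ℝ} (hg : Continuous g) :
    ∫ r in (0 : ℝ)..1, g (tri r) = ∫ r in (0 : ℝ)..1, g r := by
  have hi : ∀ a c : ℝ, IntervalIntegrable (fun r => g (tri r)) volume a c :=
    fun a c => (hg.comp tri_continuous).intervalIntegrable a c
  rw [← intervalIntegral.integral_add_adjacent_intervals (hi 0 (1 / 2)) (hi (1 / 2) 1)]
  have e1 : ∫ r in (0 : ℝ)..(1 / 2), g (tri r) = (1 / 2) * ∫ r in (0 : ℝ)..1, g r := by
    have : ∫ r in (0 : ℝ)..(1 / 2), g (tri r) = ∫ r in (0 : ℝ)..(1 / 2), g (2 * r) := by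
      apply intervalIntegral.integral_congr
      intro r hr
      rw [uIcc_of_le (by norm_num)] at hr
      simp only
      rw [tri_left hr.1 hr.2]
    rw [this, intervalIntegral.integral_comp_mul_left _ (by norm_num : (2 : ℝ) ≠ 0)]
    norm_num
  have e2 : ∫ r in (1 / 2 : ℝ)..1, g (tri r) = (1 / 2) * ∫ r in (0 : ℝ)..1, g r := by
    have : ∫ r in (1 / 2 : ℝ)..1, g (tri r) = ∫ r in (1 / 2 : ℝ)..1, g (2 - 2 * r) := by
      apply intervalIntegral.integral_congr
      intro r hr
      rw [uIcc_of_le (by norm_num)] at hr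
      simp only
      rw [tri_right hr.1 hr.2]
    rw [this, intervalIntegral.integral_comp_sub_mul _ (by norm_num : (2 : ℝ) ≠ 0)]
    norm_num
  rw [e1, e2]; ring

/-! ### Local averages -/

/-- the average of `f` over the interval of length `δ` centred at `r` -/
noncomputable def avg (δ : ℝ) (f : ℝ → ℝ) (r : ℝ) : ℝ :=
  (∫ z in (r - δ / 2)..(r + δ / 2), f z) / δ

lemma hasDerivAt_avg {δ : ℝ} {f : ℝ → ℝ} (hf : Continuous f) (r : ℝ) :
    HasDerivAt (avg δ f) ((f (r + δ / 2) - f (r - δ / 2)) / δ) r := by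
  have hF : ∀ z, HasDerivAt (fun z => ∫ y in (0 : ℝ)..z, f y) (f z) z := fun z =>
    intervalIntegral.integral_hasDerivAt_right (hf.intervalIntegrable _ _)
      (hf.stronglyMeasurableAtFilter _ _) hf.continuousAt
  have h1 : HasDerivAt (fun r => ∫ y in (0 : ℝ)..(r + δ / 2), f y) (f (r + δ / 2)) r := by
    have := (hF (r + δ / 2)).comp_add_const r (δ / 2)
    exact this
  have h2 : HasDerivAt (fun r => ∫ y in (0 : ℝ)..(r - δ / 2), f y) (f (r - δ / 2)) r := by
    have := (hF (r - δ / 2)).comp_sub_const r (δ / 2)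
    exact this
  have h3 := (h1.sub h2).div_const δ
  refine h3.congr_of_eventuallyEq ?_
  filter_upwards with r
  unfold avg
  simp only [Pi.sub_apply]
  rw [intervalIntegral.integral_interval_sub_left (hf.intervalIntegrable _ _)
    (hf.intervalIntegrable _ _)]

lemma avg_continuous {δ : ℝ} {f : ℝ → ℝ} (hf : Continuous f) : Continuous (avg δ f) :=
  continuous_iff_continuousAt.2 fun r => (hasDerivAt_avg hf r).continuousAt

lemma deriv_avg {δ : ℝ} {f : ℝ → ℝ} (hf : Continuous f) :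
    deriv (avg δ f) = fun r => (f (r + δ / 2) - f (r - δ / 2)) / δ := by
  ext r; exact (hasDerivAt_avg hf r).deriv

lemma avg_sub_const {δ : ℝ} (hδ : 0 < δ) {f : ℝ → ℝ} (hf : Continuous f) (r c : ℝ) :
    avg δ f r - c = (∫ z in (r - δ / 2)..(r + δ / 2), (f z - c)) / δ := by
  unfold avg
  rw [intervalIntegral.integral_sub (hf.intervalIntegrable _ _) (by simp),
    intervalIntegral.integral_const]
  field_simp
  simp

lemma avg_sub_le {δ : ℝ} (hδ : 0 < δ) {f : ℝ → ℝ} (hf : Continuous f) {L : ℝ}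
    (hL : ∀ r r', |f r - f r'| ≤ L * |r - r'|) (r : ℝ) : |avg δ f r - f r| ≤ L * δ := by
  have hL0 : 0 ≤ L := by
    have h1 := hL 1 0
    have : |(1 : ℝ) - 0| = 1 := by norm_num
    rw [this, mul_one] at h1
    exact (abs_nonneg _).trans h1
  rw [avg_sub_const hδ hf, abs_div, abs_of_pos hδ, div_le_iff₀ hδ]
  have : ‖∫ z in (r - δ / 2)..(r + δ / 2), (f z - f r)‖ ≤
      (L * δ) * |(r + δ / 2) - (r - δ / 2)| := by
    apply intervalIntegral.norm_integral_le_of_norm_le_const
    intro z hz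
    rw [uIoc_of_le (by linarith)] at hz
    rw [Real.norm_eq_abs]
    refine (hL z r).trans ?_
    gcongr
    rw [abs_le]; constructor <;> linarith [hz.1, hz.2]
  rw [Real.norm_eq_abs] at this
  have e : |(r + δ / 2) - (r - δ / 2)| = δ := by
    rw [show (r + δ / 2) - (r - δ / 2) = δ by ring, abs_of_pos hδ]
  rwa [e] at this

lemma avg_nonneg {δ : ℝ} (hδ : 0 < δ) {f : ℝ → ℝ} (h : ∀ r, 0 ≤ f r) (r : ℝ) :
    0 ≤ avg δ f r := by
  unfold avg
  apply div_nonneg _ hδ.le
  exact intervalIntegral.integral_nonneg (by linarith) (fun z _ => h z)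

lemma avg_le_one {δ : ℝ} (hδ : 0 < δ) {f : ℝ → ℝ} (hf : Continuous f) (h : ∀ r, f r ≤ 1)
    (r : ℝ) : avg δ f r ≤ 1 := by
  unfold avg
  rw [div_le_one hδ]
  calc _ ≤ ∫ z in (r - δ / 2)..(r + δ / 2), (1 : ℝ) :=
        intervalIntegral.integral_mono_on (by linarith) (hf.intervalIntegrable _ _) (by simp)
          (fun z _ => h z)
    _ = δ := by simp

lemma avg_periodic {δ : ℝ} {f : ℝ → ℝ} (h : Function.Periodic f 1) :
    Function.Periodic (avg δ f) 1 := by
  intro r
  unfold avg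
  congr 1
  have : ∫ z in (r + 1 - δ / 2)..(r + 1 + δ / 2), f z =
      ∫ z in (r - δ / 2)..(r + δ / 2), f (z + 1) := by
    rw [intervalIntegral.integral_comp_add_right]
    congr 1 <;> ring
  rw [this]
  congr 1
  ext z
  exact h z

lemma avg_lip {δ : ℝ} (hδ : 0 < δ) {f : ℝ → ℝ} (hf : Continuous f) {L : ℝ}
    (hL : ∀ r r', |f r - f r'| ≤ L * |r - r'|) (r r' : ℝ) :
    |avg δ f r - avg δ f r'| ≤ L * |r - r'| := by
  have hd : ∀ z ∈ (Set.univ : Set ℝ), HasDerivWithinAt (avg δ f)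
      ((f (z + δ / 2) - f (z - δ / 2)) / δ) Set.univ z :=
    fun z _ => (hasDerivAt_avg hf z).hasDerivWithinAt
  have hb : ∀ z ∈ (Set.univ : Set ℝ), ‖(f (z + δ / 2) - f (z - δ / 2)) / δ‖ ≤ L := by
    intro z _
    rw [norm_div, Real.norm_eq_abs, Real.norm_eq_abs, abs_of_pos hδ, div_le_iff₀ hδ]
    refine (hL _ _).trans ?_
    rw [show z + δ / 2 - (z - δ / 2) = δ by ring, abs_of_pos hδ]
  have := Convex.norm_image_sub_le_of_norm_hasDerivWithin_le hd hb convex_univ
    (mem_univ r') (mem_univ r)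
  simpa [Real.norm_eq_abs] using this

/-- the smoothed triangular wave -/
noncomputable def prof (δ : ℝ) : ℝ → ℝ := avg δ (avg δ tri)

/-- its second derivative -/
noncomputable def prof'' (δ r : ℝ) : ℝ :=
  ((tri (r + δ / 2 + δ / 2) - tri (r + δ / 2 - δ / 2)) / δ -
    (tri (r - δ / 2 + δ / 2) - tri (r - δ / 2 - δ / 2)) / δ) / δ

lemma prof_continuous (δ : ℝ) : Continuous (prof δ) := avg_continuous (avg_continuous tri_continuous)

lemma deriv_prof (δ : ℝ) :
    deriv (prof δ) = fun r => (avg δ tri (r + δ / 2) - avg δ tri (r - δ / 2)) / δ :=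
  deriv_avg (avg_continuous tri_continuous)

lemma hasDerivAt_deriv_prof (δ r : ℝ) : HasDerivAt (deriv (prof δ)) (prof'' δ r) r := by
  rw [deriv_prof]
  have h1 := (hasDerivAt_avg (δ := δ) tri_continuous (r + δ / 2)).comp_add_const r (δ / 2)
  have h2 := (hasDerivAt_avg (δ := δ) tri_continuous (r - δ / 2)).comp_sub_const r (δ / 2)
  exact (h1.sub h2).div_const δ

lemma prof''_continuous (δ : ℝ) : Continuous (prof'' δ) := by
  unfold prof''
  have := tri_continuous
  fun_prop

lemma deriv2_prof (δ : ℝ) : deriv (deriv (prof δ)) = prof'' δ := by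
  ext r; exact (hasDerivAt_deriv_prof δ r).deriv

lemma contDiff_prof (δ : ℝ) : ContDiff ℝ 2 (prof δ) := by
  rw [show (2 : ℕ∞ω) = 1 + 1 by norm_num, contDiff_succ_iff_deriv]
  refine ⟨fun r => (hasDerivAt_avg (avg_continuous tri_continuous) r).differentiableAt,
    by simp, ?_⟩
  rw [contDiff_one_iff_deriv]
  refine ⟨fun r => (hasDerivAt_deriv_prof δ r).differentiableAt, ?_⟩
  rw [deriv2_prof]
  exact prof''_continuous δ

lemma prof_nonneg {δ : ℝ} (hδ : 0 < δ) (r : ℝ) : 0 ≤ prof δ r :=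
  avg_nonneg hδ (avg_nonneg hδ tri_nonneg) r

lemma prof_le_one {δ : ℝ} (hδ : 0 < δ) (r : ℝ) : prof δ r ≤ 1 :=
  avg_le_one hδ (avg_continuous tri_continuous) (avg_le_one hδ tri_continuous tri_le_one) r

lemma prof_periodic (δ : ℝ) : Function.Periodic (prof δ) 1 :=
  avg_periodic (avg_periodic tri_periodic)

lemma abs_deriv_prof_le {δ : ℝ} (hδ : 0 < δ) (r : ℝ) : |deriv (prof δ) r| ≤ 2 := by
  rw [deriv_prof]
  simp only
  rw [abs_div, abs_of_pos hδ, div_le_iff₀ hδ]
  refine (avg_lip hδ tri_continuous tri_lip _ _).trans ?_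
  rw [show r + δ / 2 - (r - δ / 2) = δ by ring, abs_of_pos hδ]

lemma abs_deriv2_prof_le {δ : ℝ} (hδ : 0 < δ) (r : ℝ) : |deriv (deriv (prof δ)) r| ≤ 4 / δ := by
  rw [deriv2_prof]
  unfold prof''
  rw [abs_div, abs_of_pos hδ]
  apply div_le_div_of_nonneg_right _ hδ.le
  have h1 : ∀ z, |(tri (z + δ / 2) - tri (z - δ / 2)) / δ| ≤ 2 := by
    intro z
    rw [abs_div, abs_of_pos hδ, div_le_iff₀ hδ]
    refine (tri_lip _ _).trans ?_
    rw [show z + δ / 2 - (z - δ / 2) = δ by ring, abs_of_pos hδ]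
  have h2 := h1 (r + δ / 2)
  have h3 := h1 (r - δ / 2)
  calc _ ≤ |(tri (r + δ / 2 + δ / 2) - tri (r + δ / 2 - δ / 2)) / δ| +
        |(tri (r - δ / 2 + δ / 2) - tri (r - δ / 2 - δ / 2)) / δ| := abs_sub _ _
    _ ≤ 4 := by linarith

lemma prof_sub_tri_le {δ : ℝ} (hδ : 0 < δ) (r : ℝ) : |prof δ r - tri r| ≤ 4 * δ := by
  have h1 := avg_sub_le hδ (avg_continuous (δ := δ) tri_continuous)
    (avg_lip hδ tri_continuous tri_lip) r
  have h2 := avg_sub_le hδ tri_continuous tri_lip r
  calc |prof δ r - tri r| = |(prof δ r - avg δ tri r) + (avg δ tri r - tri r)| := by ring_nf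
    _ ≤ |prof δ r - avg δ tri r| + |avg δ tri r - tri r| := abs_add_le _ _
    _ ≤ 2 * δ + 2 * δ := add_le_add h1 h2
    _ = 4 * δ := by ring

end Pool.Agent.Lib_helper9.Parab
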