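import Pool.Agent.Lib_helper9.Parab.Stage

/-!
# The rest phase of one cycle
-/

open MeasureTheory Set
open scoped ContDiff

namespace Pool.Agent.Lib_helper9.Parab

variable {d : ℕ} {T : ℝ} {b : ℝ → (Fin d → ℝ) → (Fin d → ℝ)} {β : ℝ → ℝ}
  {φ : ℝ → (Fin d → ℝ) → ℝ}

/-- partial derivatives of functions of one coordinate -/
lemma pd_comp_coord {g g' : ℝ → ℝ} (hg : ∀ r, HasDerivAt g (g' r) r) (i k : Fin d)
    (x : Fin d → ℝ) : pd k (fun y : Fin d → ℝ => g (y i)) x = if k = i then g' (x i) else 0 := by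
  have h1 : HasFDerivAt (fun y : Fin d → ℝ => y i)
      (ContinuousLinearMap.proj (R := ℝ) (φ := fun _ : Fin d => ℝ) i) x := hasFDerivAt_apply i x
  have h2 := (hg (x i)).comp_hasFDerivAt x h1
  unfold pd
  have h3 : fderiv ℝ (fun y : Fin d → ℝ => g (y i)) x =
      g' (x i) • (ContinuousLinearMap.proj (R := ℝ) (φ := fun _ : Fin d => ℝ) i) := h2.fderiv
  rw [h3]
  simp only [_root_.smul_apply, ContinuousLinearMap.proj_apply, smul_eq_mul]
  by_cases h : k = i
  · subst h; simp
  · rw [Pi.single_eq_of_ne (Ne.symm h)]; simp [h]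

lemma isPeriodic_coord {g : ℝ → ℝ} (hg : Function.Periodic g 1) (i : Fin d) :
    IsPeriodic (fun x : Fin d → ℝ => g (x i)) := by
  intro k x
  have := hg.int_mul (k i) (x i)
  simpa using this

lemma periodic_cos (N : ℕ) : Function.Periodic (fun r : ℝ => Real.cos (2 * Real.pi * N * r)) 1 := by
  intro r
  simp only
  rw [show 2 * Real.pi * N * (r + 1) = 2 * Real.pi * N * r + N * (2 * Real.pi) by ring,
    Real.cos_add_nat_mul_two_pi]

lemma periodic_sin (N : ℕ) : Function.Periodic (fun r : ℝ => Real.sin (2 * Real.pi * N * r)) 1 := by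
  intro r
  simp only
  rw [show 2 * Real.pi * N * (r + 1) = 2 * Real.pi * N * r + N * (2 * Real.pi) by ring,
    Real.sin_add_nat_mul_two_pi]

lemma hasDerivAt_sin_div {c : ℝ} (hc : c ≠ 0) (r : ℝ) :
    HasDerivAt (fun r => Real.sin (c * r) / c) (Real.cos (c * r)) r := by
  have a1 : HasDerivAt (fun r : ℝ => c * r) c r := by
    simpa using (hasDerivAt_id r).const_mul c
  exact (((Real.hasDerivAt_sin (c * r)).comp r a1).div_const c).congr_deriv (by field_simp)

lemma integral_cos_cell {N : ℕ} (hN : 0 < N) (i : Fin d) :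
    ∫ x in cell d, Real.cos (2 * Real.pi * N * x i) = 0 := by
  have hc : (2 * Real.pi * N : ℝ) ≠ 0 := by positivity
  have h := integral_pd_eq_zero i (F := fun x : Fin d → ℝ =>
    Real.sin (2 * Real.pi * N * x i) / (2 * Real.pi * N)) (by fun_prop)
    (isPeriodic_coord (g := fun r => Real.sin (2 * Real.pi * N * r) / (2 * Real.pi * N))
      (fun r => by
        have := periodic_sin N r
        simp only at this ⊢
        rw [this]) i)
  rw [← h]
  congr 1
  ext x
  rw [pd_comp_coord (g := fun r => Real.sin (2 * Real.pi * N * r) / (2 * Real.pi * N))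
    (hasDerivAt_sin_div hc) i i x]
  simp

lemma integral_cos_sq_cell {N : ℕ} (hN : 0 < N) (i : Fin d) :
    ∫ x in cell d, Real.cos (2 * Real.pi * N * x i) ^ 2 = 1 / 2 := by
  have h1 := integral_cos_cell (d := d) (N := 2 * N) (by omega) i
  have h2 : ∀ x : Fin d → ℝ, Real.cos (2 * Real.pi * N * x i) ^ 2 =
      1 / 2 + (1 / 2) * Real.cos (2 * Real.pi * (2 * N : ℕ) * x i) := by
    intro x
    rw [Real.cos_sq]
    push_cast
    rw [show 2 * (2 * Real.pi * N * x i) = 2 * Real.pi * (2 * N) * x i by ring]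
    ring
  simp only [h2]
  rw [integral_add (integrable_const _) ((integrableOn_cell (by fun_prop)).const_mul _),
    integral_const_mul, h1, setIntegral_const, Measure.real, volume_cell]
  simp

/-- the `L¹(T^d)` norm of `L^*φ(t) - G(t)` -/
noncomputable def emass (b : ℝ → (Fin d → ℝ) → (Fin d → ℝ)) (φ : ℝ → (Fin d → ℝ) → ℝ)
    (G : ℝ → (Fin d → ℝ) → ℝ) (t : ℝ) : ℝ :=
  ∫ x in cell d, |Lstar b φ t x - G t x|

lemma emass_nonneg (G : ℝ → (Fin d → ℝ) → ℝ) (t : ℝ) : 0 ≤ emass b φ G t :=
  integral_nonneg fun _ => abs_nonneg _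

lemma integrable_Gst {G : ℝ → (Fin d → ℝ) → ℝ}
    (hG : Continuous (fun z : ℝ × (Fin d → ℝ) => G z.1 z.2)) :
    Integrable (fun z : ℝ × (Fin d → ℝ) => G z.1 z.2) (volume.restrict (stCell d T)) := by
  have : IntegrableOn (fun z : ℝ × (Fin d → ℝ) => G z.1 z.2) (Set.Icc 0 T ×ˢ cell d) :=
    hG.continuousOn.integrableOn_compact (isCompact_Icc.prod isCompact_cell)
  exact this.mono_set (Set.prod_mono Ioo_subset_Icc_self le_rfl)

lemma integrableOn_emass (hb : IsField T b β) (hφ : IsTest d T φ) {G : ℝ → (Fin d → ℝ) → ℝ}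
    (hG : Continuous (fun z : ℝ × (Fin d → ℝ) => G z.1 z.2)) :
    IntegrableOn (emass b φ G) (Set.Ioo 0 T) := by
  have h := ((integrable_Lstar hb hφ).sub (integrable_Gst hG)).norm
  rw [volume_stCell] at h
  exact h.integral_prod_left

lemma integrableOn_emass_Icc (hb : IsField T b β) (hφ : IsTest d T φ) {G : ℝ → (Fin d → ℝ) → ℝ}
    (hG : Continuous (fun z : ℝ × (Fin d → ℝ) => G z.1 z.2)) {t₀ t₁ : ℝ} (h0 : 0 ≤ t₀)
    (h1 : t₁ ≤ T) : IntegrableOn (emass b φ G) (Set.Icc t₀ t₁) := by
  rw [integrableOn_Icc_iff_integrableOn_Ioo]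
  exact (integrableOn_emass hb hφ hG).mono_set (Ioo_subset_Ioo h0 h1)

lemma rest_estimate (hb : IsField T b β) (hφ : IsTest d T φ) {G : ℝ → (Fin d → ℝ) → ℝ}
    (hG : Continuous (fun z : ℝ × (Fin d → ℝ) => G z.1 z.2)) {N : ℕ} (hN : 0 < N) {i₀ : Fin d}
    {s₀ s₁ lam : ℝ} (h0 : 0 ≤ s₀) (h01 : s₀ ≤ s₁) (h1 : s₁ ≤ T) {χ : ℝ → ℝ} (cχ : Continuous χ)
    (hbt : ∀ t ∈ Set.Ioo s₀ s₁, ∀ x, b t x = 0)
    (hGt : ∀ t ∈ Set.Ioo s₀ s₁, ∀ x, G t x = lam * (χ t * Real.cos (2 * Real.pi * N * x i₀))) :
    |lam / 2 * ∫ t in s₀..s₁, χ t * Real.exp (-((2 * Real.pi * N) ^ 2 * (t - s₀)))| ≤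
      (∫ t in s₀..s₁, emass b φ G t) +
      Real.exp (-((2 * Real.pi * N) ^ 2 * (s₁ - s₀))) * (∫ x in cell d, |φ s₁ x|) +
      |∫ x in cell d, φ s₀ x * Real.cos (2 * Real.pi * N * x i₀)| := by
  set μ : ℝ := (2 * Real.pi * N) ^ 2 with hμ
  set ex : ℝ → ℝ := fun t => Real.exp (-(μ * (t - s₀))) with hex
  set V : ℝ × (Fin d → ℝ) → ℝ := fun z => ex z.1 * Real.cos (2 * Real.pi * N * z.2 i₀) with hV
  have cV : ContDiff ℝ 2 V := by
    rw [hV, hex]
    fun_prop
  have cex : Continuous ex := by rw [hex]; fun_prop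
  have pcos : IsPeriodic (fun x : Fin d → ℝ => Real.cos (2 * Real.pi * N * x i₀)) :=
    isPeriodic_coord (periodic_cos N) i₀
  have pV : ∀ t, IsPeriodic fun x => V (t, x) := by
    intro t k x
    have := pcos k x
    simp only [hV] at this ⊢
    rw [this]
  have hdex : ∀ t, HasDerivAt ex (-(μ * ex t)) t := by
    intro t
    have a1 : HasDerivAt (fun t : ℝ => -(μ * (t - s₀))) (-μ) t := by
      have := (((hasDerivAt_id t).sub_const s₀).const_mul μ).neg
      exact this.congr_deriv (by simp)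
    exact ((Real.hasDerivAt_exp _).comp t a1).congr_deriv (by rw [hex]; ring)
  have hlapV : ∀ t x, lap (fun y => V (t, y)) x = -(μ * V (t, x)) := by
    intro t x
    have hH : ContDiff ℝ 2 (fun y : Fin d → ℝ => V (t, y)) := contDiff_slice cV t
    unfold lap
    have g1 : ∀ r, HasDerivAt (fun r => ex t * Real.cos (2 * Real.pi * N * r))
        (ex t * -(2 * Real.pi * N * Real.sin (2 * Real.pi * N * r))) r := fun r =>
      (hasDerivAt_cos_mul (2 * Real.pi * N) r).const_mul (ex t)
    have g2 : ∀ r, HasDerivAt (fun r => ex t * -(2 * Real.pi * N * Real.sin (2 * Real.pi * N * r)))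
        (ex t * -((2 * Real.pi * N) ^ 2 * Real.cos (2 * Real.pi * N * r))) r := fun r =>
      (hasDerivAt_neg_sin_mul (2 * Real.pi * N) r).const_mul (ex t)
    rw [Finset.sum_eq_single i₀]
    · have e1 : pd i₀ (fun y => V (t, y)) = fun y =>
          ex t * -(2 * Real.pi * N * Real.sin (2 * Real.pi * N * y i₀)) := by
        ext y
        have := pd_comp_coord g1 i₀ i₀ y
        simpa using this
      rw [e1, pd_comp_coord g2 i₀ i₀ x]
      simp only [if_true, hV, hμ]
      ring
    · intro k _ hk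
      have e1 : pd k (fun y => V (t, y)) = fun y => 0 := by
        ext y
        have := pd_comp_coord g1 i₀ k y
        simpa [hk] using this
      rw [e1]
      simp [pd]
    · intro h; exact absurd (Finset.mem_univ _) h
  have hdV : ∀ t x, deriv (fun s => V (s, x)) t = -(μ * V (t, x)) := by
    intro t x
    have := (hdex t).mul_const (Real.cos (2 * Real.pi * N * x i₀))
    rw [this.deriv, hV]; ring
  set Y : ℝ → ℝ := fun t => (∫ x in cell d, φ t x * V (t, x)) -
    lam / 2 * ∫ r in s₀..t, χ r * ex r with hY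
  have hYd : ∀ t, HasDerivAt Y ((∫ x in cell d, (Lstar b φ t x * V (t, x) +
        φ t x * (deriv (fun s => V (s, x)) t + ∑ i, b t x i * pd i (fun y => V (t, y)) x -
          lap (fun y => V (t, y)) x))) - lam / 2 * (χ t * ex t)) t := by
    intro t
    have h1 := hasDerivAt_pairing hb hφ cV pV t
    have h2 : HasDerivAt (fun t => ∫ r in s₀..t, χ r * ex r) (χ t * ex t) t :=
      intervalIntegral.integral_hasDerivAt_right ((cχ.mul cex).intervalIntegrable _ _)
        ((cχ.mul cex).stronglyMeasurableAtFilter _ _) (cχ.mul cex).continuousAt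
    exact h1.sub (h2.const_mul (lam / 2))
  have hV1 : ∀ t ∈ Set.Icc s₀ s₁, ∀ x, |V (t, x)| ≤ 1 := by
    intro t ht x
    simp only [hV, abs_mul]
    have h1 : |ex t| ≤ 1 := by
      rw [hex, Real.abs_exp]
      apply Real.exp_le_one_iff.mpr
      have : 0 ≤ μ * (t - s₀) := mul_nonneg (by positivity) (by linarith [ht.1])
      linarith
    have h2 := Real.abs_cos_le_one (2 * Real.pi * N * x i₀)
    calc |ex t| * |Real.cos (2 * Real.pi * N * x i₀)| ≤ 1 * 1 := by gcongr
      _ = 1 := one_mul _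
  have main := abs_sub_le_of_deriv h01 hYd (integrableOn_emass_Icc hb hφ hG h0 h1) (c := 0) (by
    intro t ht
    have htT : t ∈ Set.Icc 0 T := ⟨h0.trans ht.1.le, ht.2.le.trans h1⟩
    have iL := integrableOn_Lstar_slice hb hφ htT
    have e1 : ∀ x, Lstar b φ t x * V (t, x) +
        φ t x * (deriv (fun s => V (s, x)) t + ∑ i, b t x i * pd i (fun y => V (t, y)) x -
          lap (fun y => V (t, y)) x) = Lstar b φ t x * V (t, x) := by
      intro x
      rw [hdV, hlapV, hbt t ht x]
      simp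
    simp only [e1]
    have hcs : (∫ x in cell d, (lam * (χ t * Real.cos (2 * Real.pi * N * x i₀))) * V (t, x)) =
        lam / 2 * (χ t * ex t) := by
      have : ∀ x : Fin d → ℝ, (lam * (χ t * Real.cos (2 * Real.pi * N * x i₀))) * V (t, x) =
          (lam * χ t * ex t) * Real.cos (2 * Real.pi * N * x i₀) ^ 2 := by
        intro x; simp only [hV]; ring
      simp only [this]
      rw [integral_const_mul, integral_cos_sq_cell hN i₀]
      ring
    have cVt : Continuous (fun x => V (t, x)) := (contDiff_slice cV t).continuous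
    have iLV : IntegrableOn (fun x => Lstar b φ t x * V (t, x)) (cell d) := by
      refine iL.norm.mono' ?_ ?_
      · exact (iL.1.mul cVt.aestronglyMeasurable)
      · filter_upwards with x
        rw [norm_mul]
        calc _ ≤ ‖Lstar b φ t x‖ * 1 := by
              gcongr
              exact hV1 t ⟨ht.1.le, ht.2.le⟩ x
          _ = _ := mul_one _
    have iGV : IntegrableOn (fun x => (lam * (χ t * Real.cos (2 * Real.pi * N * x i₀))) *
        V (t, x)) (cell d) := integrableOn_cell (by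
          refine Continuous.mul ?_ cVt
          fun_prop)
    rw [← hcs, ← integral_sub iLV iGV, add_zero]
    refine abs_integral_le_integral_abs.trans ?_
    have cGt : Continuous (fun x => G t x) := hG.comp (f := fun x => (t, x)) (by fun_prop)
    apply integral_mono_of_nonneg
    · filter_upwards with x; exact abs_nonneg _
    · exact (iL.sub (integrableOn_cell cGt)).norm
    · filter_upwards with x
      rw [← hGt t ht x, ← sub_mul, abs_mul]
      calc _ ≤ |Lstar b φ t x - G t x| * 1 := by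
            gcongr
            exact hV1 t ⟨ht.1.le, ht.2.le⟩ x
        _ = _ := mul_one _)
  -- end point values
  have e0 : Y s₀ = ∫ x in cell d, φ s₀ x * Real.cos (2 * Real.pi * N * x i₀) := by
    simp only [hY, intervalIntegral.integral_same, mul_zero, sub_zero]
    congr 1
    ext x
    simp [hV, hex]
  have hφV : |∫ x in cell d, φ s₁ x * V (s₁, x)| ≤ ex s₁ * ∫ x in cell d, |φ s₁ x| := by
    rw [← integral_const_mul]
    refine abs_integral_le_integral_abs.trans ?_
    apply integral_mono_of_nonneg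
    · filter_upwards with x; exact abs_nonneg _
    · exact (integrableOn_cell (continuous_abs.comp (hφ.slice s₁).continuous)).const_mul _
    · filter_upwards with x
      simp only [hV, abs_mul, hex, Real.abs_exp]
      have h2 := Real.abs_cos_le_one (2 * Real.pi * N * x i₀)
      calc |φ s₁ x| * (Real.exp (-(μ * (s₁ - s₀))) * |Real.cos (2 * Real.pi * N * x i₀)|) ≤
          |φ s₁ x| * (Real.exp (-(μ * (s₁ - s₀))) * 1) := by gcongr
        _ = _ := by ring
  have e1 : Y s₁ = (∫ x in cell d, φ s₁ x * V (s₁, x)) -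
    lam / 2 * ∫ r in s₀..s₁, χ r * ex r := rfl
  rw [zero_mul, add_zero, e0, e1] at main
  set P := ∫ x in cell d, φ s₁ x * V (s₁, x)
  set R := ∫ x in cell d, φ s₀ x * Real.cos (2 * Real.pi * N * x i₀)
  set K := lam / 2 * ∫ r in s₀..s₁, χ r * ex r
  have h3 : |K| ≤ |P - K - R| + |P| + |R| := by
    have : K = -(P - K - R) + P - R := by ring
    calc |K| = |-(P - K - R) + P - R| := by rw [← this]
      _ ≤ |-(P - K - R) + P| + |R| := abs_sub _ _
      _ ≤ |-(P - K - R)| + |P| + |R| := by gcongr; exact abs_add_le _ _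
      _ = _ := by rw [abs_neg]
  linarith

end Pool.Agent.Lib_helper9.Parab
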