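import Pool.Agent.Lib_helper9.Parab.Profile

/-!
# One shear step for functions of two variables
-/

open MeasureTheory Set
open scoped ContDiff

namespace Pool.Agent.Lib_helper9.Parab

/-- derivative in the first variable -/
noncomputable def Dp (F : ℝ × ℝ → ℝ) (z : ℝ × ℝ) : ℝ := fderiv ℝ F z (1, 0)

/-- derivative in the second variable -/
noncomputable def Dq (F : ℝ × ℝ → ℝ) (z : ℝ × ℝ) : ℝ := fderiv ℝ F z (0, 1)

lemma contDiff_Dp {F : ℝ × ℝ → ℝ} {m n : ℕ∞ω} (hF : ContDiff ℝ n F) (h : m + 1 ≤ n) :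
    ContDiff ℝ m (Dp F) := (hF.fderiv_right h).clm_apply contDiff_const

lemma contDiff_Dq {F : ℝ × ℝ → ℝ} {m n : ℕ∞ω} (hF : ContDiff ℝ n F) (h : m + 1 ≤ n) :
    ContDiff ℝ m (Dq F) := (hF.fderiv_right h).clm_apply contDiff_const

/-- the shear (with exchange of the variables) -/
def shear (S : ℝ → ℝ) (z : ℝ × ℝ) : ℝ × ℝ := (z.2 + S z.1, z.1)

/-- transport of `F` by the shear -/
def next (S : ℝ → ℝ) (F : ℝ × ℝ → ℝ) (z : ℝ × ℝ) : ℝ := F (shear S z)

/-- `F` is `C²`, periodic, bounded by `1`, with first derivatives bounded by `D` and second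
derivatives bounded by `E` -/
structure Bd (F : ℝ × ℝ → ℝ) (D E : ℝ) : Prop where
  smooth : ContDiff ℝ 2 F
  per1 : ∀ p q, F (p + 1, q) = F (p, q)
  per2 : ∀ p q, F (p, q + 1) = F (p, q)
  le_one : ∀ z, |F z| ≤ 1
  dp : ∀ z, |Dp F z| ≤ D
  dq : ∀ z, |Dq F z| ≤ D
  dpp : ∀ z, |Dp (Dp F) z| ≤ E
  dqp : ∀ z, |Dq (Dp F) z| ≤ E
  dpq : ∀ z, |Dp (Dq F) z| ≤ E
  dqq : ∀ z, |Dq (Dq F) z| ≤ E

/-- bounds on the shear profile -/
structure ShearBd (S : ℝ → ℝ) (κ κ' : ℝ) : Prop where
  smooth : ContDiff ℝ 2 S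
  per : Function.Periodic S 1
  d1 : ∀ r, |deriv S r| ≤ κ
  d2 : ∀ r, |deriv (deriv S) r| ≤ κ'

lemma hasFDerivAt_shear {S : ℝ → ℝ} (hS : Differentiable ℝ S) (z : ℝ × ℝ) :
    HasFDerivAt (shear S) ((ContinuousLinearMap.snd ℝ ℝ ℝ +
      (deriv S z.1) • ContinuousLinearMap.fst ℝ ℝ ℝ).prod (ContinuousLinearMap.fst ℝ ℝ ℝ)) z := by
  have h1 : HasFDerivAt (fun z : ℝ × ℝ => S z.1)
      ((deriv S z.1) • ContinuousLinearMap.fst ℝ ℝ ℝ) z :=
    (hS z.1).hasDerivAt.comp_hasFDerivAt z hasFDerivAt_fst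
  exact (hasFDerivAt_snd.add h1).prodMk hasFDerivAt_fst

lemma contDiff_shear {S : ℝ → ℝ} {n : ℕ∞ω} (hS : ContDiff ℝ n S) : ContDiff ℝ n (shear S) :=
  (contDiff_snd.add (hS.comp contDiff_fst)).prodMk contDiff_fst

lemma Dp_next {S : ℝ → ℝ} {F : ℝ × ℝ → ℝ} (hS : Differentiable ℝ S) (hF : Differentiable ℝ F)
    (z : ℝ × ℝ) :
    Dp (next S F) z = deriv S z.1 * Dp F (shear S z) + Dq F (shear S z) := by
  have h := (hF (shear S z)).hasFDerivAt.comp z (hasFDerivAt_shear hS z)
  have h2 : fderiv ℝ (next S F) z = _ := h.fderiv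
  unfold Dp Dq
  rw [h2]
  simp only [ContinuousLinearMap.comp_apply, ContinuousLinearMap.prod_apply,
    _root_.add_apply, _root_.smul_apply, ContinuousLinearMap.coe_fst',
    ContinuousLinearMap.coe_snd', smul_eq_mul, mul_one, zero_add]
  have h3 : ((deriv S z.1, 1) : ℝ × ℝ) = deriv S z.1 • ((1, 0) : ℝ × ℝ) + (0, 1) := by
    ext <;> simp
  rw [h3, map_add, map_smul, smul_eq_mul]

lemma Dq_next {S : ℝ → ℝ} {F : ℝ × ℝ → ℝ} (hS : Differentiable ℝ S) (hF : Differentiable ℝ F)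
    (z : ℝ × ℝ) : Dq (next S F) z = Dp F (shear S z) := by
  have h := (hF (shear S z)).hasFDerivAt.comp z (hasFDerivAt_shear hS z)
  have h2 : fderiv ℝ (next S F) z = _ := h.fderiv
  unfold Dp Dq
  rw [h2]
  simp

lemma ShearBd.smul {S : ℝ → ℝ} {κ κ' θ : ℝ} (hS : ShearBd S κ κ') (h0 : 0 ≤ θ) (h1 : θ ≤ 1) :
    ShearBd (fun r => θ * S r) κ κ' := by
  have hd : ∀ r, deriv (fun r => θ * S r) r = θ * deriv S r := fun r =>
    deriv_const_mul θ (hS.smooth.differentiable two_ne_zero r)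
  have hd' : deriv (fun r => θ * S r) = fun r => θ * deriv S r := funext hd
  have hSd : ContDiff ℝ 1 (deriv S) := by
    have := hS.smooth
    rw [show (2 : ℕ∞ω) = 1 + 1 by norm_num, contDiff_succ_iff_deriv] at this
    exact this.2.2
  refine ⟨contDiff_const.mul hS.smooth, fun r => by simp only [hS.per r], fun r => ?_, fun r => ?_⟩
  · rw [hd, abs_mul, abs_of_nonneg h0]
    calc θ * |deriv S r| ≤ 1 * κ :=
          mul_le_mul h1 (hS.d1 r) (abs_nonneg _) zero_le_one
      _ = κ := one_mul _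
  · rw [hd', deriv_const_mul θ (hSd.differentiable one_ne_zero r), abs_mul, abs_of_nonneg h0]
    calc θ * |deriv (deriv S) r| ≤ 1 * κ' :=
          mul_le_mul h1 (hS.d2 r) (abs_nonneg _) zero_le_one
      _ = κ' := one_mul _

/-- the shear step -/
lemma Bd.next {F : ℝ × ℝ → ℝ} {D E κ κ' : ℝ} {S : ℝ → ℝ} (hF : Bd F D E)
    (hS : ShearBd S κ κ') :
    Bd (next S F) (D * (1 + κ)) (κ' * D + E * (1 + κ) ^ 2) := by
  have hSd : ContDiff ℝ 1 (deriv S) := by
    have := hS.smooth
    rw [show (2 : ℕ∞ω) = 1 + 1 by norm_num, contDiff_succ_iff_deriv] at this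
    exact this.2.2
  have dS : Differentiable ℝ S := hS.smooth.differentiable two_ne_zero
  have dS' : Differentiable ℝ (deriv S) := hSd.differentiable one_ne_zero
  have dF : Differentiable ℝ F := hF.smooth.differentiable two_ne_zero
  have cFp : ContDiff ℝ 1 (Dp F) := contDiff_Dp hF.smooth (by norm_num)
  have cFq : ContDiff ℝ 1 (Dq F) := contDiff_Dq hF.smooth (by norm_num)
  have dFp : Differentiable ℝ (Dp F) := cFp.differentiable one_ne_zero
  have dFq : Differentiable ℝ (Dq F) := cFq.differentiable one_ne_zero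
  have κ0 : 0 ≤ κ := (abs_nonneg _).trans (hS.d1 0)
  have κ'0 : 0 ≤ κ' := (abs_nonneg _).trans (hS.d2 0)
  have D0 : 0 ≤ D := (abs_nonneg _).trans (hF.dp 0)
  have E0 : 0 ≤ E := (abs_nonneg _).trans (hF.dpp 0)
  have e1 : Dp (Parab.next S F) = fun z => deriv S z.1 * Parab.next S (Dp F) z +
      Parab.next S (Dq F) z := funext fun z => Dp_next dS dF z
  have e2 : Dq (Parab.next S F) = Parab.next S (Dp F) := funext fun z => Dq_next dS dF z
  have dnp : Differentiable ℝ (Parab.next S (Dp F)) :=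
    dFp.comp ((contDiff_shear hS.smooth).differentiable two_ne_zero)
  have dnq : Differentiable ℝ (Parab.next S (Dq F)) :=
    dFq.comp ((contDiff_shear hS.smooth).differentiable two_ne_zero)
  -- derivative of the coefficient
  have hcoef : ∀ z : ℝ × ℝ, HasFDerivAt (fun z : ℝ × ℝ => deriv S z.1)
      ((deriv (deriv S) z.1) • ContinuousLinearMap.fst ℝ ℝ ℝ) z := fun z =>
    (dS' z.1).hasDerivAt.comp_hasFDerivAt z hasFDerivAt_fst
  have hfd : ∀ z, fderiv ℝ (fun z : ℝ × ℝ => deriv S z.1 * Parab.next S (Dp F) z +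
      Parab.next S (Dq F) z) z =
      (deriv S z.1 • fderiv ℝ (Parab.next S (Dp F)) z +
        Parab.next S (Dp F) z • ((deriv (deriv S) z.1) • ContinuousLinearMap.fst ℝ ℝ ℝ)) +
        fderiv ℝ (Parab.next S (Dq F)) z := by
    intro z
    exact (((hcoef z).mul (dnp z).hasFDerivAt).add (dnq z).hasFDerivAt).fderiv
  have hE2 : E ≤ κ' * D + E * (1 + κ) ^ 2 := by
    have := mul_nonneg κ'0 D0
    have := mul_nonneg κ0 E0
    have := mul_nonneg (mul_nonneg κ0 κ0) E0
    nlinarith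
  have hE1 : κ * E + E ≤ κ' * D + E * (1 + κ) ^ 2 := by
    have := mul_nonneg κ'0 D0
    have := mul_nonneg κ0 E0
    have := mul_nonneg (mul_nonneg κ0 κ0) E0
    nlinarith
  have hd1 := hS.d1
  have hd2 := hS.d2
  refine ⟨?_, ?_, ?_, ?_, ?_, ?_, ?_, ?_, ?_, ?_⟩
  · exact hF.smooth.comp (contDiff_shear hS.smooth)
  · intro p q
    show F (q + S (p + 1), p + 1) = F (q + S p, p)
    rw [hS.per p, hF.per2]
  · intro p q
    show F (q + 1 + S p, p) = F (q + S p, p)
    rw [show q + 1 + S p = (q + S p) + 1 by ring, hF.per1]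
  · intro z; exact hF.le_one _
  · intro z
    rw [Dp_next dS dF]
    calc _ ≤ |deriv S z.1 * Dp F (shear S z)| + |Dq F (shear S z)| := abs_add_le _ _
      _ ≤ κ * D + D := by
          rw [abs_mul]
          gcongr
          · exact hd1 _
          · exact hF.dp _
          · exact hF.dq _
      _ = D * (1 + κ) := by ring
  · intro z
    rw [Dq_next dS dF]
    calc _ ≤ D * 1 := by rw [mul_one]; exact hF.dp _
      _ ≤ D * (1 + κ) := by gcongr; linarith
  · intro z
    rw [e1]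
    show |fderiv ℝ (fun z : ℝ × ℝ => deriv S z.1 * Parab.next S (Dp F) z +
      Parab.next S (Dq F) z) z (1, 0)| ≤ _
    rw [hfd]
    simp only [_root_.add_apply, _root_.smul_apply,
      ContinuousLinearMap.coe_fst', smul_eq_mul, mul_one]
    have h1 : fderiv ℝ (Parab.next S (Dp F)) z (1, 0) = _ := Dp_next dS dFp z
    have h2 : fderiv ℝ (Parab.next S (Dq F)) z (1, 0) = _ := Dp_next dS dFq z
    rw [h1, h2]
    show |deriv S z.1 * (deriv S z.1 * Dp (Dp F) (shear S z) + Dq (Dp F) (shear S z)) +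
      Dp F (shear S z) * deriv (deriv S) z.1 +
      (deriv S z.1 * Dp (Dq F) (shear S z) + Dq (Dq F) (shear S z))| ≤ _
    calc _ ≤ |deriv S z.1 * (deriv S z.1 * Dp (Dp F) (shear S z) + Dq (Dp F) (shear S z)) +
          Dp F (shear S z) * deriv (deriv S) z.1| +
          |deriv S z.1 * Dp (Dq F) (shear S z) + Dq (Dq F) (shear S z)| := abs_add_le _ _
      _ ≤ (|deriv S z.1 * (deriv S z.1 * Dp (Dp F) (shear S z) + Dq (Dp F) (shear S z))| +
          |Dp F (shear S z) * deriv (deriv S) z.1|) +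
          (|deriv S z.1 * Dp (Dq F) (shear S z)| + |Dq (Dq F) (shear S z)|) := by
          gcongr <;> exact abs_add_le _ _
      _ ≤ (κ * (κ * E + E) + D * κ') + (κ * E + E) := by
          rw [abs_mul, abs_mul, abs_mul]
          gcongr
          · exact hd1 _
          · refine (abs_add_le _ _).trans ?_
            rw [abs_mul]
            gcongr
            · exact hd1 _
            · exact hF.dpp _
            · exact hF.dqp _
          · exact hF.dp _
          · exact hd2 _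
          · exact hd1 _
          · exact hF.dpq _
          · exact hF.dqq _
      _ = κ' * D + E * (1 + κ) ^ 2 := by ring
  · intro z
    rw [e1]
    show |fderiv ℝ (fun z : ℝ × ℝ => deriv S z.1 * Parab.next S (Dp F) z +
      Parab.next S (Dq F) z) z (0, 1)| ≤ _
    rw [hfd]
    simp only [_root_.add_apply, _root_.smul_apply,
      ContinuousLinearMap.coe_fst', smul_eq_mul, mul_zero, add_zero]
    have h1 : fderiv ℝ (Parab.next S (Dp F)) z (0, 1) = _ := Dq_next dS dFp z
    have h2 : fderiv ℝ (Parab.next S (Dq F)) z (0, 1) = _ := Dq_next dS dFq z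
    rw [h1, h2]
    calc _ ≤ |deriv S z.1 * Dp (Dp F) (shear S z)| + |Dp (Dq F) (shear S z)| := abs_add_le _ _
      _ ≤ κ * E + E := by
          rw [abs_mul]
          gcongr
          · exact hd1 _
          · exact hF.dpp _
          · exact hF.dpq _
      _ ≤ κ' * D + E * (1 + κ) ^ 2 := hE1
  · intro z
    rw [e2, Dp_next dS dFp]
    calc _ ≤ |deriv S z.1 * Dp (Dp F) (shear S z)| + |Dq (Dp F) (shear S z)| := abs_add_le _ _
      _ ≤ κ * E + E := by
          rw [abs_mul]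
          gcongr
          · exact hd1 _
          · exact hF.dpp _
          · exact hF.dqp _
      _ ≤ κ' * D + E * (1 + κ) ^ 2 := hE1
  · intro z
    rw [e2, Dq_next dS dFp]
    exact (hF.dpp _).trans hE2

end Pool.Agent.Lib_helper9.Parab
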