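import Pool.Agent.Lib_helper9.Parab.Apriori
import Pool.Agent.Lib_helper9.Parab.Duality

/-!
# The solution
-/

open MeasureTheory Set
open scoped ContDiff ENNReal

namespace Pool.Agent.Lib_helper9.Parab

variable {d : ℕ} {T : ℝ} {n₀ : ℕ}

/-! ### Linearity of the backward operator -/

lemma pd_add' {f g : (Fin d → ℝ) → ℝ} (hf : ContDiff ℝ 1 f) (hg : ContDiff ℝ 1 g) (i : Fin d) :
    pd i (f + g) = pd i f + pd i g := by
  ext x
  unfold pd
  simp only [Pi.add_apply]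
  rw [fderiv_add (hf.differentiable one_ne_zero x) (hg.differentiable one_ne_zero x)]
  rfl

lemma pd_smul' {f : (Fin d → ℝ) → ℝ} (hf : ContDiff ℝ 1 f) (c : ℝ) (i : Fin d) :
    pd i (c • f) = c • pd i f := by
  ext x
  unfold pd
  simp only [Pi.smul_apply]
  rw [fderiv_const_smul (hf.differentiable one_ne_zero x)]
  rfl

lemma contDiff_pd {f : (Fin d → ℝ) → ℝ} (hf : ContDiff ℝ 2 f) (i : Fin d) :
    ContDiff ℝ 1 (pd i f) :=
  (hf.fderiv_right (by norm_num)).clm_apply contDiff_const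

lemma lap_add' {f g : (Fin d → ℝ) → ℝ} (hf : ContDiff ℝ 2 f) (hg : ContDiff ℝ 2 g) :
    lap (f + g) = lap f + lap g := by
  ext x
  unfold lap
  simp only [Pi.add_apply]
  rw [← Finset.sum_add_distrib]
  apply Finset.sum_congr rfl
  intro i _
  rw [pd_add' (hf.of_le one_le_two) (hg.of_le one_le_two), pd_add' (contDiff_pd hf i)
    (contDiff_pd hg i)]
  rfl

lemma lap_smul' {f : (Fin d → ℝ) → ℝ} (hf : ContDiff ℝ 2 f) (c : ℝ) :
    lap (c • f) = c • lap f := by
  ext x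
  unfold lap
  simp only [Pi.smul_apply, smul_eq_mul]
  rw [Finset.mul_sum]
  apply Finset.sum_congr rfl
  intro i _
  rw [pd_smul' (hf.of_le one_le_two), pd_smul' (contDiff_pd hf i)]
  rfl

lemma IsTest.differentiable_time {φ : ℝ → (Fin d → ℝ) → ℝ} (hφ : IsTest d T φ)
    (x : Fin d → ℝ) : Differentiable ℝ (fun s => φ s x) := by
  have h : ContDiff ℝ 1 (fun s : ℝ => φ s x) :=
    hφ.smooth1.comp (f := fun s : ℝ => (s, x)) (contDiff_id.prodMk contDiff_const)
  exact h.differentiable one_ne_zero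

lemma Lstar_add (b : ℝ → (Fin d → ℝ) → (Fin d → ℝ)) {φ ψ : ℝ → (Fin d → ℝ) → ℝ}
    (hφ : IsTest d T φ) (hψ : IsTest d T ψ) (t : ℝ) (x : Fin d → ℝ) :
    Lstar b (φ + ψ) t x = Lstar b φ t x + Lstar b ψ t x := by
  unfold Lstar
  have e1 : deriv (fun s => (φ + ψ) s x) t = deriv (fun s => φ s x) t + deriv (fun s => ψ s x) t :=
    deriv_add (hφ.differentiable_time x t) (hψ.differentiable_time x t)
  have e2 : (φ + ψ) t = φ t + ψ t := rfl
  have e3 : ∀ i, pd i (φ t + ψ t) = pd i (φ t) + pd i (ψ t) := fun i =>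
    pd_add' ((hφ.slice t).of_le one_le_two) ((hψ.slice t).of_le one_le_two) i
  rw [e1, e2, lap_add' (hφ.slice t) (hψ.slice t)]
  simp only [e3, Pi.add_apply, mul_add, Finset.sum_add_distrib]
  ring

lemma Lstar_smul (b : ℝ → (Fin d → ℝ) → (Fin d → ℝ)) {φ : ℝ → (Fin d → ℝ) → ℝ}
    (hφ : IsTest d T φ) (c : ℝ) (t : ℝ) (x : Fin d → ℝ) :
    Lstar b (c • φ) t x = c * Lstar b φ t x := by
  unfold Lstar
  have e1 : deriv (fun s => (c • φ) s x) t = c * deriv (fun s => φ s x) t :=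
    deriv_const_mul c (hφ.differentiable_time x t)
  have e2 : (c • φ) t = c • φ t := rfl
  have e3 : ∀ i, pd i (c • φ t) = c • pd i (φ t) := fun i =>
    pd_smul' ((hφ.slice t).of_le one_le_two) c i
  rw [e1, e2, lap_smul' (hφ.slice t)]
  simp only [e3, Pi.smul_apply, smul_eq_mul]
  rw [mul_add, mul_add, Finset.mul_sum]
  congr 2
  apply Finset.sum_congr rfl
  intro i _; ring

/-- the space of test functions -/
def testSub (d : ℕ) (T : ℝ) (hT : 0 < T) : Submodule ℝ (ℝ → (Fin d → ℝ) → ℝ) where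
  carrier := {φ | IsTest d T φ}
  add_mem' := by
    intro φ ψ hφ hψ
    refine ⟨hφ.smooth.add hψ.smooth, ?_, ?_⟩
    · intro t k x
      show φ t _ + ψ t _ = φ t x + ψ t x
      rw [hφ.periodic t k x, hψ.periodic t k x]
    · obtain ⟨T1, h1, v1⟩ := hφ.vanish
      obtain ⟨T2, h2, v2⟩ := hψ.vanish
      refine ⟨max T1 T2, max_lt h1 h2, fun t ht x => ?_⟩
      show φ t x + ψ t x = 0
      rw [v1 t ((le_max_left _ _).trans ht) x, v2 t ((le_max_right _ _).trans ht) x, add_zero]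
  zero_mem' := by
    refine ⟨contDiff_const, fun t k x => rfl, 0, hT, fun t _ x => rfl⟩
  smul_mem' := by
    intro c φ hφ
    refine ⟨contDiff_const.mul hφ.smooth, ?_, ?_⟩
    · intro t k x
      show c * φ t _ = c * φ t x
      rw [hφ.periodic t k x]
    · obtain ⟨T1, h1, v1⟩ := hφ.vanish
      refine ⟨T1, h1, fun t ht x => ?_⟩
      show c * φ t x = 0
      rw [v1 t ht x, mul_zero]

lemma mem_testSub {hT : 0 < T} {φ : ℝ → (Fin d → ℝ) → ℝ} : φ ∈ testSub d T hT ↔ IsTest d T φ :=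
  Iff.rfl

/-- the linear map `(φ, λ) ↦ Σ λ_j Ψ_j - L^*φ` -/
noncomputable def Th (hT : 0 < T) (n₀ : ℕ) (i₀ : Fin d) (b : ℝ → (Fin d → ℝ) → (Fin d → ℝ)) :
    (testSub d T hT × (ℕ →₀ ℝ)) →ₗ[ℝ] (ℝ × (Fin d → ℝ) → ℝ) where
  toFun w z := GG T n₀ i₀ w.2 z.1 z.2 - Lstar b w.1.1 z.1 z.2
  map_add' := by
    intro v w
    ext z
    have h1 : GG T n₀ i₀ (v.2 + w.2) z.1 z.2 = GG T n₀ i₀ v.2 z.1 z.2 + GG T n₀ i₀ w.2 z.1 z.2 :=
      Finsupp.sum_add_index' (h := fun i c => c * psi T n₀ i₀ i z.1 z.2) (fun i => by simp)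
        (fun i a b => by ring)
    have h2 : Lstar b (v.1.1 + w.1.1) z.1 z.2 = Lstar b v.1.1 z.1 z.2 + Lstar b w.1.1 z.1 z.2 :=
      Lstar_add b v.1.2 w.1.2 z.1 z.2
    show GG T n₀ i₀ (v.2 + w.2) z.1 z.2 - Lstar b (v.1.1 + w.1.1) z.1 z.2 =
      (GG T n₀ i₀ v.2 z.1 z.2 - Lstar b v.1.1 z.1 z.2) +
        (GG T n₀ i₀ w.2 z.1 z.2 - Lstar b w.1.1 z.1 z.2)
    rw [h1, h2]; ring
  map_smul' := by
    intro c w
    ext z
    have h1 : GG T n₀ i₀ (c • w.2) z.1 z.2 = c * GG T n₀ i₀ w.2 z.1 z.2 := by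
      have e1 := Finsupp.sum_smul_index' (g := w.2) (b := c)
        (h := fun i c => c * psi T n₀ i₀ i z.1 z.2) (fun i => by simp)
      have e2 : GG T n₀ i₀ (c • w.2) z.1 z.2 =
        (c • w.2).sum (fun i c => c * psi T n₀ i₀ i z.1 z.2) := rfl
      rw [e2, e1]
      unfold GG Finsupp.sum
      rw [Finset.mul_sum]
      apply Finset.sum_congr rfl
      intro i _
      simp only [smul_eq_mul]; ring
    have h2 : Lstar b (c • w.1.1) z.1 z.2 = c * Lstar b w.1.1 z.1 z.2 :=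
      Lstar_smul b w.1.2 c z.1 z.2
    show GG T n₀ i₀ (c • w.2) z.1 z.2 - Lstar b (c • w.1.1) z.1 z.2 =
      c * (GG T n₀ i₀ w.2 z.1 z.2 - Lstar b w.1.1 z.1 z.2)
    rw [h1, h2]; ring

/-- the linear functional -/
noncomputable def ell (hT : 0 < T) (d n₀ : ℕ) : (testSub d T hT × (ℕ →₀ ℝ)) →ₗ[ℝ] ℝ where
  toFun w := ∑ i ∈ w.2.support, w.2 i * hh n₀ i
  map_add' := by
    intro v w
    exact Finsupp.sum_add_index' (h := fun i c => c * hh n₀ i) (fun i => by simp)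
        (fun i a b => by ring)
  map_smul' := by
    intro c w
    have e1 := Finsupp.sum_smul_index' (g := w.2) (b := c)
        (h := fun i c => c * hh n₀ i) (fun i => by simp)
    have e2 : ∑ i ∈ (c • w.2).support, (c • w.2) i * hh n₀ i =
        (c • w.2).sum (fun i c => c * hh n₀ i) := rfl
    show ∑ i ∈ (c • w.2).support, (c • w.2) i * hh n₀ i = c * ∑ i ∈ w.2.support, w.2 i * hh n₀ i
    rw [e2, e1]
    unfold Finsupp.sum
    rw [Finset.mul_sum]
    apply Finset.sum_congr rfl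
    intro i _
    simp only [smul_eq_mul]; ring

lemma integral_emass {b : ℝ → (Fin d → ℝ) → (Fin d → ℝ)} {β : ℝ → ℝ} (hT : 0 < T)
    {φ : ℝ → (Fin d → ℝ) → ℝ} (hb : IsField T b β) (hφ : IsTest d T φ)
    {G : ℝ → (Fin d → ℝ) → ℝ} (hG : Continuous (fun z : ℝ × (Fin d → ℝ) => G z.1 z.2)) :
    ∫ z, |G z.1 z.2 - Lstar b φ z.1 z.2| ∂(volume.restrict (stCell d T)) =
      ∫ t in (0 : ℝ)..T, emass b φ G t := by
  have h := ((integrable_Gst hG).sub (integrable_Lstar hb hφ)).norm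
  rw [intervalIntegral.integral_of_le hT.le, integral_Ioc_eq_integral_Ioo]
  rw [volume_stCell] at h ⊢
  have e := integral_prod _ h
  have e1 : ∀ z : ℝ × (Fin d → ℝ), |G z.1 z.2 - Lstar b φ z.1 z.2| =
      ‖((fun z : ℝ × (Fin d → ℝ) => G z.1 z.2) -
        (fun z : ℝ × (Fin d → ℝ) => Lstar b φ z.1 z.2)) z‖ := fun z => rfl
  simp only [e1]
  rw [e]
  apply integral_congr_ae
  filter_upwards with t
  unfold emass
  congr 1
  ext x
  show ‖G t x - Lstar b φ t x‖ = |Lstar b φ t x - G t x|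
  rw [Real.norm_eq_abs, abs_sub_comm]

/-- Existence of a bounded solution with prescribed pairings. -/
theorem exists_u0 (hn : 4 ≤ T * 2 ^ n₀) {i₀ i₁ : Fin d} (hi : i₀ ≠ i₁) :
    ∃ u : ℝ × (Fin d → ℝ) → ℝ, Measurable u ∧ (∀ z, |u z| ≤ 13) ∧
      (∀ φ, IsTest d T φ → ∫ z, u z * Lstar (drift T n₀ i₀ i₁) φ z.1 z.2
        ∂(volume.restrict (stCell d T)) = 0) ∧
      (∀ j, ∫ z, u z * psi T n₀ i₀ j z.1 z.2 ∂(volume.restrict (stCell d T)) = hh n₀ j) := by
  have hT := T_pos_of hn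
  have hb := isField_drift hn hi
  obtain ⟨u, hum, hub, hu⟩ := exists_bounded_solution (μ := volume.restrict (stCell d T))
    (Th hT n₀ i₀ (drift T n₀ i₀ i₁))
    (fun w => (integrable_Gst (continuous_GG T n₀ i₀ w.2)).sub (integrable_Lstar hb w.1.2))
    (ell hT d n₀) 13 (by norm_num) (by
      intro w
      have h1 := apriori hn hi w.1.2 w.2
      rw [← integral_emass hT hb w.1.2 (continuous_GG T n₀ i₀ w.2)] at h1
      refine le_trans ?_ h1
      show |∑ i ∈ w.2.support, w.2 i * hh n₀ i| ≤ _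
      refine (Finset.abs_sum_le_sum_abs _ _).trans (Finset.sum_le_sum fun i _ => ?_)
      rw [abs_mul, abs_of_pos (hh_pos n₀ i)])
  refine ⟨u, hum, hub, ?_, ?_⟩
  · intro φ hφ
    have h := hu (⟨φ, hφ⟩, 0)
    have e1 : ∀ z, Th hT n₀ i₀ (drift T n₀ i₀ i₁) (⟨φ, hφ⟩, 0) z =
        - Lstar (drift T n₀ i₀ i₁) φ z.1 z.2 := by
      intro z
      show GG T n₀ i₀ 0 z.1 z.2 - Lstar (drift T n₀ i₀ i₁) φ z.1 z.2 = _
      simp [GG]
    have e2 : ell hT d n₀ (⟨φ, hφ⟩, 0) = 0 := by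
      show ∑ i ∈ (0 : ℕ →₀ ℝ).support, (0 : ℕ →₀ ℝ) i * hh n₀ i = 0
      simp
    simp only [e1, e2, mul_neg] at h
    rw [integral_neg, neg_eq_zero] at h
    exact h
  · intro j
    have h := hu (0, Finsupp.single j 1)
    have e1 : ∀ z, Th hT n₀ i₀ (drift T n₀ i₀ i₁) (0, Finsupp.single j 1) z =
        psi T n₀ i₀ j z.1 z.2 := by
      intro z
      show GG T n₀ i₀ (Finsupp.single j 1) z.1 z.2 - Lstar (drift T n₀ i₀ i₁) 0 z.1 z.2 = _
      have a1 : GG T n₀ i₀ (Finsupp.single j 1) z.1 z.2 = psi T n₀ i₀ j z.1 z.2 := by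
        have : GG T n₀ i₀ (Finsupp.single j 1) z.1 z.2 =
          (Finsupp.single j (1 : ℝ)).sum (fun i c => c * psi T n₀ i₀ i z.1 z.2) := rfl
        rw [this, Finsupp.sum_single_index (by simp), one_mul]
      have a2 : Lstar (drift T n₀ i₀ i₁) 0 z.1 z.2 = 0 := by
        have h0 : IsTest d T (0 : ℝ → (Fin d → ℝ) → ℝ) := (testSub d T hT).zero_mem
        have := Lstar_smul (drift T n₀ i₀ i₁) h0 0 z.1 z.2
        simpa using this
      rw [a1, a2, sub_zero]
    have e2 : ell hT d n₀ (0, Finsupp.single j 1) = hh n₀ j := by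
      have : ell hT d n₀ (0, Finsupp.single j 1) =
        (Finsupp.single j (1 : ℝ)).sum (fun i c => c * hh n₀ i) := rfl
      rw [this, Finsupp.sum_single_index (by simp), one_mul]
    simp only [e1, e2] at h
    exact h

/-! ### The periodic extension -/

/-- the fractional parts of the coordinates -/
noncomputable def fr {d : ℕ} (x : Fin d → ℝ) : Fin d → ℝ := fun i => Int.fract (x i)

lemma measurable_fr : Measurable (fr (d := d)) :=
  measurable_pi_lambda _ fun i => measurable_fract.comp (measurable_pi_apply i)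

lemma ae_fr_eq : ∀ᵐ x ∂(volume.restrict (cell d)), fr x = x := by
  have h : (Set.pi Set.univ fun _ : Fin d => Set.Ico (0 : ℝ) 1) =ᵐ[volume] cell d := by
    have := Measure.univ_pi_Ico_ae_eq_Icc (μ := fun _ : Fin d => (volume : Measure ℝ))
      (f := (0 : Fin d → ℝ)) (g := 1)
    exact this
  rw [← Measure.restrict_congr_set h]
  have hm : MeasurableSet (Set.pi Set.univ fun _ : Fin d => Set.Ico (0 : ℝ) 1) :=
    MeasurableSet.univ_pi fun _ => measurableSet_Ico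
  filter_upwards [self_mem_ae_restrict hm] with x hx
  ext i
  have := hx i (mem_univ i)
  exact Int.fract_eq_self.mpr ⟨this.1, this.2⟩

/-- the periodic extension -/
noncomputable def ext0 (u : ℝ × (Fin d → ℝ) → ℝ) (t : ℝ) (x : Fin d → ℝ) : ℝ := u (t, fr x)

lemma ext0_periodic (u : ℝ × (Fin d → ℝ) → ℝ) (t : ℝ) : IsPeriodic (ext0 u t) := by
  intro k x
  unfold ext0
  congr 2
  ext i
  unfold fr
  exact Int.fract_add_intCast (x i) (k i)

lemma measurable_ext0 {u : ℝ × (Fin d → ℝ) → ℝ} (hu : Measurable u) :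
    Measurable (fun z : ℝ × (Fin d → ℝ) => ext0 u z.1 z.2) :=
  hu.comp (measurable_fst.prodMk (measurable_fr.comp measurable_snd))

lemma integral_ext0 {u : ℝ × (Fin d → ℝ) → ℝ} (hu : Measurable u) {C : ℝ}
    (hC : ∀ z, |u z| ≤ C) {F : ℝ → (Fin d → ℝ) → ℝ}
    (hF : Integrable (fun z : ℝ × (Fin d → ℝ) => F z.1 z.2) (volume.restrict (stCell d T))) :
    ∫ t in Set.Ioo 0 T, ∫ x in cell d, ext0 u t x * F t x =
      ∫ z, u z * F z.1 z.2 ∂(volume.restrict (stCell d T)) := by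
  have h1 : Integrable (fun z : ℝ × (Fin d → ℝ) => u z * F z.1 z.2)
      (volume.restrict (stCell d T)) := by
    refine hF.bdd_mul (c := C) hu.aestronglyMeasurable ?_
    filter_upwards with z
    exact hC z
  have e : ∀ t, ∫ x in cell d, ext0 u t x * F t x = ∫ x in cell d, u (t, x) * F t x := by
    intro t
    apply integral_congr_ae
    filter_upwards [ae_fr_eq (d := d)] with x hx
    unfold ext0
    rw [hx]
  simp only [e]
  rw [volume_stCell] at h1 ⊢
  rw [integral_prod _ h1]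

end Pool.Agent.Lib_helper9.Parab
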