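import Pool.Agent.Lib_helper9.Parab.Kato
import Pool.Agent.Lib_helper9.Parab.Params

/-!
# Lifting functions of two variables, and the estimate on one stage
-/

open MeasureTheory Set
open scoped ContDiff

namespace Pool.Agent.Lib_helper9.Parab

variable {d : ℕ} {T : ℝ} {b : ℝ → (Fin d → ℝ) → (Fin d → ℝ)} {β : ℝ → ℝ}
  {φ : ℝ → (Fin d → ℝ) → ℝ}

/-- a function of the two coordinates `i`, `j` -/
def lift (i j : Fin d) (H : ℝ × ℝ → ℝ) (x : Fin d → ℝ) : ℝ := H (x i, x j)

lemma contDiff_lift {n : ℕ∞ω} {H : ℝ × ℝ → ℝ} (hH : ContDiff ℝ n H) (i j : Fin d) :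
    ContDiff ℝ n (lift i j H) := by
  apply hH.comp
  exact (contDiff_apply ℝ ℝ i).prodMk (contDiff_apply ℝ ℝ j)

lemma pd_lift {H : ℝ × ℝ → ℝ} (hH : Differentiable ℝ H) {i j : Fin d} (hij : i ≠ j)
    (k : Fin d) : pd k (lift i j H) =
      fun x => if k = i then lift i j (Dp H) x else if k = j then lift i j (Dq H) x else 0 := by
  ext x
  have h1 : HasFDerivAt (fun x : Fin d → ℝ => ((x i, x j) : ℝ × ℝ))
      ((ContinuousLinearMap.proj (R := ℝ) (φ := fun _ : Fin d => ℝ) i).prod
        (ContinuousLinearMap.proj (R := ℝ) (φ := fun _ : Fin d => ℝ) j)) x :=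
    (hasFDerivAt_apply i x).prodMk (hasFDerivAt_apply j x)
  have h2 := (hH (x i, x j)).hasFDerivAt.comp x h1
  have h3 : fderiv ℝ (lift i j H) x = _ := h2.fderiv
  unfold pd
  rw [h3]
  simp only [ContinuousLinearMap.comp_apply, ContinuousLinearMap.prod_apply,
    ContinuousLinearMap.proj_apply]
  by_cases hki : k = i
  · subst hki
    have : (Pi.single k (1 : ℝ) : Fin d → ℝ) j = 0 := by simp [Ne.symm hij]
    rw [this]
    simp [lift, Dp]
  · by_cases hkj : k = j
    · subst hkj
      have : (Pi.single k (1 : ℝ) : Fin d → ℝ) i = 0 := by simp [hij]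
      rw [this]
      simp [lift, Dq, hki]
    · have e1 : (Pi.single k (1 : ℝ) : Fin d → ℝ) i = 0 := by simp [Ne.symm hki]
      have e2 : (Pi.single k (1 : ℝ) : Fin d → ℝ) j = 0 := by simp [Ne.symm hkj]
      rw [e1, e2]
      have e3 : ((0, 0) : ℝ × ℝ) = 0 := rfl
      simp only [hki, hkj, if_false]
      rw [e3]
      exact map_zero _

lemma sum_two {i j : Fin d} (hij : i ≠ j) (A B : ℝ) :
    ∑ k : Fin d, (if k = i then A else if k = j then B else 0) = A + B := by
  have : ∀ k : Fin d, (if k = i then A else if k = j then B else 0) =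
      (if k = i then A else 0) + (if k = j then B else 0) := by
    intro k
    by_cases h1 : k = i
    · have : k ≠ j := fun h => hij (h1 ▸ h)
      simp [h1, hij]
    · simp [h1]
  simp only [this]
  rw [Finset.sum_add_distrib]
  simp

lemma lap_lift {H : ℝ × ℝ → ℝ} (hH : ContDiff ℝ 2 H) {i j : Fin d} (hij : i ≠ j)
    (x : Fin d → ℝ) :
    lap (lift i j H) x = Dp (Dp H) (x i, x j) + Dq (Dq H) (x i, x j) := by
  have dH : Differentiable ℝ H := hH.differentiable two_ne_zero
  have dp : Differentiable ℝ (Dp H) := (contDiff_Dp (m := 1) hH (by norm_num)).differentiable one_ne_zero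
  have dq : Differentiable ℝ (Dq H) := (contDiff_Dq (m := 1) hH (by norm_num)).differentiable one_ne_zero
  unfold lap
  rw [← sum_two hij (Dp (Dp H) (x i, x j)) (Dq (Dq H) (x i, x j))]
  apply Finset.sum_congr rfl
  intro k _
  rw [pd_lift dH hij k]
  by_cases hki : k = i
  · subst hki
    simp only [if_true]
    have := congrFun (pd_lift dp hij k) x
    simp only [if_true] at this
    exact this
  · by_cases hkj : k = j
    · subst hkj
      simp only [hki, if_false, if_true]
      have := congrFun (pd_lift dq hij k) x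
      simp only [hki, if_false, if_true] at this
      exact this
    · simp only [hki, hkj, if_false]
      simp [pd]

lemma isPeriodic_lift {H : ℝ × ℝ → ℝ} (h1 : ∀ p q, H (p + 1, q) = H (p, q))
    (h2 : ∀ p q, H (p, q + 1) = H (p, q)) (i j : Fin d) : IsPeriodic (lift i j H) := by
  intro k x
  unfold lift
  have a1 : ∀ q, Function.Periodic (fun p => H (p, q)) 1 := fun q p => h1 p q
  have a2 : ∀ p, Function.Periodic (fun q => H (p, q)) 1 := fun p q => h2 p q
  have e1 := (a1 (x j + k j)).int_mul (k i) (x i)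
  have e2 := (a2 (x i)).int_mul (k j) (x j)
  simp only [mul_one] at e1 e2
  rw [e1, e2]

/-- integrating a bound on the derivative -/
lemma abs_sub_le_of_deriv {Y y' m : ℝ → ℝ} {t₀ t₁ c : ℝ} (h01 : t₀ ≤ t₁)
    (hY : ∀ t, HasDerivAt Y (y' t) t) (hm : IntegrableOn m (Set.Icc t₀ t₁))
    (hb : ∀ t ∈ Set.Ioo t₀ t₁, |y' t| ≤ m t + c) :
    |Y t₁ - Y t₀| ≤ (∫ t in t₀..t₁, m t) + c * (t₁ - t₀) := by
  have hcont : ContinuousOn Y (Set.Icc t₀ t₁) := fun s _ => (hY s).continuousAt.continuousWithinAt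
  have hmc : IntegrableOn (fun t => m t + c) (Set.Icc t₀ t₁) :=
    hm.add (integrableOn_const (by simp))
  have h1 := intervalIntegral.sub_le_integral_of_hasDeriv_right_of_le h01 hcont
    (fun s _ => (hY s).hasDerivWithinAt) hmc (fun t ht => (abs_le.mp (hb t ht)).2)
  have h2 := intervalIntegral.integral_le_sub_of_hasDeriv_right_of_le h01 hcont
    (fun s _ => (hY s).hasDerivWithinAt) hmc.neg (fun t ht => (abs_le.mp (hb t ht)).1)
  have hmi : IntervalIntegrable m volume t₀ t₁ := by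
    rw [intervalIntegrable_iff_integrableOn_Icc_of_le h01]; exact hm
  have e : ∫ t in t₀..t₁, (m t + c) = (∫ t in t₀..t₁, m t) + c * (t₁ - t₀) := by
    rw [intervalIntegral.integral_add hmi (by simp), intervalIntegral.integral_const,
      smul_eq_mul, mul_comm]
  have h2' : -(∫ t in t₀..t₁, (m t + c)) ≤ Y t₁ - Y t₀ := by
    rw [← intervalIntegral.integral_neg]; exact h2
  rw [e] at h1 h2'
  exact abs_le.mpr ⟨h2', h1⟩

lemma integrableOn_mass_Icc (hb : IsField T b β) (hφ : IsTest d T φ) {t₀ t₁ : ℝ} (h0 : 0 ≤ t₀)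
    (h1 : t₁ ≤ T) : IntegrableOn (mass b φ) (Set.Icc t₀ t₁) := by
  rw [integrableOn_Icc_iff_integrableOn_Ioo]
  exact (integrableOn_mass hb hφ).mono_set (Ioo_subset_Ioo h0 h1)

/-- The general pairing estimate. -/
lemma pairing_estimate (hb : IsField T b β) (hφ : IsTest d T φ)
    {V : ℝ × (Fin d → ℝ) → ℝ} (hV : ContDiff ℝ 2 V) (pV : ∀ t, IsPeriodic fun x => V (t, x))
    {t₀ t₁ A Q : ℝ} (h0 : 0 ≤ t₀) (h01 : t₀ ≤ t₁) (h1 : t₁ ≤ T)
    (hV1 : ∀ t ∈ Set.Ioo t₀ t₁, ∀ x, |V (t, x)| ≤ 1)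
    (hA : ∀ t ∈ Set.Ioo t₀ t₁, ∀ x, |deriv (fun s => V (s, x)) t +
      ∑ i, b t x i * pd i (fun y => V (t, y)) x - lap (fun y => V (t, y)) x| ≤ A)
    (hQ : ∀ t ∈ Set.Icc t₀ t₁, ∫ x in cell d, |φ t x| ≤ Q) (hA0 : 0 ≤ A) :
    |(∫ x in cell d, φ t₁ x * V (t₁, x)) - ∫ x in cell d, φ t₀ x * V (t₀, x)| ≤
      (∫ t in t₀..t₁, mass b φ t) + A * Q * (t₁ - t₀) := by
  refine abs_sub_le_of_deriv h01 (fun t => hasDerivAt_pairing hb hφ hV pV t)
    (integrableOn_mass_Icc hb hφ h0 h1) ?_
  intro t ht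
  have htT : t ∈ Set.Icc 0 T := ⟨h0.trans ht.1.le, ht.2.le.trans h1⟩
  have iL := (integrableOn_Lstar_slice hb hφ htT).norm
  have iφ : IntegrableOn (fun x => |φ t x|) (cell d) :=
    integrableOn_cell (continuous_abs.comp (hφ.slice t).continuous)
  have hle : ∀ x, |Lstar b φ t x * V (t, x) +
        φ t x * (deriv (fun s => V (s, x)) t + ∑ i, b t x i * pd i (fun y => V (t, y)) x -
          lap (fun y => V (t, y)) x)| ≤ |Lstar b φ t x| + A * |φ t x| := by
    intro x
    refine (abs_add_le _ _).trans ?_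
    rw [abs_mul, abs_mul, mul_comm A]
    gcongr
    · calc _ ≤ |Lstar b φ t x| * 1 := by gcongr; exact hV1 t ht x
        _ = _ := mul_one _
    · exact hA t ht x
  calc _ ≤ ∫ x in cell d, |Lstar b φ t x * V (t, x) +
        φ t x * (deriv (fun s => V (s, x)) t + ∑ i, b t x i * pd i (fun y => V (t, y)) x -
          lap (fun y => V (t, y)) x)| := abs_integral_le_integral_abs
    _ ≤ ∫ x in cell d, (|Lstar b φ t x| + A * |φ t x|) := by
        apply integral_mono_of_nonneg
        · filter_upwards with x; exact abs_nonneg _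
        · exact iL.add (iφ.const_mul A)
        · filter_upwards with x; exact hle x
    _ = mass b φ t + A * ∫ x in cell d, |φ t x| := by
        have h3 : ∫ x in cell d, (|Lstar b φ t x| + A * |φ t x|) =
            (∫ x in cell d, |Lstar b φ t x|) + ∫ x in cell d, A * |φ t x| :=
          integral_add iL (iφ.const_mul A)
        rw [h3, integral_const_mul]; rfl
    _ ≤ mass b φ t + A * Q := by
        gcongr
        exact hQ t ⟨ht.1.le, ht.2.le⟩

/-- The estimate on one stage. -/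
lemma stage_estimate (hb : IsField T b β) (hφ : IsTest d T φ) {a a' : Fin d} (haa : a ≠ a')
    {F : ℝ × ℝ → ℝ} {S : ℝ → ℝ} {κ κ' D E D' E' : ℝ} (hF : Bd F D E) (hS : ShearBd S κ κ')
    (hpart : ∀ θ : ℝ, 0 ≤ θ → θ ≤ 1 → Bd (next (fun r => θ * S r) F) D' E')
    {t₀ t₁ Q : ℝ} (h0 : 0 ≤ t₀) (h01 : t₀ < t₁) (h1 : t₁ ≤ T)
    (hbt : ∀ t ∈ Set.Ioo t₀ t₁, ∀ x, b t x = Pi.single a (S (x a') / (t₁ - t₀)))
    (hQ : ∀ t ∈ Set.Icc t₀ t₁, ∫ x in cell d, |φ t x| ≤ Q) :
    |(∫ x in cell d, φ t₁ x * lift a a' F x) - ∫ x in cell d, φ t₀ x * lift a' a (next S F) x| ≤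
      (∫ t in t₀..t₁, mass b φ t) + (2 * E') * Q * (t₁ - t₀) := by
  set τ := t₁ - t₀ with hτ
  have hτ0 : 0 < τ := by rw [hτ]; linarith
  set V : ℝ × (Fin d → ℝ) → ℝ :=
    fun z => F (z.2 a + ((t₁ - z.1) / τ) * S (z.2 a'), z.2 a') with hV
  have cV : ContDiff ℝ 2 V := by
    rw [hV]
    apply hF.smooth.comp
    have c1 : ContDiff ℝ 2 (fun z : ℝ × (Fin d → ℝ) => z.2 a) :=
      (contDiff_apply ℝ ℝ a).comp contDiff_snd
    have c2 : ContDiff ℝ 2 (fun z : ℝ × (Fin d → ℝ) => z.2 a') :=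
      (contDiff_apply ℝ ℝ a').comp contDiff_snd
    have c3 : ContDiff ℝ 2 (fun z : ℝ × (Fin d → ℝ) => (t₁ - z.1) / τ) :=
      (contDiff_const.sub contDiff_fst).div_const τ
    exact (c1.add (c3.mul (hS.smooth.comp c2))).prodMk c2
  have eV : ∀ t, (fun x => V (t, x)) = lift a' a (next (fun r => ((t₁ - t) / τ) * S r) F) := by
    intro t; rfl
  have pV : ∀ t, IsPeriodic fun x => V (t, x) := by
    intro t
    rw [eV t]
    apply isPeriodic_lift
    · intro p q
      show F (q + ((t₁ - t) / τ) * S (p + 1), p + 1) = F (q + ((t₁ - t) / τ) * S p, p)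
      rw [hS.per p, hF.per2]
    · intro p q
      show F (q + 1 + ((t₁ - t) / τ) * S p, p) = F (q + ((t₁ - t) / τ) * S p, p)
      rw [show q + 1 + ((t₁ - t) / τ) * S p = (q + ((t₁ - t) / τ) * S p) + 1 by ring, hF.per1]
  have dS : Differentiable ℝ S := hS.smooth.differentiable two_ne_zero
  have dF : Differentiable ℝ F := hF.smooth.differentiable two_ne_zero
  have hθ : ∀ t ∈ Set.Ioo t₀ t₁, 0 ≤ (t₁ - t) / τ ∧ (t₁ - t) / τ ≤ 1 := by
    intro t ht
    constructor
    · exact div_nonneg (by linarith [ht.2]) hτ0.le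
    · rw [div_le_one hτ0, hτ]; linarith [ht.1]
  have E'0 : 0 ≤ E' := (abs_nonneg _).trans ((hpart 0 le_rfl zero_le_one).dpp 0)
  have main := pairing_estimate hb hφ cV pV (A := 2 * E') (Q := Q) h0 h01.le h1
    (fun t ht x => hF.le_one _) ?_ hQ (by positivity)
  · have e1 : (fun x => V (t₁, x)) = lift a a' F := by
      ext x; simp [hV, lift]
    have e0 : (fun x => V (t₀, x)) = lift a' a (next S F) := by
      rw [eV t₀]
      congr 2
      ext r
      rw [← hτ, div_self hτ0.ne', one_mul]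
    have e1' : ∀ x, V (t₁, x) = lift a a' F x := fun x => congrFun e1 x
    have e0' : ∀ x, V (t₀, x) = lift a' a (next S F) x := fun x => congrFun e0 x
    simp only [e1', e0'] at main
    exact main
  · intro t ht x
    obtain ⟨hθ0, hθ1⟩ := hθ t ht
    have hB := hpart ((t₁ - t) / τ) hθ0 hθ1
    have dθS : Differentiable ℝ (fun r => ((t₁ - t) / τ) * S r) := dS.const_mul _
    -- time derivative
    have ht1 : HasDerivAt (fun s => V (s, x))
        (-(S (x a') / τ) * Dp F (x a + ((t₁ - t) / τ) * S (x a'), x a')) t := by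
      have h2 : HasDerivAt (fun s : ℝ => ((x a + ((t₁ - s) / τ) * S (x a'), x a') : ℝ × ℝ))
          (-(S (x a') / τ), 0) t := by
        have h3 : HasDerivAt (fun s : ℝ => x a + ((t₁ - s) / τ) * S (x a'))
            (-(S (x a') / τ)) t := by
          have := ((((hasDerivAt_id t).const_sub t₁).div_const τ).mul_const (S (x a'))).const_add
            (x a)
          exact this.congr_deriv (by ring)
        exact h3.prodMk (hasDerivAt_const t (x a'))
      have h4 := (dF (x a + ((t₁ - t) / τ) * S (x a'), x a')).hasFDerivAt.comp_hasDerivAt t h2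
      refine h4.congr_deriv ?_
      have : ((-(S (x a') / τ), 0) : ℝ × ℝ) = (-(S (x a') / τ)) • ((1, 0) : ℝ × ℝ) := by
        ext <;> simp
      rw [this, map_smul, smul_eq_mul]
      rfl
    -- drift term
    have hdr : ∑ i, b t x i * pd i (fun y => V (t, y)) x =
        (S (x a') / τ) * Dp F (x a + ((t₁ - t) / τ) * S (x a'), x a') := by
      rw [hbt t ht x, eV t, Finset.sum_eq_single a]
      · rw [Pi.single_eq_same, pd_lift (hB.smooth.differentiable two_ne_zero) haa.symm a]
        simp only [haa, if_false, if_true]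
        unfold lift
        rw [Dq_next dθS dF]
        rfl
      · intro i _ hi
        rw [Pi.single_eq_of_ne hi, zero_mul]
      · intro h; exact absurd (Finset.mem_univ _) h
    have hlap : |lap (fun y => V (t, y)) x| ≤ 2 * E' := by
      rw [eV t, lap_lift hB.smooth haa.symm]
      refine (abs_add_le _ _).trans ?_
      have := hB.dpp (x a', x a)
      have := hB.dqq (x a', x a)
      linarith
    rw [ht1.deriv, hdr]
    have : -(S (x a') / τ) * Dp F (x a + (t₁ - t) / τ * S (x a'), x a') +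
        S (x a') / τ * Dp F (x a + (t₁ - t) / τ * S (x a'), x a') -
        lap (fun y => V (t, y)) x = - lap (fun y => V (t, y)) x := by ring
    rw [this, abs_neg]
    exact hlap

end Pool.Agent.Lib_helper9.Parab
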