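import Pool.Agent.Lib_helper9.Parab.Cycle
import Pool.Agent.Lib_helper9.Parab.Rest

/-!
# The time schedule
-/

open MeasureTheory Set
open scoped ContDiff ENNReal

namespace Pool.Agent.Lib_helper9.Parab

/-- frequency of cycle `j` -/
def NN (n₀ j : ℕ) : ℕ := 2 ^ (j ^ 2 + j + n₀)

/-- the accuracy parameter of cycle `j` -/
def LL (j : ℕ) : ℕ := 10 + j

/-- starting time of cycle `j` -/
noncomputable def sT (T : ℝ) (j : ℕ) : ℝ := T * (1 - 1 / 2 ^ j)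

/-- end of the active part of cycle `j` -/
noncomputable def sA (T : ℝ) (n₀ j : ℕ) : ℝ := sT T j + rho (NN n₀ j) (LL j) 0

/-- length of the time window of cycle `j` -/
noncomputable def hh (n₀ j : ℕ) : ℝ := 1 / (128 * (NN n₀ j : ℝ) ^ 2)

lemma NN_pos (n₀ j : ℕ) : 0 < NN n₀ j := by unfold NN; positivity

lemma NN_cast (n₀ j : ℕ) : (NN n₀ j : ℝ) = 2 ^ (j ^ 2 + j + n₀) := by unfold NN; push_cast; rfl

lemma hh_pos (n₀ j : ℕ) : 0 < hh n₀ j := by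
  unfold hh
  have : (0 : ℝ) < NN n₀ j := by exact_mod_cast NN_pos n₀ j
  positivity

lemma sT_zero (T : ℝ) : sT T 0 = 0 := by simp [sT]

lemma sT_succ (T : ℝ) (j : ℕ) : sT T (j + 1) = sT T j + T / 2 ^ (j + 1) := by
  unfold sT
  rw [pow_succ]
  field_simp
  ring

lemma sT_mono {T : ℝ} (hT : 0 < T) : StrictMono (sT T) := by
  apply strictMono_nat_of_lt_succ
  intro j
  rw [sT_succ]
  have : 0 < T / 2 ^ (j + 1) := by positivity
  linarith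

lemma sT_nonneg {T : ℝ} (hT : 0 < T) (j : ℕ) : 0 ≤ sT T j := by
  rw [← sT_zero T]; exact (sT_mono hT).monotone (Nat.zero_le j)

lemma sT_lt {T : ℝ} (hT : 0 < T) (j : ℕ) : sT T j < T := by
  unfold sT
  have : (0 : ℝ) < 1 / 2 ^ j := by positivity
  nlinarith

lemma NN_sq_ge (n₀ j : ℕ) : (2 : ℝ) ^ (2 * j) * 2 ^ n₀ ≤ (NN n₀ j : ℝ) ^ 2 := by
  rw [NN_cast, ← pow_mul, ← pow_add]
  apply pow_le_pow_right₀ (by norm_num)
  nlinarith [Nat.zero_le (j ^ 2)]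

lemma rho_zero_le (n₀ j : ℕ) : rho (NN n₀ j) (LL j) 0 ≤ hh n₀ j := by
  unfold rho hh
  have hN : (0 : ℝ) < NN n₀ j := by exact_mod_cast NN_pos n₀ j
  apply one_div_le_one_div_of_le (by positivity)
  have h1 : (NN n₀ j : ℝ) ≤ MM (NN n₀ j) (LL j) (0 + 1) := by
    have := MM_mono (NN n₀ j) (LL j) 0
    rw [MM_zero] at this
    exact this
  have h2 : (128 : ℝ) ≤ 2 ^ (7 * 0 + 2 * LL j + 20) := by
    calc (128 : ℝ) = 2 ^ 7 := by norm_num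
      _ ≤ _ := pow_le_pow_right₀ (by norm_num) (by omega)
  gcongr

lemma hh_le {T : ℝ} {n₀ : ℕ} (hn : 4 ≤ T * 2 ^ n₀) (j : ℕ) : 2 * hh n₀ j ≤ T / 2 ^ (j + 2) := by
  have hT : 0 < T := by
    by_contra h
    push Not at h
    have : (0 : ℝ) < 2 ^ n₀ := by positivity
    nlinarith
  unfold hh
  have hN : (0 : ℝ) < NN n₀ j := by exact_mod_cast NN_pos n₀ j
  have h1 := NN_sq_ge n₀ j
  have h2 : (2 : ℝ) ^ j ≤ 2 ^ (2 * j) := pow_le_pow_right₀ (by norm_num) (by omega)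
  have h3 : (2 : ℝ) ^ j * 2 ^ n₀ ≤ (NN n₀ j : ℝ) ^ 2 := le_trans (by gcongr) h1
  rw [mul_one_div, div_le_div_iff₀ (by positivity) (by positivity), pow_add (2 : ℝ) j 2]
  have h4 : T * (128 * (2 ^ j * 2 ^ n₀)) ≤ T * (128 * (NN n₀ j : ℝ) ^ 2) := by gcongr
  have h5 : (0 : ℝ) < 2 ^ j := by positivity
  calc 2 * ((2 : ℝ) ^ j * 2 ^ 2) ≤ 128 * 2 ^ j * 4 := by nlinarith
    _ ≤ 128 * 2 ^ j * (T * 2 ^ n₀) := by gcongr
    _ = T * (128 * (2 ^ j * 2 ^ n₀)) := by ring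
    _ ≤ _ := h4

lemma sT_lt_sA {T : ℝ} (n₀ j : ℕ) : sT T j < sA T n₀ j := by
  unfold sA
  linarith [rho_pos (NN_pos n₀ j) (LL j) 0]

lemma sA_add_le {T : ℝ} {n₀ : ℕ} (hn : 4 ≤ T * 2 ^ n₀) (j : ℕ) :
    sA T n₀ j + hh n₀ j ≤ sT T j + T / 2 ^ (j + 2) := by
  unfold sA
  have h1 := rho_zero_le n₀ j
  have h2 := hh_le hn j
  linarith

lemma sT_succ' (T : ℝ) (j : ℕ) : sT T (j + 1) = sT T j + T / 2 ^ (j + 2) + T / 2 ^ (j + 2) := by
  rw [sT_succ, pow_succ (2 : ℝ) (j + 1)]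
  field_simp
  ring

lemma T_pos_of {T : ℝ} {n₀ : ℕ} (hn : 4 ≤ T * 2 ^ n₀) : 0 < T := by
  by_contra h
  push Not at h
  have : (0 : ℝ) < 2 ^ n₀ := by positivity
  nlinarith

lemma rest_length {T : ℝ} {n₀ : ℕ} (hn : 4 ≤ T * 2 ^ n₀) (j : ℕ) :
    T / 2 ^ (j + 2) ≤ sT T (j + 1) - sA T n₀ j := by
  have h1 := sA_add_le hn j
  have h2 := hh_pos n₀ j
  rw [sT_succ']
  linarith

lemma sA_add_lt {T : ℝ} {n₀ : ℕ} (hn : 4 ≤ T * 2 ^ n₀) (j : ℕ) :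
    sA T n₀ j + hh n₀ j < sT T (j + 1) := by
  have h1 := sA_add_le hn j
  have hT := T_pos_of hn
  have : 0 < T / 2 ^ (j + 2) := by positivity
  rw [sT_succ']
  linarith

lemma exp_rest_le {T : ℝ} {n₀ : ℕ} (hn : 4 ≤ T * 2 ^ n₀) (j : ℕ) :
    Real.exp (-((2 * Real.pi * NN n₀ j) ^ 2 * (sT T (j + 1) - sA T n₀ j))) ≤ 1 / 2 ^ LL j := by
  have hT := T_pos_of hn
  have h1 := rest_length hn j
  have hπ : (6 : ℝ) ≤ 2 * Real.pi := by linarith [Real.pi_gt_three]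
  have hN : (0 : ℝ) < NN n₀ j := by exact_mod_cast NN_pos n₀ j
  have h2 : 36 * ((2 : ℝ) ^ (2 * j) * 2 ^ n₀) ≤ (2 * Real.pi * NN n₀ j) ^ 2 := by
    rw [mul_pow]
    have := NN_sq_ge n₀ j
    have h36 : (36 : ℝ) ≤ (2 * Real.pi) ^ 2 := by nlinarith
    gcongr
  have h3 : (LL j : ℝ) ≤ (2 * Real.pi * NN n₀ j) ^ 2 * (sT T (j + 1) - sA T n₀ j) := by
    have h4 : 36 * ((2 : ℝ) ^ (2 * j) * 2 ^ n₀) * (T / 2 ^ (j + 2)) ≤
        (2 * Real.pi * NN n₀ j) ^ 2 * (sT T (j + 1) - sA T n₀ j) := by gcongr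
    refine le_trans ?_ h4
    have e : 36 * ((2 : ℝ) ^ (2 * j) * 2 ^ n₀) * (T / 2 ^ (j + 2)) =
        9 * 2 ^ j * (T * 2 ^ n₀) := by
      rw [show 2 * j = j + j by ring, pow_add, pow_add]
      field_simp
      norm_num
    rw [e]
    have h5 : (j : ℝ) + 1 ≤ 2 ^ j := by
      have := Nat.lt_two_pow_self (n := j)
      exact_mod_cast this
    unfold LL
    push_cast
    have h6 : (0 : ℝ) ≤ j := Nat.cast_nonneg j
    nlinarith
  calc _ ≤ Real.exp (-(LL j : ℝ)) := by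
        apply Real.exp_le_exp.mpr; linarith
    _ = (Real.exp (-1)) ^ (LL j) := by
        rw [← Real.exp_nat_mul]; congr 1; ring
    _ ≤ (1 / 2) ^ (LL j) := by
        apply pow_le_pow_left₀ (Real.exp_pos _).le
        rw [Real.exp_neg, one_div]
        apply inv_anti₀ (by norm_num)
        have := Real.add_one_le_exp 1
        linarith
    _ = 1 / 2 ^ LL j := by rw [one_div, inv_pow, one_div]

/-! ### The slots -/

/-- the time interval of stage `p.2` of cycle `p.1` -/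
def slot (T : ℝ) (n₀ : ℕ) (p : ℕ × ℕ) : Set ℝ :=
  Set.Ioo (sT T p.1 + rho (NN n₀ p.1) (LL p.1) (p.2 + 1))
    (sT T p.1 + rho (NN n₀ p.1) (LL p.1) p.2)

lemma slot_subset (T : ℝ) (n₀ : ℕ) (p : ℕ × ℕ) : slot T n₀ p ⊆ Set.Ioo (sT T p.1) (sA T n₀ p.1) := by
  intro t ht
  have h1 := rho_pos (NN_pos n₀ p.1) (LL p.1) (p.2 + 1)
  have h2 : rho (NN n₀ p.1) (LL p.1) p.2 ≤ rho (NN n₀ p.1) (LL p.1) 0 :=
    rho_antitone (NN_pos n₀ p.1) (LL p.1) (Nat.zero_le _)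
  unfold sA
  exact ⟨by linarith [ht.1], by linarith [ht.2]⟩

lemma slot_unique {T : ℝ} {n₀ : ℕ} (hn : 4 ≤ T * 2 ^ n₀) {p q : ℕ × ℕ} {t : ℝ}
    (hp : t ∈ slot T n₀ p) (hq : t ∈ slot T n₀ q) : p = q := by
  have hT := T_pos_of hn
  have h1 := slot_subset T n₀ p hp
  have h2 := slot_subset T n₀ q hq
  have hj : ∀ {i j : ℕ}, t ∈ Set.Ioo (sT T i) (sA T n₀ i) → t ∈ Set.Ioo (sT T j) (sA T n₀ j) →
      i ≤ j := by
    intro i j hi hj
    by_contra hlt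
    push Not at hlt
    have a1 : sT T (j + 1) ≤ sT T i := (sT_mono hT).monotone hlt
    have a2 := sA_add_lt hn j
    have a3 := hh_pos n₀ j
    linarith [hi.1, hj.2]
  have e1 : p.1 = q.1 := le_antisymm (hj h1 h2) (hj h2 h1)
  have hk : ∀ {i j : ℕ}, t ∈ slot T n₀ (p.1, i) → t ∈ slot T n₀ (p.1, j) → i ≤ j := by
    intro i j hi hj
    by_contra hlt
    push Not at hlt
    have a1 : rho (NN n₀ p.1) (LL p.1) i ≤ rho (NN n₀ p.1) (LL p.1) (j + 1) :=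
      rho_antitone (NN_pos n₀ p.1) (LL p.1) hlt
    have := hi.2
    have := hj.1
    simp only at *
    linarith
  have hp' : t ∈ slot T n₀ (p.1, p.2) := hp
  have hq' : t ∈ slot T n₀ (p.1, q.2) := by rw [e1]; exact hq
  exact Prod.ext e1 (le_antisymm (hk hp' hq') (hk hq' hp'))

lemma slot_volume (T : ℝ) (n₀ : ℕ) (p : ℕ × ℕ) :
    volume (slot T n₀ p) = ENNReal.ofReal (tau (NN n₀ p.1) (LL p.1) p.2) := by
  unfold slot
  rw [Real.volume_Ioo]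
  congr 1
  unfold tau; ring

lemma not_mem_slot {T : ℝ} {n₀ : ℕ} (hn : 4 ≤ T * 2 ^ n₀) {j : ℕ} {t : ℝ}
    (ht : t ∈ Set.Ioo (sA T n₀ j) (sT T (j + 1))) (p : ℕ × ℕ) : t ∉ slot T n₀ p := by
  intro hp
  have hT := T_pos_of hn
  have h1 := slot_subset T n₀ p hp
  have h2 := sT_lt_sA (T := T) n₀ j
  rcases lt_trichotomy p.1 j with h | h | h
  · have a1 : sT T (p.1 + 1) ≤ sT T j := (sT_mono hT).monotone h
    have a2 := sA_add_lt hn p.1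
    have a3 := hh_pos n₀ p.1
    linarith [h1.2, ht.1]
  · rw [h] at h1
    linarith [h1.2, ht.1]
  · have a1 : sT T (j + 1) ≤ sT T p.1 := (sT_mono hT).monotone h
    linarith [h1.1, ht.2]

end Pool.Agent.Lib_helper9.Parab
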