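import Pool.Agent.Lib_helper9.Parab.Defs

/-!
# Calculus on the torus: integration by parts, translation invariance
-/

open MeasureTheory Set
open scoped ContDiff

namespace Pool.Agent.Lib_helper9.Parab

variable {d : ℕ}

lemma isCompact_cell : IsCompact (cell d) := isCompact_Icc

lemma measurableSet_cell : MeasurableSet (cell d) := measurableSet_Icc

lemma volume_cell : volume (cell d) = 1 := by
  rw [cell, Real.volume_Icc_pi]; simp

instance : IsProbabilityMeasure (volume.restrict (cell d)) :=
  ⟨by rw [Measure.restrict_apply_univ, volume_cell]⟩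

lemma integrableOn_cell {F : (Fin d → ℝ) → ℝ} (hF : Continuous F) : IntegrableOn F (cell d) :=
  hF.continuousOn.integrableOn_compact isCompact_cell

lemma IsPeriodic.add_single {E : Type*} {F : (Fin d → ℝ) → E} (hF : IsPeriodic F) (i : Fin d)
    (x : Fin d → ℝ) : F (x + Pi.single i 1) = F x := by
  have := hF (Pi.single i 1) x
  rw [← this]
  congr 1
  ext j
  by_cases h : j = i
  · subst h; simp
  · simp [h]

lemma pd_continuous {i : Fin d} {F : (Fin d → ℝ) → ℝ} (hF : ContDiff ℝ 1 F) :
    Continuous (pd i F) := by
  unfold pd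
  exact (hF.continuous_fderiv one_ne_zero).clm_apply continuous_const

/-- The integral of a partial derivative of a periodic function vanishes. -/
lemma integral_pd_eq_zero (i : Fin d) {F : (Fin d → ℝ) → ℝ} (hF : ContDiff ℝ 1 F)
    (hper : IsPeriodic F) : ∫ x in cell d, pd i F x = 0 := by
  obtain ⟨n, rfl⟩ : ∃ n, d = n + 1 := ⟨d - 1, by have := i.pos; omega⟩
  have hcont : Continuous (pd i F) := pd_continuous hF
  have key := integral_divergence_of_hasFDerivAt_off_countable' (n := n) (E := ℝ)
    (0 : Fin (n + 1) → ℝ) 1 (by intro j; simp)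
    (fun j => if j = i then F else 0)
    (fun j x => if j = i then fderiv ℝ F x else 0) ∅ countable_empty
    (by
      intro j
      by_cases h : j = i
      · simp only [h, if_true]; exact hF.continuous.continuousOn
      · simp only [h, if_false]; exact continuousOn_const)
    (by
      intro x _ j
      by_cases h : j = i
      · simp only [h, if_true]
        exact (hF.differentiable one_ne_zero x).hasFDerivAt
      · simp only [h, if_false]
        exact hasFDerivAt_const _ _)
    (by
      have : (fun x => ∑ j : Fin (n + 1),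
          (if j = i then fderiv ℝ F x else 0) (Pi.single j (1 : ℝ))) = pd i F := by
        ext x
        rw [Finset.sum_eq_single i]
        · simp [pd]
        · intro j _ hj; simp [hj]
        · intro h; exact absurd (Finset.mem_univ _) h
      simp only [this]
      exact integrableOn_cell hcont)
  have hL : (fun x => ∑ j : Fin (n + 1),
      (if j = i then fderiv ℝ F x else 0) (Pi.single j (1 : ℝ))) = pd i F := by
    ext x
    rw [Finset.sum_eq_single i]
    · simp [pd]
    · intro j _ hj; simp [hj]
    · intro h; exact absurd (Finset.mem_univ _) h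
  simp only [hL] at key
  rw [key]
  apply Finset.sum_eq_zero
  intro j _
  by_cases h : j = i
  · subst h
    simp only [if_true]
    rw [sub_eq_zero]
    apply integral_congr_ae
    filter_upwards with x
    have h1 := hper.add_single j (j.insertNth 0 x)
    rw [show ((1 : Fin (n + 1) → ℝ) j) = 1 from rfl, show ((0 : Fin (n + 1) → ℝ) j) = 0 from rfl,
      ← h1]
    congr 1
    ext k
    rcases Fin.eq_self_or_eq_succAbove j k with rfl | ⟨l, rfl⟩
    · simp
    · simp
  · simp [h]

lemma pd_mul (i : Fin d) {f g : (Fin d → ℝ) → ℝ} (hf : ContDiff ℝ 1 f) (hg : ContDiff ℝ 1 g)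
    (x : Fin d → ℝ) :
    pd i (fun y => f y * g y) x = f x * pd i g x + g x * pd i f x := by
  unfold pd
  rw [fderiv_fun_mul (hf.differentiable one_ne_zero x) (hg.differentiable one_ne_zero x)]
  simp

lemma IsPeriodic.mul {f g : (Fin d → ℝ) → ℝ} (hf : IsPeriodic f) (hg : IsPeriodic g) :
    IsPeriodic (fun y => f y * g y) := by
  intro k x; simp only [hf k x, hg k x]

/-- Integration by parts on the torus. -/
lemma integral_mul_pd (i : Fin d) {f g : (Fin d → ℝ) → ℝ} (hf : ContDiff ℝ 1 f)
    (hg : ContDiff ℝ 1 g) (pf : IsPeriodic f) (pg : IsPeriodic g) :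
    ∫ x in cell d, f x * pd i g x = - ∫ x in cell d, pd i f x * g x := by
  have h := integral_pd_eq_zero i (hf.mul hg) (pf.mul pg)
  have h2 : (fun x => pd i (fun y => f y * g y) x) =
      fun x => f x * pd i g x + pd i f x * g x := by
    ext x; rw [pd_mul i hf hg]; ring
  have h3 : ∫ x in cell d, (f x * pd i g x + pd i f x * g x) = 0 := by
    rw [← h2]; exact h
  rw [integral_add] at h3
  · linarith
  · exact integrableOn_cell (hf.continuous.mul (pd_continuous hg))
  · exact integrableOn_cell ((pd_continuous hf).mul hg.continuous)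

/-- Differentiation under the integral sign. -/
lemma hasDerivAt_integral_cell {G : ℝ × (Fin d → ℝ) → ℝ} (hG : ContDiff ℝ 1 G) (t : ℝ) :
    HasDerivAt (fun s => ∫ x in cell d, G (s, x))
      (∫ x in cell d, fderiv ℝ G (t, x) (1, 0)) t := by
  have hcont : Continuous (fun z : ℝ × (Fin d → ℝ) => fderiv ℝ G z (1, 0)) :=
    (hG.continuous_fderiv one_ne_zero).clm_apply continuous_const
  obtain ⟨C, hC⟩ : ∃ C, ∀ z ∈ (Set.Icc (t - 1) (t + 1)) ×ˢ cell d,
      ‖fderiv ℝ G z (1, 0)‖ ≤ C :=
    (isCompact_Icc.prod isCompact_cell).exists_bound_of_continuousOn hcont.continuousOn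
  refine (hasDerivAt_integral_of_dominated_loc_of_deriv_le (bound := fun _ => C)
    (F := fun s x => G (s, x)) (F' := fun s x => fderiv ℝ G (s, x) (1, 0))
    (s := Set.Icc (t - 1) (t + 1)) (Icc_mem_nhds (by linarith) (by linarith)) ?_ ?_ ?_ ?_ ?_ ?_).2
  · filter_upwards with s
    exact (hG.continuous.comp (by fun_prop)).aestronglyMeasurable
  · exact integrableOn_cell (hG.continuous.comp (by fun_prop))
  · exact (hcont.comp (by fun_prop)).aestronglyMeasurable
  · filter_upwards [self_mem_ae_restrict measurableSet_cell] with x hx s hs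
    exact hC (s, x) ⟨hs, hx⟩
  · exact integrable_const C
  · filter_upwards with x s _
    have h1 : HasFDerivAt G (fderiv ℝ G (s, x)) (s, x) :=
      (hG.differentiable one_ne_zero (s, x)).hasFDerivAt
    have h2 : HasDerivAt (fun r : ℝ => ((r, x) : ℝ × (Fin d → ℝ))) (1, 0) s :=
      (hasDerivAt_id s).prodMk (hasDerivAt_const s x)
    exact h1.comp_hasDerivAt s h2

/-- Translation invariance of the integral over the torus. -/
lemma integral_translate (i : Fin d) {F : (Fin d → ℝ) → ℝ} (hF : ContDiff ℝ 1 F)
    (hper : IsPeriodic F) (h : ℝ) :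
    ∫ x in cell d, F (x + h • Pi.single i 1) = ∫ x in cell d, F x := by
  set G : ℝ × (Fin d → ℝ) → ℝ := fun z => F (z.2 + z.1 • Pi.single i 1) with hGdef
  have hG : ContDiff ℝ 1 G := by
    apply hF.comp
    exact contDiff_snd.add (contDiff_fst.smul contDiff_const)
  have hderiv : ∀ t, HasDerivAt (fun s => ∫ x in cell d, G (s, x)) 0 t := by
    intro t
    have h1 := hasDerivAt_integral_cell hG t
    have h2 : ∫ x in cell d, fderiv ℝ G (t, x) (1, 0) = 0 := by
      have hF' : ContDiff ℝ 1 (fun x => F (x + t • Pi.single i 1)) :=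
        hF.comp (contDiff_id.add contDiff_const)
      have hper' : IsPeriodic (fun x => F (x + t • Pi.single i 1)) := by
        intro k x
        have := hper k (x + t • Pi.single i 1)
        simp only
        rw [← this]
        congr 1
        ext j
        simp; ring
      rw [← integral_pd_eq_zero i hF' hper']
      congr 1
      ext x
      have e1 : HasFDerivAt F (fderiv ℝ F (x + t • Pi.single i 1)) (x + t • Pi.single i 1) :=
        (hF.differentiable one_ne_zero _).hasFDerivAt
      have e2 : HasDerivAt (fun s : ℝ => x + s • (Pi.single i 1 : Fin d → ℝ))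
          (Pi.single i 1) t := by
        have := ((hasDerivAt_id t).smul_const (Pi.single i 1 : Fin d → ℝ)).const_add x
        simpa using this
      have e3 : HasDerivAt (fun s : ℝ => G (s, x))
          (fderiv ℝ F (x + t • Pi.single i 1) (Pi.single i 1)) t := e1.comp_hasDerivAt t e2
      have e4 : HasDerivAt (fun s : ℝ => G (s, x)) (fderiv ℝ G (t, x) (1, 0)) t := by
        have h1 : HasFDerivAt G (fderiv ℝ G (t, x)) (t, x) :=
          (hG.differentiable one_ne_zero (t, x)).hasFDerivAt
        have h2 : HasDerivAt (fun r : ℝ => ((r, x) : ℝ × (Fin d → ℝ))) (1, 0) t :=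
          (hasDerivAt_id t).prodMk (hasDerivAt_const t x)
        exact h1.comp_hasDerivAt t h2
      rw [e4.unique e3]
      unfold pd
      have e5 : HasFDerivAt (fun x => F (x + t • Pi.single i 1))
          (fderiv ℝ F (x + t • Pi.single i 1)) x := by
        have h6 : HasFDerivAt (fun x : Fin d → ℝ => x + t • (Pi.single i 1 : Fin d → ℝ))
            (ContinuousLinearMap.id ℝ _) x := (hasFDerivAt_id x).add_const _
        have h7 := HasFDerivAt.comp (g := F) x e1 h6
        rw [ContinuousLinearMap.comp_id] at h7
        exact h7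
      rw [e5.fderiv]
    rw [h2] at h1
    exact h1
  have hconst := is_const_of_deriv_eq_zero (fun t => (hderiv t).differentiableAt)
    (fun t => (hderiv t).deriv) h 0
  simpa [hGdef] using hconst

end Pool.Agent.Lib_helper9.Parab
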